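import Pool.Agent.H630R2.LR.M2

/-!
Sparse polynomials and sensitive blocks.
-/

set_option autoImplicit false

namespace Pool.Agent.K4H92.ANDF

open Finset

variable {P : Type*} [DecidableEq P]

/-- the value at `v` of the multilinear polynomial with monomials `Z` and coefficients `a` -/
def ev (Z : Finset (Finset P)) (a : Finset P → ℝ) (v : Finset P) : ℝ :=
  ∑ z ∈ Z with z ⊆ v, a z

theorem exists_half (D K : ℕ) (C : Finset (Finset (Fin K))) (hC : C.card < 2 ^ D) :
    ∃ R : Finset (Fin K), K ≤ 2 * R.card ∧ ∀ B ∈ C, B ⊆ R → B.card ≤ D := by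
  classical
  by_cases hDK : K ≤ D
  · refine ⟨univ, by simp; omega, fun B _ _ => ?_⟩
    exact (card_le_univ B).trans (by simpa using hDK)
  push Not at hDK
  set bad : Finset (Finset (Fin K)) := univ.filter (fun R => ∃ B ∈ C, D < B.card ∧ B ⊆ R) with hbad
  have hcard : bad.card < 2 ^ (K - 1) := by
    have h1 : bad ⊆ (C.filter (fun B => D < B.card)).biUnion (fun B => Icc B univ) := by
      intro R hR
      rw [hbad, mem_filter] at hR
      obtain ⟨_, B, hB, hDB, hBR⟩ := hR
      rw [mem_biUnion]
      exact ⟨B, mem_filter.mpr ⟨hB, hDB⟩, mem_Icc.mpr ⟨hBR, subset_univ _⟩⟩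
    have h2 : bad.card ≤ C.card * 2 ^ (K - (D + 1)) := by
      refine (card_le_card h1).trans (card_biUnion_le.trans ?_)
      refine (sum_le_card_nsmul _ _ (2 ^ (K - (D + 1))) fun B hB => ?_).trans ?_
      · rw [card_Icc_finset (subset_univ _), card_univ, Fintype.card_fin]
        refine Nat.pow_le_pow_right (by norm_num) ?_
        have := (mem_filter.mp hB).2
        omega
      · rw [smul_eq_mul]
        exact Nat.mul_le_mul_right _ (card_le_card (filter_subset _ _))
    calc bad.card ≤ C.card * 2 ^ (K - (D + 1)) := h2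
      _ < 2 ^ D * 2 ^ (K - (D + 1)) := Nat.mul_lt_mul_of_pos_right hC (by positivity)
      _ = 2 ^ (K - 1) := by
        rw [← pow_add]
        congr 1
        omega
  have hex : ∃ R : Finset (Fin K), R ∉ bad ∧ Rᶜ ∉ bad := by
    by_contra hcon
    push Not at hcon
    have h1 : (univ : Finset (Finset (Fin K))) ⊆ bad ∪ bad.image compl := by
      intro R _
      rw [mem_union]
      by_cases hR : R ∈ bad
      · exact Or.inl hR
      · refine Or.inr (mem_image.mpr ⟨Rᶜ, hcon R hR, compl_compl R⟩)
    have h2 := card_le_card h1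
    rw [card_univ, Fintype.card_finset, Fintype.card_fin] at h2
    have h3 : (bad ∪ bad.image compl).card ≤ bad.card + bad.card :=
      (card_union_le _ _).trans (Nat.add_le_add_left card_image_le _)
    have h4 : 2 ^ K = 2 * 2 ^ (K - 1) := by
      rw [← pow_succ']
      congr 1
      omega
    omega
  obtain ⟨R, hR, hRc⟩ := hex
  have hkey : ∀ S : Finset (Fin K), S ∉ bad → ∀ B ∈ C, B ⊆ S → B.card ≤ D := by
    intro S hS B hB hBS
    by_contra hcon
    push Not at hcon
    exact hS (mem_filter.mpr ⟨mem_univ _, B, hB, hcon, hBS⟩)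
  have hsum : R.card + Rᶜ.card = K := by
    rw [card_add_card_compl, Fintype.card_fin]
  rcases le_total R.card Rᶜ.card with h | h
  · exact ⟨Rᶜ, by omega, hkey _ hRc⟩
  · exact ⟨R, by omega, hkey _ hR⟩

theorem blocks (Z : Finset (Finset P)) (a : Finset P → ℝ) (D K : ℕ) (hZ : Z.card < 2 ^ D)
    (b0 : Finset P) (v : Fin K → Finset P) (hd : Pairwise fun i j => Disjoint (v i) (v j))
    (hb : ∀ i, Disjoint b0 (v i))
    (h01 : ∀ Y : Finset (Fin K), ev Z a (b0 ∪ Y.biUnion v) = 0 ∨ ev Z a (b0 ∪ Y.biUnion v) = 1)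
    (hs : ∀ i, ev Z a (b0 ∪ v i) ≠ ev Z a b0) : K ≤ 2 * D ^ 2 := by
  classical
  set tch : Finset P → Finset (Fin K) := fun w => univ.filter (fun i => ¬ Disjoint w (v i)) with htch
  set Z1 := Z.filter (fun w => w ⊆ b0 ∪ univ.biUnion v) with hZ1
  set c : Finset (Fin K) → ℝ := fun B => ∑ w ∈ Z1 with tch w = B, a w with hc
  have hiff : ∀ (Y : Finset (Fin K)) (w : Finset P),
      (w ⊆ b0 ∪ univ.biUnion v ∧ tch w ⊆ Y) ↔ w ⊆ b0 ∪ Y.biUnion v := by
    intro Y w
    constructor
    · rintro ⟨h1, h2⟩ p hp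
      have h3 := h1 hp
      rw [mem_union, mem_biUnion] at h3
      rw [mem_union, mem_biUnion]
      rcases h3 with h3 | ⟨i, _, hi⟩
      · exact Or.inl h3
      · refine Or.inr ⟨i, h2 ?_, hi⟩
        rw [htch, mem_filter]
        refine ⟨mem_univ _, fun hdis => ?_⟩
        exact (Finset.disjoint_left.mp hdis hp) hi
    · intro h
      refine ⟨h.trans (union_subset_union_right (biUnion_subset_biUnion_of_subset_left _
        (subset_univ _))), fun i hi => ?_⟩
      rw [htch, mem_filter] at hi
      obtain ⟨p, hp, hpi⟩ := Finset.not_disjoint_iff.mp hi.2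
      have h3 := h hp
      rw [mem_union, mem_biUnion] at h3
      rcases h3 with h3 | ⟨j, hj, hpj⟩
      · exact absurd hpi (Finset.disjoint_left.mp (hb i) h3)
      · by_contra hiY
        have hij : i ≠ j := fun h => hiY (h ▸ hj)
        exact (Finset.disjoint_left.mp (hd hij) hpi) hpj
  have hsum : ∀ Y : Finset (Fin K), ∑ B ∈ Y.powerset, c B = ev Z a (b0 ∪ Y.biUnion v) := by
    intro Y
    have h1 : ev Z a (b0 ∪ Y.biUnion v) = ∑ w ∈ Z1 with tch w ⊆ Y, a w := by
      unfold ev
      refine sum_congr ?_ fun _ _ => rfl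
      ext w
      rw [mem_filter, mem_filter, hZ1, mem_filter, ← hiff Y w]
      tauto
    rw [h1, hc]
    have h2 : ∀ w ∈ Z1.filter (fun w => tch w ⊆ Y), tch w ∈ Y.powerset := fun w hw =>
      mem_powerset.mpr (mem_filter.mp hw).2
    rw [← sum_fiberwise_of_maps_to h2]
    refine sum_congr rfl fun B hB => ?_
    refine sum_congr ?_ fun _ _ => rfl
    ext w
    simp only [mem_filter]
    constructor
    · rintro ⟨h3, h4⟩
      exact ⟨⟨h3, h4 ▸ mem_powerset.mp hB⟩, h4⟩
    · rintro ⟨⟨h3, _⟩, h5⟩
      exact ⟨h3, h5⟩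
  obtain ⟨R, hR, hRD⟩ := exists_half D K (Z1.image tch)
    (lt_of_le_of_lt (card_image_le.trans (card_le_card (filter_subset _ _))) hZ)
  have hcz : ∀ B, B ∉ Z1.image tch → c B = 0 := by
    intro B hB
    refine sum_eq_zero fun w hw => ?_
    rw [mem_filter] at hw
    exact absurd (mem_image.mpr ⟨w, hw.1, hw.2⟩) hB
  set e : Fin R.card → Fin K := fun j => (R.orderEmbOfFin rfl) j with he
  have heinj : Function.Injective e := (R.orderEmbOfFin rfl).injective
  have heR : ∀ j, e j ∈ R := fun j => R.orderEmbOfFin_mem rfl j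
  set c' : Finset (Fin K) → ℝ := fun S => if S ⊆ R then c S else 0 with hc'
  have hYR : ∀ Y : Finset (Fin R.card), Y.biUnion (fun j => ({e j} : Finset (Fin K))) ⊆ R := by
    intro Y i hi
    rw [mem_biUnion] at hi
    obtain ⟨j, _, hj⟩ := hi
    rw [mem_singleton] at hj
    exact hj ▸ heR j
  have hc's : ∀ S : Finset (Fin K), S ⊆ R → ∑ B ∈ S.powerset, c' B = ∑ B ∈ S.powerset, c B := by
    intro S hS
    refine sum_congr rfl fun B hB => ?_
    rw [hc']
    simp only
    rw [if_pos ((mem_powerset.mp hB).trans hS)]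
  have hbb := Pool.Agent.H630R2.LR.MARKOV.block_bound (b := R.card) (k := D) c'
    (fun j => ({e j} : Finset (Fin K))) (by
      intro i j hij
      rw [Finset.disjoint_singleton]
      exact fun h => hij (heinj h)) (by
      intro S hS
      rw [hc']
      simp only
      split_ifs with h
      · by_contra hne
        have h1 : S ∈ Z1.image tch := by
          by_contra h2
          exact hne (hcz S h2)
        have := hRD S h1 h
        omega
      · rfl) (by
      intro Y
      rw [hc's _ (hYR Y), hsum]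
      exact h01 _) (by
      intro j
      have h1 : ({e j} : Finset (Fin K)) ⊆ R := by
        rw [singleton_subset_iff]
        exact heR j
      rw [hc's _ h1, hsum]
      have h2 : c' ∅ = ev Z a b0 := by
        have h3 := hc's ∅ (empty_subset _)
        rw [hsum] at h3
        simpa using h3
      rw [h2]
      simpa using hs (e j))
  omega

end Pool.Agent.K4H92.ANDF
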