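import Pool.Agent.K4H92.ANDF.Step
import Pool.Agent.H630R2.LR.Bounds

/-!
The log-rank conjecture for functions of the meet.
-/

set_option autoImplicit false

namespace Pool.Agent.K4H92.ANDF

open Finset Pool.Agent.H630R2.LR Module

theorem exists_mob {L : Type*} [PartialOrder L] [Fintype L] [DecidableLE L] (g : L → ℝ) :
    ∃ a : L → ℝ, ∀ t, ∑ z with z ≤ t, a z = g t := by
  classical
  have wf : WellFounded ((· < ·) : L → L → Prop) := wellFounded_lt
  set a : L → ℝ := wf.fix (fun t ih => g t - ∑ z ∈ (univ.filter (fun z : L => z < t)).attach,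
    ih z.1 (mem_filter.mp z.2).2) with ha
  refine ⟨a, fun t => ?_⟩
  have h1 : a t = g t - ∑ z ∈ (univ.filter (fun z : L => z < t)).attach, a z.1 := by
    rw [ha, wf.fix_eq]
  rw [sum_attach _ a] at h1
  have h2 : (univ.filter fun z : L => z ≤ t) = insert t (univ.filter fun z : L => z < t) := by
    ext z
    simp [le_iff_eq_or_lt]
  rw [h2, sum_insert (by simp), h1]
  ring

theorem zeta_indep {L : Type*} [PartialOrder L] [Fintype L] [DecidableLE L] (c : L → ℝ)
    (h : ∀ x : L, ∑ z, c z * (if z ≤ x then 1 else 0) = 0) (z : L) : c z = 0 := by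
  classical
  have wf : WellFounded ((· < ·) : L → L → Prop) := wellFounded_lt
  induction z using wf.induction with
  | _ z ih =>
    have h1 := h z
    rw [sum_eq_single z] at h1
    · simpa using h1
    · intro y _ hy
      by_cases hyz : y ≤ z
      · rw [ih y (lt_of_le_of_ne hyz hy), zero_mul]
      · rw [if_neg hyz, mul_zero]
    · simp

theorem card_le_rank {L : Type*} [SemilatticeInf L] [Fintype L] [DecidableLE L] (f : L → Bool)
    (a : L → ℝ) (ha : ∀ t, ∑ z with z ≤ t, a z = if f t then 1 else 0) :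
    (univ.filter fun z => a z ≠ 0).card ≤ (comm fun x y : L => f (x ⊓ y)).rank := by
  classical
  set M := comm fun x y : L => f (x ⊓ y) with hM
  set e : L → (L → ℝ) := fun z x => if z ≤ x then 1 else 0 with he
  rw [Matrix.rank_eq_finrank_span_cols]
  set V := Submodule.span ℝ (Set.range M.col) with hV
  have hcol : ∀ y, M.col y = ∑ z with z ≤ y, a z • e z := by
    intro y
    funext x
    have h1 : M.col y x = if f (x ⊓ y) then (1 : ℝ) else 0 := rfl
    rw [h1, ← ha, Finset.sum_apply]
    have h2 : (univ.filter fun z : L => z ≤ x ⊓ y) =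
        (univ.filter fun z : L => z ≤ y).filter (fun z => z ≤ x) := by
      ext z
      simp only [mem_filter, mem_univ, true_and, le_inf_iff]
      tauto
    rw [h2, sum_filter]
    refine sum_congr rfl fun z _ => ?_
    simp [he]
  have hmem : ∀ y, a y • e y ∈ V := by
    intro y
    have wf : WellFounded ((· < ·) : L → L → Prop) := wellFounded_lt
    induction y using wf.induction with
    | _ y ih =>
      have h2 : (univ.filter fun z : L => z ≤ y) = insert y (univ.filter fun z : L => z < y) := by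
        ext z
        simp [le_iff_eq_or_lt]
      have h3 : a y • e y = M.col y - ∑ z with z < y, a z • e z := by
        rw [hcol, h2, sum_insert (by simp)]
        simp
      rw [h3]
      refine V.sub_mem (Submodule.subset_span ⟨y, rfl⟩) (V.sum_mem fun z hz => ?_)
      exact ih z (mem_filter.mp hz).2
  have hmem' : ∀ y : {z // a z ≠ 0}, e y.1 ∈ V := by
    intro y
    have := V.smul_mem (a y.1)⁻¹ (hmem y.1)
    rwa [smul_smul, inv_mul_cancel₀ y.2, one_smul] at this
  have hli : LinearIndependent ℝ (fun y : {z // a z ≠ 0} => (⟨e y.1, hmem' y⟩ : V)) := by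
    refine LinearIndependent.of_comp V.subtype ?_
    have hli2 : LinearIndependent ℝ e := by
      rw [Fintype.linearIndependent_iff]
      intro c hc z
      refine zeta_indep c (fun x => ?_) z
      have h4 := congrFun hc x
      rw [Finset.sum_apply] at h4
      simpa [he] using h4
    exact hli2.comp (fun y : {z // a z ≠ 0} => y.1) Subtype.val_injective
  have h5 := hli.fintype_card_le_finrank
  rwa [Fintype.card_subtype] at h5

theorem rep_semi {L : Type*} [SemilatticeInf L] [Fintype L] [DecidableEq L] [DecidableLE L]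
    (f : L → Bool) (a : L → ℝ) (ha : ∀ t, ∑ z with z ≤ t, a z = if f t then 1 else 0) :
    ∃ (φ : L → Finset L) (Z : Finset (Finset L)) (α : Finset L → ℝ) (Q : Finset L → Prop),
      Rep (fun x y : L => f (x ⊓ y)) φ φ Z α Q univ univ ∧
        Z.card ≤ (univ.filter fun z => a z ≠ 0).card := by
  classical
  set φ : L → Finset L := fun x => univ.filter fun p => ¬ x ≤ p with hφ
  have hφmem : ∀ x p, p ∈ φ x ↔ ¬ x ≤ p := by
    intro x p
    simp [hφ]
  have hinj : Function.Injective φ := by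
    intro x y hxy
    have h1 : y ∉ φ x := by
      rw [hxy, hφmem]
      simp
    have h2 : x ∉ φ y := by
      rw [← hxy, hφmem]
      simp
    rw [hφmem, not_not] at h1 h2
    exact le_antisymm h1 h2
  set W := univ.filter fun z => a z ≠ 0 with hW
  set α : Finset L → ℝ := fun S => ∑ z with φ z = S, a z with hα
  have hαφ : ∀ z, α (φ z) = a z := by
    intro z
    rw [hα]
    simp only
    rw [sum_eq_single z]
    · intro y hy hyz
      exact absurd (hinj (mem_filter.mp hy).2) hyz
    · intro h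
      simp at h
  have hev : ∀ v, ev (W.image φ) α v = ∑ z with φ z ⊆ v, a z := by
    intro v
    unfold ev
    have h1 : (W.image φ).filter (fun S => S ⊆ v) = (W.filter fun z => φ z ⊆ v).image φ := by
      ext S
      simp only [mem_filter, mem_image]
      constructor
      · rintro ⟨⟨z, hz, rfl⟩, h⟩
        exact ⟨z, ⟨hz, h⟩, rfl⟩
      · rintro ⟨z, ⟨hz, h⟩, rfl⟩
        exact ⟨⟨z, hz, rfl⟩, h⟩
    rw [h1, sum_image (fun x _ y _ h => hinj h)]
    refine sum_subset_zero_on_sdiff ?_ ?_ fun z _ => hαφ z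
    · intro z hz
      rw [mem_filter] at hz
      exact mem_filter.mpr ⟨mem_univ _, hz.2⟩
    · intro z hz
      rw [mem_sdiff, mem_filter, mem_filter, hW, mem_filter] at hz
      by_contra hne
      exact hz.2 ⟨⟨mem_univ _, hne⟩, hz.1.2⟩
  have hinf : ∀ (v : Finset L) (hv : vᶜ.Nonempty), ev (W.image φ) α v =
      if f (vᶜ.inf' hv id) then 1 else 0 := by
    intro v hv
    rw [hev, ← ha]
    refine sum_congr ?_ fun _ _ => rfl
    ext z
    simp only [mem_filter, mem_univ, true_and, le_inf'_iff, id]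
    constructor
    · intro h p hp
      by_contra h1
      exact (mem_compl.mp hp) (h ((hφmem z p).mpr h1))
    · intro h p hp
      by_contra h1
      exact ((hφmem z p).mp hp) (h p (mem_compl.mpr h1))
  refine ⟨φ, W.image φ, α, fun v => vᶜ.Nonempty, ⟨?_, ?_, ?_, ?_, ?_⟩, card_image_le⟩
  · intro u v huv hv
    exact hv.mono (compl_subset_compl.mpr huv)
  · intro S hS
    obtain ⟨z, hz, rfl⟩ := mem_image.mp hS
    rw [hαφ]
    exact (mem_filter.mp hz).2
  · intro S hS
    obtain ⟨z, hz, rfl⟩ := mem_image.mp hS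
    refine ⟨z, mem_compl.mpr ?_⟩
    rw [hφmem]
    simp
  · intro v hv
    rw [hinf v hv]
    split_ifs
    · exact Or.inr rfl
    · exact Or.inl rfl
  · intro x _ y _
    have hx : x ∈ (φ x ∩ φ y)ᶜ := by
      rw [mem_compl, mem_inter, hφmem]
      simp
    have hy : y ∈ (φ x ∩ φ y)ᶜ := by
      rw [mem_compl, mem_inter, hφmem y y]
      simp
    refine ⟨⟨x, hx⟩, ?_⟩
    rw [hinf _ ⟨x, hx⟩]
    have h1 : (φ x ∩ φ y)ᶜ.inf' ⟨x, hx⟩ id = x ⊓ y := by
      apply le_antisymm
      · exact le_inf (inf'_le id hx) (inf'_le id hy)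
      · rw [le_inf'_iff]
        intro p hp
        rw [mem_compl, mem_inter, hφmem, hφmem, not_and_or, not_not, not_not] at hp
        rcases hp with hp | hp
        · exact inf_le_left.trans hp
        · exact inf_le_right.trans hp
    rw [h1]

/-- **The log-rank conjecture for functions of the meet.** -/
theorem proto_meet {L : Type*} [SemilatticeInf L] [Fintype L] (f : L → Bool) :
    ∃ c : ℕ, Proto (fun x y : L => f (x ⊓ y)) c ∧
      (c : ℝ) ≤ 394 * (Real.logb 2 ((comm fun x y : L => f (x ⊓ y)).rank : ℝ) + 1) ^ 7 := by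
  classical
  obtain ⟨a, ha⟩ := exists_mob (fun t : L => if f t then (1 : ℝ) else 0)
  obtain ⟨φ, Z, α, Q, hR, hZ⟩ := rep_semi f a ha
  have hZr := hZ.trans (card_le_rank f a ha)
  set F : L → L → Bool := fun x y => f (x ⊓ y) with hF
  set r := (comm F).rank with hr
  have hlog : (0 : ℝ) ≤ Real.logb 2 (r : ℝ) := logb_nonneg r
  rcases Nat.eq_zero_or_pos r with h0 | hr1
  · have hZ0 : Z.card = 0 := by omega
    refine ⟨0, Proto.const F false ?_, ?_⟩
    · intro x y
      have h1 := (hR.rep x (mem_univ _) y (mem_univ _)).2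
      rw [card_eq_zero] at hZ0
      rw [hZ0] at h1
      unfold ev at h1
      by_contra h3
      rw [Bool.not_eq_false] at h3
      rw [h3] at h1
      simp at h1
    · rw [Nat.cast_zero]
      positivity
  set D := Nat.log 2 r + 1 with hD
  have hrD : r < 2 ^ D := Nat.lt_pow_succ_log_self (by norm_num) r
  have hD1 : 1 ≤ D := by omega
  set K := 2 * D ^ 2 + 1 with hK
  have hrich := rich F φ φ r D K hrD (by omega) hr1 Z α Q hR hZr
  set q := 2 * ((D * K + 1) * (8 * K * D) + 1) with hq
  have hQ : ((2 * r ^ K) ^ (8 * K * D) * 2) * ((2 * r ^ K) ^ (8 * K * D) * 2) ≤ 2 ^ q := by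
    have h1 : 2 * r ^ K ≤ 2 ^ (D * K + 1) := by
      calc 2 * r ^ K ≤ 2 * (2 ^ D) ^ K := Nat.mul_le_mul_left _ (Nat.pow_le_pow_left hrD.le K)
        _ = 2 ^ (D * K + 1) := by rw [← pow_mul, pow_succ]; ring
    have h2 : (2 * r ^ K) ^ (8 * K * D) * 2 ≤ 2 ^ ((D * K + 1) * (8 * K * D) + 1) := by
      rw [pow_succ 2 ((D * K + 1) * (8 * K * D)), pow_mul 2 (D * K + 1)]
      exact Nat.mul_le_mul_right _ (Nat.pow_le_pow_left h1 _)
    calc _ ≤ 2 ^ ((D * K + 1) * (8 * K * D) + 1) * 2 ^ ((D * K + 1) * (8 * K * D) + 1) :=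
          Nat.mul_le_mul h2 h2
      _ = 2 ^ q := by
        rw [← pow_add]
        congr 1
        omega
  have hrich2 : Pool.Agent.R533.VC.Rich F (2 ^ q) := by
    intro A B hA hB
    obtain ⟨A', hA', B', hB', v, hv, hc⟩ := hrich A B hA hB
    exact ⟨A', hA', B', hB', v, hv, hc.trans (Nat.mul_le_mul_right _ hQ)⟩
  have hP := Pool.Agent.R533.VC.nw F (2 ^ q) Nat.one_le_two_pow hrich2 (D + 1 + q) (by
    rw [← hr]
    have h1 : 1 ≤ 2 ^ q := Nat.one_le_two_pow
    calc 2 * r * 2 ^ q + 2 ≤ 2 * r * 2 ^ q + 2 * 2 ^ q := by omega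
      _ = 2 * (r + 1) * 2 ^ q := by ring
      _ ≤ 2 * 2 ^ D * 2 ^ q := Nat.mul_le_mul_right _ (Nat.mul_le_mul_left _ hrD)
      _ = 2 ^ (D + 1 + q) := by
        rw [pow_add, pow_succ]
        ring)
  refine ⟨_, hP, ?_⟩
  have hcl : Nat.clog 2 r ≤ D := by
    rw [Nat.clog_le_iff_le_pow (by norm_num)]
    exact hrD.le
  have hDl : (D : ℝ) ≤ Real.logb 2 (r : ℝ) + 1 := by
    rw [hD]
    push_cast
    have := log_le r
    linarith
  have h4 : 2 * (D + 1 + q) * Nat.clog 2 r + 2 ≤ 394 * D ^ 7 := by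
    have e1 : q = 2 * ((D * (2 * D ^ 2 + 1) + 1) * (8 * (2 * D ^ 2 + 1) * D) + 1) := rfl
    calc 2 * (D + 1 + q) * Nat.clog 2 r + 2 ≤ 2 * (D + 1 + q) * D + 2 := by
          have := Nat.mul_le_mul_left (2 * (D + 1 + q)) hcl
          omega
      _ ≤ 394 * D ^ 7 := by
          rw [e1]
          obtain ⟨d, hd⟩ := Nat.exists_eq_add_of_le hD1
          rw [hd]
          ring_nf
          have hpos : 0 ≤ d := Nat.zero_le d
          nlinarith [Nat.zero_le (d ^ 2), Nat.zero_le (d ^ 3), Nat.zero_le (d ^ 4),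
            Nat.zero_le (d ^ 5), Nat.zero_le (d ^ 6), Nat.zero_le (d ^ 7)]
  have h5 : ((2 * (D + 1 + q) * Nat.clog 2 r + 2 : ℕ) : ℝ) ≤ 394 * (D : ℝ) ^ 7 := by
    exact_mod_cast h4
  refine h5.trans ?_
  have h6 : (D : ℝ) ^ 7 ≤ (Real.logb 2 (r : ℝ) + 1) ^ 7 :=
    pow_le_pow_left₀ (Nat.cast_nonneg _) hDl 7
  linarith

end Pool.Agent.K4H92.ANDF
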