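import Pool.Agent.K4H92.ANDF.Fact
import Pool.Agent.K4H92.ANDF.Semi
import Pool.Agent.TH744.LR.Main

/-!
Compositions with inner functions which are not an exclusive or of one bit of each player.
-/

set_option autoImplicit false
set_option linter.unusedSectionVars false

namespace Pool.Agent.K4H92.ANDF

open Finset Pool.Agent.H630R2.LR

open Pool.Agent.TH744.LR (bv cm comp inner coef coef_rep prodM prodM_rank_le prod_le_rank Good Rows3
  dRow Prot logRk logRk_nonneg exists_good sum_pow_le)

theorem Stable.of_index {X Y J : Type*} [Fintype J] (F : X → Y → Bool) (V : Set ℝ)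
    (u : J → X → Bool) (h : J → Y → ℝ)
    (h1 : ∀ x y, ∑ z with u z x = true, h z y = if F x y then 1 else 0)
    (h2 : ∀ I : Finset X, I.Nonempty → ∀ y, ∑ z with ∀ x ∈ I, u z x = true, h z y ∈ V) :
    Stable F V (Fintype.card J) := by
  classical
  let e : Fin (Fintype.card J) ≃ J := (Fintype.equivFin J).symm
  refine ⟨fun z => u (e z), fun z => h (e z), fun x y => ?_, fun I hI y => ?_⟩
  · rw [← h1 x y, sum_filter, sum_filter]
    exact Equiv.sum_comp e (fun z => if u z x = true then h z y else 0)
  · have h3 : ∑ z with ∀ x ∈ I, u (e z) x = true, h (e z) y =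
        ∑ z with ∀ x ∈ I, u z x = true, h z y := by
      rw [sum_filter, sum_filter]
      exact Equiv.sum_comp e (fun z => if ∀ x ∈ I, u z x = true then h z y else 0)
    rw [h3]
    exact h2 I hI y

section comp

variable {ι : Type} [DecidableEq ι] [Fintype ι] {X Y : ι → Type}

theorem stable_comp (f : ∀ i, X i → Y i → Bool) (g : Finset ι → Bool) (c : Finset ι → ℝ)
    (hc : Pool.Agent.TH744.LR.Rep g c) (t : ι → ℕ) (hf : ∀ i, Stable (f i) {0, 1} (t i))
    (M B : ℕ) (hM : (univ.filter fun T => c T ≠ 0).card ≤ M)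
    (hB : ∀ T, c T ≠ 0 → ∏ i ∈ T, t i ≤ B) :
    ∃ s ≤ M * B, Stable (comp g (inner f)) {0, 1} s := by
  classical
  choose u h hf1 hf2 using hf
  let J := Σ T : {T : Finset ι // c T ≠ 0}, (∀ i : {i // i ∈ T.1}, Fin (t i.1))
  let U : J → (∀ i, X i) → Bool :=
    fun z x => decide (∀ i : {i // i ∈ z.1.1}, u i.1 (z.2 i) (x i.1) = true)
  let H : J → (∀ i, Y i) → ℝ := fun z y => c z.1.1 * ∏ i : {i // i ∈ z.1.1}, h i.1 (z.2 i) (y i.1)
  have key : ∀ (I : Finset (∀ i, X i)) (y : ∀ i, Y i) (β : ι → Bool),
      (∀ i, ∑ w with ∀ x ∈ I, u i w (x i) = true, h i w (y i) = if β i then 1 else 0) →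
      ∑ z : J with ∀ x ∈ I, U z x = true, H z y = bv (g (univ.filter fun i => β i = true)) := by
    intro I y β hβ
    rw [sum_filter, Fintype.sum_sigma]
    have h3 : ∀ T : {T : Finset ι // c T ≠ 0}, ∑ w : (∀ i : {i // i ∈ T.1}, Fin (t i.1)),
        (if ∀ x ∈ I, U ⟨T, w⟩ x = true then H ⟨T, w⟩ y else 0) =
        if T.1 ⊆ univ.filter fun i => β i = true then c T.1 else 0 := by
      intro T
      have h4 : ∀ w : (∀ i : {i // i ∈ T.1}, Fin (t i.1)),
          (if ∀ x ∈ I, U ⟨T, w⟩ x = true then H ⟨T, w⟩ y else 0) =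
          c T.1 * ∏ i : {i // i ∈ T.1},
            (if ∀ x ∈ I, u i.1 (w i) (x i.1) = true then h i.1 (w i) (y i.1) else 0) := by
        intro w
        by_cases h6 : ∀ x ∈ I, U ⟨T, w⟩ x = true
        · rw [if_pos h6]
          have h7 : ∀ i : {i // i ∈ T.1}, (if ∀ x ∈ I, u i.1 (w i) (x i.1) = true then
              h i.1 (w i) (y i.1) else 0) = h i.1 (w i) (y i.1) := by
            intro i
            rw [if_pos]
            intro x hx
            exact (of_decide_eq_true (h6 x hx)) i
          rw [prod_congr rfl fun i _ => h7 i]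
        · rw [if_neg h6]
          push Not at h6
          obtain ⟨x, hx, hx2⟩ := h6
          have h7 : ∃ i : {i // i ∈ T.1}, ¬ u i.1 (w i) (x i.1) = true := by
            by_contra hcon
            push Not at hcon
            exact hx2 (decide_eq_true hcon)
          obtain ⟨i, hi⟩ := h7
          rw [prod_eq_zero (mem_univ i), mul_zero]
          rw [if_neg]
          intro h8
          exact hi (h8 x hx)
      rw [sum_congr rfl fun w _ => h4 w, ← mul_sum]
      have h7 := prod_univ_sum (fun i : {i // i ∈ T.1} => (univ : Finset (Fin (t i.1))))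
        (fun i j => if ∀ x ∈ I, u i.1 j (x i.1) = true then h i.1 j (y i.1) else 0)
      rw [Fintype.piFinset_univ] at h7
      rw [← h7]
      have h8 : ∀ i : {i // i ∈ T.1}, ∑ j : Fin (t i.1),
          (if ∀ x ∈ I, u i.1 j (x i.1) = true then h i.1 j (y i.1) else 0) =
          if β i.1 = true then 1 else 0 := by
        intro i
        rw [← sum_filter]
        exact hβ i.1
      rw [prod_congr rfl fun i _ => h8 i]
      by_cases h9 : T.1 ⊆ univ.filter fun i => β i = true
      · rw [if_pos h9, prod_eq_one, mul_one]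
        intro i _
        rw [if_pos (mem_filter.mp (h9 i.2)).2]
      · rw [if_neg h9]
        obtain ⟨i, hi, hi2⟩ := not_subset.mp h9
        rw [prod_eq_zero (mem_univ (⟨i, hi⟩ : {i // i ∈ T.1})), mul_zero]
        rw [if_neg]
        intro h10
        exact hi2 (mem_filter.mpr ⟨mem_univ _, h10⟩)
    rw [sum_congr rfl fun T _ => h3 T, hc]
    rw [← sum_subtype (univ.filter fun T => c T ≠ 0) (fun x => by simp)
      (fun T => if T ⊆ univ.filter fun i => β i = true then c T else 0), ← sum_filter]
    refine sum_subset_zero_on_sdiff ?_ ?_ fun _ _ => rfl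
    · intro T hT
      exact mem_powerset.mpr (mem_filter.mp hT).2
    · intro T hT
      rw [mem_sdiff, mem_powerset, mem_filter, mem_filter] at hT
      by_contra hne
      exact hT.2 ⟨⟨mem_univ _, hne⟩, hT.1⟩
  have hcard : Fintype.card J ≤ M * B := by
    have h1 : Fintype.card J = ∑ T : {T : Finset ι // c T ≠ 0}, ∏ i ∈ T.1, t i := by
      rw [Fintype.card_sigma]
      refine sum_congr rfl fun T _ => ?_
      rw [Fintype.card_pi, ← prod_coe_sort T.1]
      simp
    rw [h1]
    refine (sum_le_card_nsmul _ _ B fun T _ => hB T.1 T.2).trans ?_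
    rw [smul_eq_mul, card_univ, Fintype.card_subtype]
    exact Nat.mul_le_mul_right _ hM
  refine ⟨_, hcard, Stable.of_index _ _ U H (fun x y => ?_) fun I hI y => ?_⟩
  · have h1 := key {x} y (fun i => f i (x i) (y i)) (fun i => by
      rw [← hf1 i (x i) (y i)]
      refine sum_congr ?_ fun _ _ => rfl
      ext z
      simp)
    have h2 : (univ.filter fun z : J => ∀ x' ∈ ({x} : Finset (∀ i, X i)), U z x' = true) =
        univ.filter fun z => U z x = true := by
      ext z
      simp
    rw [h2] at h1
    rw [h1]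
    rfl
  · have h1 : ∀ i, ∃ b : Bool, ∑ w with ∀ x ∈ I, u i w (x i) = true, h i w (y i) =
        if b then 1 else 0 := by
      intro i
      have h2 := hf2 i (I.image fun x => x i) (hI.image _) (y i)
      have h3 : ∑ w with ∀ a ∈ I.image (fun x => x i), u i w a = true, h i w (y i) =
          ∑ w with ∀ x ∈ I, u i w (x i) = true, h i w (y i) := by
        refine sum_congr ?_ fun _ _ => rfl
        ext w
        simp
      have h4 : ∑ w with ∀ x ∈ I, u i w (x i) = true, h i w (y i) ∈ ({0, 1} : Set ℝ) := by
        rw [← h3]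
        convert h2
      rcases h4 with h4 | h4
      · exact ⟨false, by rw [h4]; simp⟩
      · exact ⟨true, by rw [h4]; simp⟩
    choose β hβ using h1
    rw [key I y β hβ]
    unfold bv
    split_ifs
    · exact Or.inr rfl
    · exact Or.inl rfl

end comp

end Pool.Agent.K4H92.ANDF
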