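import Pool.Agent.K4H92.ANDF.Comp

/-!
Compositions with inner functions which are not an exclusive or of one bit of each player.
-/

set_option autoImplicit false
set_option linter.unusedSectionVars false

namespace Pool.Agent.K4H92.ANDF

open Finset Pool.Agent.H630R2.LR

open Pool.Agent.TH744.LR (bv cm comp inner coef coef_rep prodM prodM_rank_le prod_le_rank Good Rows3
  dRow Prot logRk logRk_nonneg exists_good sum_pow_le)

/-- `f(x, y) = a(x) + b(y)` mod 2 -/
def XorType {X Y : Type} (f : X → Y → Bool) : Prop :=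
  ∃ (a : X → Bool) (b : Y → Bool), ∀ x y, f x y = xor (a x) (b y)

/-- a 2 × 2 submatrix with exactly one entry 1 -/
def Sq {X Y : Type} (f : X → Y → Bool) : Prop :=
  ∃ x0 x1 y0 y1, f x0 y0 = false ∧ f x0 y1 = false ∧ f x1 y0 = false ∧ f x1 y1 = true

theorem exists_sq {X Y : Type} (f : X → Y → Bool) (h : ¬ XorType f) :
    ∃ e : Bool, Sq (fun x y => xor e (f x y)) := by
  by_cases hX : Nonempty X
  swap
  · exact absurd ⟨fun _ => false, fun _ => false, fun x => absurd ⟨x⟩ hX⟩ h
  by_cases hY : Nonempty Y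
  swap
  · exact absurd ⟨fun _ => false, fun _ => false, fun _ y => absurd ⟨y⟩ hY⟩ h
  obtain ⟨x0⟩ := hX
  obtain ⟨y0⟩ := hY
  have h1 : ∃ x y, f x y ≠ xor (f x y0) (xor (f x0 y) (f x0 y0)) := by
    by_contra hcon
    push Not at hcon
    exact h ⟨fun x => f x y0, fun y => xor (f x0 y) (f x0 y0), hcon⟩
  obtain ⟨x, y, hxy⟩ := h1
  unfold Sq
  cases e1 : f x0 y0 <;> cases e2 : f x0 y <;> cases e3 : f x y0 <;> cases e4 : f x y <;>
    simp [e1, e2, e3, e4] at hxy
  · exact ⟨false, x0, x, y0, y, by simp [e1], by simp [e2], by simp [e3], by simp [e4]⟩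
  · exact ⟨false, x0, x, y, y0, by simp [e2], by simp [e1], by simp [e4], by simp [e3]⟩
  · exact ⟨false, x, x0, y0, y, by simp [e3], by simp [e4], by simp [e1], by simp [e2]⟩
  · exact ⟨true, x, x0, y, y0, by simp [e4], by simp [e3], by simp [e2], by simp [e1]⟩
  · exact ⟨false, x, x0, y, y0, by simp [e4], by simp [e3], by simp [e2], by simp [e1]⟩
  · exact ⟨true, x, x0, y0, y, by simp [e3], by simp [e4], by simp [e1], by simp [e2]⟩
  · exact ⟨true, x0, x, y, y0, by simp [e2], by simp [e1], by simp [e4], by simp [e3]⟩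
  · exact ⟨true, x0, x, y0, y, by simp [e1], by simp [e2], by simp [e3], by simp [e4]⟩

theorem Sq.exists_false {X Y : Type} {f : X → Y → Bool} (h : Sq f) : ∃ a b, f a b = false := by
  obtain ⟨x0, _, y0, _, h1, _⟩ := h
  exact ⟨x0, y0, h1⟩

theorem and_of_sq {X Y : Type} {f : X → Y → Bool} (h : Sq f)
    (hd : ¬ (Rows3 f ∨ Rows3 (fun y x => f x y))) :
    ∃ (a : X → Bool) (b : Y → Bool), ∀ x y, f x y = (a x && b y) := by
  obtain ⟨x0, x1, y0, y1, h00, h01, h10, h11⟩ := h
  rw [not_or] at hd
  have hx : ∀ x, f x = f x0 ∨ f x = f x1 := by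
    intro x
    by_contra hcon
    rw [not_or] at hcon
    refine hd.1 ⟨x, x0, x1, hcon.1, hcon.2, fun h => ?_⟩
    have := congrFun h y1
    rw [h01, h11] at this
    exact Bool.noConfusion this
  have hy : ∀ y, (fun x => f x y) = (fun x => f x y0) ∨ (fun x => f x y) = (fun x => f x y1) := by
    intro y
    by_contra hcon
    rw [not_or] at hcon
    refine hd.2 ⟨y, y0, y1, hcon.1, hcon.2, fun h => ?_⟩
    have h5 : f x1 y0 = f x1 y1 := congrFun h x1
    rw [h10, h11] at h5
    exact Bool.noConfusion h5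
  refine ⟨fun x => f x y1, fun y => f x1 y, fun x y => ?_⟩
  change f x y = (f x y1 && f x1 y)
  rcases hx x with h | h
  · have e1 : f x y = f x0 y := congrFun h y
    have e2 : f x y1 = f x0 y1 := congrFun h y1
    rw [e2, h01, Bool.false_and, e1]
    rcases hy y with h2 | h2
    · have e3 : f x0 y = f x0 y0 := congrFun h2 x0
      rw [e3, h00]
    · have e3 : f x0 y = f x0 y1 := congrFun h2 x0
      rw [e3, h01]
  · have e1 : f x y = f x1 y := congrFun h y
    have e2 : f x y1 = f x1 y1 := congrFun h y1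
    rw [e2, h11, Bool.true_and, e1]

theorem stable_and {X Y : Type} (f : X → Y → Bool) (a : X → Bool) (b : Y → Bool)
    (h : ∀ x y, f x y = (a x && b y)) : Stable f {0, 1} 1 := by
  classical
  refine ⟨fun _ x => a x, fun _ y => if b y then 1 else 0, fun x y => ?_, fun I _ y => ?_⟩
  · rw [h, sum_filter]
    cases hax : a x <;> cases hby : b y <;> simp [hax, hby]
  · rw [sum_filter]
    simp only [univ_unique, Fin.default_eq_zero, Fin.isValue, sum_const, card_singleton, one_smul]
    split_ifs <;> simp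

theorem one_le_dRow {X Y : Type} [Fintype X] [Fintype Y] (f : X → Y → Bool) (x0 x1 : X)
    (h : f x1 ≠ f x0) : 1 ≤ (dRow f x0).rank := by
  classical
  by_contra hlt
  have h0 : (dRow f x0).rank = 0 := by omega
  have h2 : (dRow f x0).mulVecLin = 0 := by
    rw [Matrix.rank, Module.finrank_eq_zero_iff_of_free] at h0
    have h2 : LinearMap.range (dRow f x0).mulVecLin = ⊥ := by
      rw [← Submodule.subsingleton_iff_eq_bot]
      exact h0
    rwa [LinearMap.range_eq_bot] at h2
  apply h
  funext y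
  have h3 : (dRow f x0).mulVecLin (Pi.single y 1) = 0 := by rw [h2]; rfl
  rw [Matrix.mulVecLin_apply, Matrix.mulVec_single_one] at h3
  have h4 : bv (f x1 y) - bv (f x0 y) = 0 := congrFun h3 x1
  exact Pool.Agent.TH744.LR.bv_inj (sub_eq_zero.mp h4)

section comp

variable {ι : Type} [DecidableEq ι] [Fintype ι] {X Y : ι → Type} [∀ i, Fintype (X i)]
  [∀ i, Fintype (Y i)]

theorem supp_le_rank (f : ∀ i, X i → Y i → Bool) (hsq : ∀ i, Sq (f i)) (g : Finset ι → Bool)
    (c : Finset ι → ℝ) (hc : Pool.Agent.TH744.LR.Rep g c) :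
    (univ.filter fun T => c T ≠ 0).card ≤ (cm (comp g (inner f))).rank := by
  classical
  choose x0 x1 y0 y1 h00 h01 h10 h11 using hsq
  have h1 := card_le_rank (L := Finset ι) g c (fun t => by
    have h2 := hc t
    unfold bv at h2
    rw [h2]
    refine sum_congr ?_ fun _ _ => rfl
    ext T
    simp)
  refine h1.trans ?_
  have e : comm (fun U V : Finset ι => g (U ⊓ V)) = (cm (comp g (inner f))).submatrix
      (fun U i => if i ∈ U then x1 i else x0 i) (fun V i => if i ∈ V then y1 i else y0 i) := by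
    ext U V
    rw [Matrix.submatrix_apply]
    have h3 : comp g (inner f) (fun i => if i ∈ U then x1 i else x0 i)
        (fun i => if i ∈ V then y1 i else y0 i) = g (U ⊓ V) := by
      unfold comp Pool.Agent.TH744.LR.inner
      congr 1
      ext i
      rw [mem_filter]
      simp only [mem_univ, true_and]
      by_cases hU : i ∈ U <;> by_cases hV : i ∈ V <;> simp [hU, hV, h00, h01, h10, h11]
    simp only [cm, Matrix.of_apply, h3]
    rfl
  rw [e]
  exact Matrix.rank_submatrix_le _ _ _

theorem main_sq (f : ∀ i, X i → Y i → Bool) (hsq : ∀ i, Sq (f i)) (g : Finset ι → Bool) (K C : ℕ)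
    (hq : ∀ i, ∃ q : ℕ, Prot (f i) q ∧ (q : ℝ) ≤ K * (logRk (f i) + 1) ^ C) :
    ∃ q : ℕ, Prot (comp g (inner f)) q ∧ (q : ℝ) ≤ 3000 * (logRk (comp g (inner f)) +
      K * 3 ^ C * logRk (comp g (inner f)) ^ (max C 1) + 1) ^ 7 := by
  classical
  choose q hq1 hq2 using hq
  set L := logRk (comp g (inner f)) with hL
  have hL0 : 0 ≤ L := logRk_nonneg _
  have hX : ∀ i, Nonempty (X i) := fun i => by
    obtain ⟨x0, _⟩ := hsq i
    exact ⟨x0⟩
  have hY : ∀ i, Nonempty (Y i) := fun i => by
    obtain ⟨_, _, y0, _⟩ := hsq i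
    exact ⟨y0⟩
  let N : ι → Prop := fun i => Rows3 (f i) ∨ Rows3 (fun y x => f i x y)
  -- ranks
  have hr : ∀ i, ∃ r : ℕ, Good (f i) r ∧ 1 ≤ r ∧ (N i → 2 ≤ r ∧ (cm (f i)).rank ≤ r + 1) := by
    intro i
    by_cases hN : N i
    · obtain ⟨r, h1, h2, h3⟩ := exists_good (f i) hN
      exact ⟨r, h1, by omega, fun _ => ⟨h2, h3⟩⟩
    · obtain ⟨x0, x1, y0, y1, h00, h01, h10, h11⟩ := hsq i
      refine ⟨_, Or.inl ⟨x0, rfl⟩, one_le_dRow (f i) x0 x1 (fun h => ?_), fun h => absurd h hN⟩
      have := congrFun h y1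
      rw [h01, h11] at this
      exact Bool.noConfusion this
  choose r hr1 hr2 hr3 using hr
  set w : ι → ℝ := fun i => Real.logb 2 (r i : ℝ) with hw
  have hw0 : ∀ i, 0 ≤ w i := fun i =>
    Real.logb_nonneg (by norm_num) (by exact_mod_cast hr2 i)
  have hw1 : ∀ i, N i → 1 ≤ w i := fun i hi => by
    rw [hw]
    simp only
    rw [Real.le_logb_iff_rpow_le (by norm_num) (by have := hr2 i; positivity), Real.rpow_one]
    exact_mod_cast (hr3 i hi).1
  set c := coef g with hc
  have hrep : Pool.Agent.TH744.LR.Rep g c := coef_rep g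
  have hbd : ∀ S, c S ≠ 0 → ∑ i ∈ S, w i ≤ L := by
    intro S hS
    have h1 := prod_le_rank f r hr1 S c hS
    have h2 := h1.trans (prodM_rank_le f hrep (fun i => (hsq i).exists_false) S)
    have hpos : ∀ i ∈ S, (r i : ℝ) ≠ 0 := fun i _ => by
      have := hr2 i
      positivity
    rw [hw, ← Real.logb_prod _ _ hpos, hL, logRk]
    refine Real.logb_le_logb_of_le (by norm_num) ?_ (by exact_mod_cast h2)
    exact Finset.prod_pos fun i _ => by
      have := hr2 i
      positivity
  -- numbers of terms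
  set q' : ι → ℕ := fun i => if N i then q i else 0 with hq'
  have hst : ∀ i, Stable (f i) {0, 1} (2 ^ q' i) := by
    intro i
    by_cases hN : N i
    · rw [hq']
      simp only [if_pos hN]
      exact stable_of_proto (f i) (q i) (hq1 i)
    · rw [hq']
      simp only [if_neg hN, pow_zero]
      obtain ⟨a, b, hab⟩ := and_of_sq (hsq i) hN
      exact stable_and (f i) a b hab
  have hq'w : ∀ i, (q' i : ℝ) ≤ K * 3 ^ C * w i ^ (max C 1) := by
    intro i
    by_cases hN : N i
    swap
    · rw [hq']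
      simp only [if_neg hN, Nat.cast_zero]
      exact mul_nonneg (by positivity) (pow_nonneg (hw0 i) _)
    rw [hq']
    simp only [if_pos hN]
    have h1 := hw1 i hN
    rcases Nat.eq_zero_or_pos C with rfl | hC
    · have h2 := hq2 i
      rw [pow_zero, mul_one] at h2
      rw [pow_zero, mul_one]
      simp only [zero_le, sup_of_le_right, pow_one]
      nlinarith [Nat.cast_nonneg (α := ℝ) K]
    · rw [max_eq_left hC]
      refine (hq2 i).trans ?_
      rw [mul_assoc, ← mul_pow]
      refine mul_le_mul_of_nonneg_left ?_ (Nat.cast_nonneg K)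
      refine pow_le_pow_left₀ (by have := logRk_nonneg (f i); linarith) ?_ C
      have h3 : logRk (f i) ≤ 1 + w i := by
        have hr2' : (2 : ℝ) ≤ r i := by exact_mod_cast (hr3 i hN).1
        have h4 : ((cm (f i)).rank : ℝ) ≤ 2 * r i := by
          have : ((cm (f i)).rank : ℝ) ≤ r i + 1 := by exact_mod_cast (hr3 i hN).2
          linarith
        rcases Nat.eq_zero_or_pos (cm (f i)).rank with h0 | h0
        · unfold logRk
          rw [h0]
          simp only [Nat.cast_zero, Real.logb_zero]
          linarith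
        · unfold logRk
          calc Real.logb 2 ((cm (f i)).rank : ℝ) ≤ Real.logb 2 (2 * r i) :=
                Real.logb_le_logb_of_le (by norm_num) (by exact_mod_cast h0) h4
            _ = 1 + w i := by
              rw [Real.logb_mul (by norm_num) (by positivity), Real.logb_self_eq_one (by norm_num)]
      linarith
  have hsum : ∀ S, c S ≠ 0 → ((∑ i ∈ S, q' i : ℕ) : ℝ) ≤ K * 3 ^ C * L ^ (max C 1) := by
    intro S hS
    push_cast
    calc ∑ i ∈ S, (q' i : ℝ) ≤ ∑ i ∈ S, K * 3 ^ C * w i ^ (max C 1) :=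
          sum_le_sum fun i _ => hq'w i
      _ = K * 3 ^ C * ∑ i ∈ S, w i ^ (max C 1) := by rw [mul_sum]
      _ ≤ K * 3 ^ C * (∑ i ∈ S, w i) ^ (max C 1) :=
          mul_le_mul_of_nonneg_left (sum_pow_le S w (fun i _ => hw0 i) (le_max_right _ _))
            (by positivity)
      _ ≤ K * 3 ^ C * L ^ (max C 1) :=
          mul_le_mul_of_nonneg_left (pow_le_pow_left₀ (sum_nonneg fun i _ => hw0 i) (hbd S hS) _)
            (by positivity)
  set supp : Finset (Finset ι) := univ.filter (fun S => c S ≠ 0) with hsupp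
  set Q : ℕ := supp.sup (fun S => ∑ i ∈ S, q' i) with hQ
  have hQL : (Q : ℝ) ≤ K * 3 ^ C * L ^ (max C 1) := by
    rcases supp.eq_empty_or_nonempty with h0 | h0
    · rw [hQ, h0]
      simp only [sup_empty, Nat.bot_eq_zero, Nat.cast_zero]
      positivity
    · obtain ⟨S, hS, hSd⟩ := exists_mem_eq_sup supp h0 (fun S => ∑ i ∈ S, q' i)
      rw [hQ, hSd]
      exact hsum S (mem_filter.mp hS).2
  obtain ⟨s, hs, hS⟩ := stable_comp f g c hrep (fun i => 2 ^ q' i) hst
    (cm (comp g (inner f))).rank (2 ^ Q) (supp_le_rank f hsq g c hrep) (fun T hT => by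
      rw [prod_pow_eq_pow_sum]
      refine Nat.pow_le_pow_right (by norm_num) ?_
      exact le_sup (f := fun S => ∑ i ∈ S, q' i) (mem_filter.mpr ⟨mem_univ _, hT⟩))
  have hS1 : Stable (comp g (inner f)) {v | Rng 1 v} s := by
    obtain ⟨u, h, h1, h2⟩ := hS
    refine ⟨u, h, h1, fun I hI y => ?_⟩
    rcases h2 I hI y with h3 | h3
    · exact ⟨0, by simp, by rw [h3]; simp⟩
    · exact ⟨1, by simp, by rw [h3]; simp⟩
  obtain ⟨q0, hP, hqb⟩ := proto_stable (comp g (inner f)) 1 s le_rfl hS1
  refine ⟨q0, hP, hqb.trans ?_⟩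
  have hls : Real.logb 2 (s : ℝ) ≤ L + Q := by
    rcases Nat.eq_zero_or_pos s with h0 | h0
    · rw [h0]
      simp only [Nat.cast_zero, Real.logb_zero]
      positivity
    · have hrk : 0 < (cm (comp g (inner f))).rank := by
        rcases Nat.eq_zero_or_pos (cm (comp g (inner f))).rank with h1 | h1
        · rw [h1, zero_mul] at hs
          omega
        · exact h1
      have h1 : (s : ℝ) ≤ ((cm (comp g (inner f))).rank : ℝ) * 2 ^ Q := by exact_mod_cast hs
      calc Real.logb 2 (s : ℝ) ≤ Real.logb 2 (((cm (comp g (inner f))).rank : ℝ) * 2 ^ Q) :=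
            Real.logb_le_logb_of_le (by norm_num) (by exact_mod_cast h0) h1
        _ = L + Q := by
          rw [Real.logb_mul (by positivity) (by positivity), Real.logb_pow,
            Real.logb_self_eq_one (by norm_num), mul_one]
          rfl
  have hs0 : 0 ≤ Real.logb 2 (s : ℝ) := logb_nonneg s
  rw [Nat.cast_one, one_pow, mul_one]
  refine mul_le_mul_of_nonneg_left ?_ (by norm_num)
  exact pow_le_pow_left₀ (by linarith) (by linarith) 7

end comp

/-- after `t` functions of cost two have been computed, one of the protocols for the `G v` is run -/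
theorem prot_family {X Y : Type} (b : ℕ) : ∀ (t : ℕ) (φ : Fin t → X → Y → Bool),
    (∀ j, Prot (φ j) 2) → ∀ (G : (Fin t → Bool) → X → Y → Bool), (∀ v, Prot (G v) b) →
      Prot (fun x y => G (fun j => φ j x y) x y) (2 * t + b) := by
  intro t
  induction t with
  | zero =>
    intro φ _ G hG
    have h1 := hG (fun i => i.elim0)
    have e : (fun x y => G (fun j => φ j x y) x y) = G (fun i => i.elim0) := by
      funext x y
      congr 1
      funext i
      exact i.elim0
    rw [e]
    simpa using h1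
  | succ t ih =>
    intro φ hφ G hG
    have h1 := Prot.bind (hφ 0) (F := fun v x y => G (Fin.cons v (fun j => φ j.succ x y)) x y)
      (b := 2 * t + b) (fun v => ih (fun j => φ j.succ) (fun j => hφ j.succ)
        (fun w => G (Fin.cons v w)) (fun w => hG _))
    have e : (fun x y => G (fun j => φ j x y) x y) =
        fun x y => G (Fin.cons (φ 0 x y) (fun j => φ j.succ x y)) x y := by
      funext x y
      congr 1
      funext j
      refine Fin.cases ?_ (fun j => ?_) j
      · rw [Fin.cons_zero]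
      · rw [Fin.cons_succ]
    rw [e]
    have e2 : 2 * (t + 1) + b = 2 + (2 * t + b) := by ring
    rw [e2]
    exact h1

theorem prot_xor {X Y : Type} {f : X → Y → Bool} (h : XorType f) : Prot f 2 := by
  obtain ⟨a, b, hab⟩ := h
  have h1 := Prot.bind (Prot.alice (Y := Y) a) (F := fun v _ y => xor v (b y)) (b := 1)
    (fun v => Prot.bob (fun y => xor v (b y)))
  have e : f = fun x y => xor (a x) (b y) := by
    funext x y
    exact hab x y
  rw [e]
  exact h1

/-- negating some of the inner functions -/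
theorem comp_neg {ι : Type} [DecidableEq ι] [Fintype ι] {X Y : Type} (φ : ι → X → Y → Bool)
    (e : ι → Bool) (g : (ι → Bool) → Bool) :
    (fun x y => g (fun i => φ i x y)) =
      comp (fun U : Finset ι => g (fun i => xor (e i) (decide (i ∈ U))))
        (fun i x y => xor (e i) (φ i x y)) := by
  funext x y
  unfold comp
  congr 1
  funext i
  cases h1 : e i <;> cases h2 : φ i x y <;> simp [h1, h2]

theorem prot_neg {X Y : Type} {f : X → Y → Bool} {q : ℕ} (h : Prot f q) (e : Bool) :
    Prot (fun x y => xor e (f x y)) q := by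
  obtain ⟨ow, a, b, out, h⟩ := h
  exact ⟨ow, a, b, fun t => xor e (out t), fun x y => by simp only [h]⟩

theorem rank_neg_le {X Y : Type} [Fintype X] [Fintype Y] (f : X → Y → Bool) (e : Bool) :
    (cm f).rank ≤ (cm fun x y => xor e (f x y)).rank + 1 := by
  classical
  cases e with
  | false => simp
  | true =>
    have e1 : cm f = (-(cm fun x y => xor true (f x y))) +
        Matrix.vecMulVec (fun _ => (1 : ℝ)) (fun _ => (1 : ℝ)) := by
      ext x y
      simp only [Matrix.add_apply, Matrix.neg_apply, cm, Matrix.of_apply, Matrix.vecMulVec_apply, bv]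
      rcases Bool.eq_false_or_eq_true (f x y) with h1 | h1 <;> simp [h1]
    have e2 : (-(cm fun x y => xor true (f x y))) =
        (-1 : Matrix X X ℝ) * (cm fun x y => xor true (f x y)) := by
      rw [Matrix.neg_mul, Matrix.one_mul]
    calc (cm f).rank = ((-(cm fun x y => xor true (f x y))) +
          Matrix.vecMulVec (fun _ => (1 : ℝ)) (fun _ => (1 : ℝ))).rank := by rw [← e1]
      _ ≤ (-(cm fun x y => xor true (f x y))).rank +
          (Matrix.vecMulVec (fun _ : X => (1 : ℝ)) (fun _ : Y => (1 : ℝ))).rank :=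
          Pool.Agent.TH744.LR.rank_add_le _ _
      _ ≤ _ := by
        rw [e2]
        exact Nat.add_le_add (Matrix.rank_mul_le_right _ _) (Matrix.rank_vecMulVec_le _ _)

theorem logRk_neg_le {X Y : Type} [Fintype X] [Fintype Y] (f : X → Y → Bool) (e : Bool)
    (hsq : Sq fun x y => xor e (f x y)) :
    logRk f + 1 ≤ 2 * (logRk (fun x y => xor e (f x y)) + 1) := by
  have h1 := rank_neg_le f e
  have hpos : 1 ≤ (cm fun x y => xor e (f x y)).rank := by
    obtain ⟨x0, x1, y0, y1, h00, h01, h10, h11⟩ := hsq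
    have hne : ∀ M : Matrix X Y ℝ, M.rank = 0 → ∀ x y, M x y = 0 := by
      classical
      intro M h0 x y
      have h2 : M.mulVecLin = 0 := by
        rw [Matrix.rank, Module.finrank_eq_zero_iff_of_free] at h0
        have h2 : LinearMap.range M.mulVecLin = ⊥ := by
          rw [← Submodule.subsingleton_iff_eq_bot]
          exact h0
        rwa [LinearMap.range_eq_bot] at h2
      have h3 : M.mulVecLin (Pi.single y 1) = 0 := by rw [h2]; rfl
      rw [Matrix.mulVecLin_apply, Matrix.mulVec_single_one] at h3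
      exact congrFun h3 x
    by_contra hlt
    have h2 := hne (cm fun x y => xor e (f x y)) (by omega) x1 y1
    simp only [cm, Matrix.of_apply, h11, bv] at h2
    norm_num at h2
  have hposR : (1 : ℝ) ≤ ((cm fun x y => xor e (f x y)).rank : ℝ) := by exact_mod_cast hpos
  have h2 : ((cm f).rank : ℝ) ≤ 2 * ((cm fun x y => xor e (f x y)).rank : ℝ) := by
    have : ((cm f).rank : ℝ) ≤ ((cm fun x y => xor e (f x y)).rank : ℝ) + 1 := by exact_mod_cast h1
    linarith
  have h3 : 0 ≤ logRk (fun x y => xor e (f x y)) := logRk_nonneg _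
  rcases Nat.eq_zero_or_pos (cm f).rank with h0 | h0
  · have h4 : logRk f = 0 := by
      unfold logRk
      rw [h0]
      simp
    linarith
  · have h4 : logRk f ≤ 1 + logRk (fun x y => xor e (f x y)) := by
      unfold logRk
      calc Real.logb 2 ((cm f).rank : ℝ) ≤
            Real.logb 2 (2 * ((cm fun x y => xor e (f x y)).rank : ℝ)) :=
            Real.logb_le_logb_of_le (by norm_num) (by exact_mod_cast h0) h2
        _ = _ := by
          rw [Real.logb_mul (by norm_num) (by positivity), Real.logb_self_eq_one (by norm_num)]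
    linarith

/-- the bound -/
noncomputable def bound (K C : ℕ) (L : ℝ) : ℝ :=
  3000 * (L + K * 6 ^ C * L ^ (max C 1) + 1) ^ 7

theorem bound_mono (K C : ℕ) {L L' : ℝ} (h0 : 0 ≤ L) (h : L ≤ L') : bound K C L ≤ bound K C L' := by
  unfold bound
  have h1 : L ^ (max C 1) ≤ L' ^ (max C 1) := pow_le_pow_left₀ h0 h _
  have h2 : (K : ℝ) * 6 ^ C * L ^ (max C 1) ≤ K * 6 ^ C * L' ^ (max C 1) :=
    mul_le_mul_of_nonneg_left h1 (by positivity)
  refine mul_le_mul_of_nonneg_left ?_ (by norm_num)
  exact pow_le_pow_left₀ (by positivity) (by linarith) 7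

theorem main_noXor {ι : Type} [DecidableEq ι] [Fintype ι] {X Y : ι → Type} [∀ i, Fintype (X i)]
    [∀ i, Fintype (Y i)] (f : ∀ i, X i → Y i → Bool) (hf : ∀ i, ¬ XorType (f i))
    (g : (ι → Bool) → Bool) (K C : ℕ)
    (hq : ∀ i, ∃ q : ℕ, Prot (f i) q ∧ (q : ℝ) ≤ K * (logRk (f i) + 1) ^ C) :
    ∃ q : ℕ, Prot (fun (x : ∀ i, X i) (y : ∀ i, Y i) => g (fun i => f i (x i) (y i))) q ∧
      (q : ℝ) ≤ bound K C
        (logRk (fun (x : ∀ i, X i) (y : ∀ i, Y i) => g (fun i => f i (x i) (y i)))) := by
  classical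
  choose e he using fun i => exists_sq (f i) (hf i)
  have e1 := comp_neg (fun i (x : ∀ i, X i) (y : ∀ i, Y i) => f i (x i) (y i)) e g
  rw [e1]
  have h1 := main_sq (fun i x y => xor (e i) (f i x y)) he
    (fun U : Finset ι => g (fun i => xor (e i) (decide (i ∈ U)))) (2 ^ C * K) C (fun i => by
      obtain ⟨q, hq1, hq2⟩ := hq i
      refine ⟨q, prot_neg hq1 (e i), hq2.trans ?_⟩
      have h2 := logRk_neg_le (f i) (e i) (he i)
      have h3 : (logRk (f i) + 1) ^ C ≤ (2 * (logRk (fun x y => xor (e i) (f i x y)) + 1)) ^ C :=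
        pow_le_pow_left₀ (by have := logRk_nonneg (f i); linarith) h2 C
      calc (K : ℝ) * (logRk (f i) + 1) ^ C ≤
            K * (2 * (logRk (fun x y => xor (e i) (f i x y)) + 1)) ^ C :=
            mul_le_mul_of_nonneg_left h3 (Nat.cast_nonneg K)
        _ = _ := by
          rw [mul_pow]
          push_cast
          ring)
  obtain ⟨q, hq1, hq2⟩ := h1
  refine ⟨q, hq1, hq2.trans (le_of_eq ?_)⟩
  unfold bound
  have h6 : (6 : ℝ) ^ C = 2 ^ C * 3 ^ C := by rw [← mul_pow]; norm_num
  rw [h6]
  have e2 : (((2 ^ C * K : ℕ) : ℝ)) = 2 ^ C * K := by push_cast; ring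
  rw [e2]
  have e3 : (2 : ℝ) ^ C * K * 3 ^ C = K * (2 ^ C * 3 ^ C) := by ring
  rw [e3]
  rfl

theorem main_all {ι : Type} [DecidableEq ι] [Fintype ι] {X Y : ι → Type} [∀ i, Fintype (X i)]
    [∀ i, Fintype (Y i)] (f : ∀ i, X i → Y i → Bool) (g : (ι → Bool) → Bool) (K C : ℕ)
    (hq : ∀ i, ¬ XorType (f i) →
      ∃ q : ℕ, Prot (f i) q ∧ (q : ℝ) ≤ K * (logRk (f i) + 1) ^ C) :
    ∃ q : ℕ, Prot (fun (x : ∀ i, X i) (y : ∀ i, Y i) => g (fun i => f i (x i) (y i))) q ∧
      (q : ℝ) ≤ 2 * (Nat.card {i // XorType (f i)} : ℝ) + bound K C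
        (logRk (fun (x : ∀ i, X i) (y : ∀ i, Y i) => g (fun i => f i (x i) (y i)))) := by
  classical
  set F : (∀ i, X i) → (∀ i, Y i) → Bool := fun x y => g (fun i => f i (x i) (y i)) with hF
  set L := logRk F with hL
  have hL0 : 0 ≤ L := logRk_nonneg _
  have hb0 : 0 ≤ bound K C L := by
    unfold bound
    positivity
  -- the residual functions
  let Fv : ({i // XorType (f i)} → Bool) → (∀ i : {i // ¬ XorType (f i)}, X i) →
      (∀ i : {i // ¬ XorType (f i)}, Y i) → Bool := fun v x y =>
    g (fun i => if h : XorType (f i) then v ⟨i, h⟩ else f i (x ⟨i, h⟩) (y ⟨i, h⟩))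
  have hFv : ∀ v, (∃ (x : ∀ i, X i) (y : ∀ i, Y i), ∀ j : {i // XorType (f i)},
      f j (x j) (y j) = v j) → Prot (Fv v) ⌊bound K C L⌋₊ := by
    rintro v ⟨x', y', hv⟩
    have h1 := main_noXor (ι := {i // ¬ XorType (f i)}) (fun i => f i.1) (fun i => i.2)
      (fun z => g (fun i => if h : XorType (f i) then v ⟨i, h⟩ else z ⟨i, h⟩)) K C
      (fun i => hq i.1 i.2)
    obtain ⟨q, hq1, hq2⟩ := h1
    have e1 : (fun (x : ∀ i : {i // ¬ XorType (f i)}, X i) (y : ∀ i : {i // ¬ XorType (f i)}, Y i) =>
        (fun z : {i // ¬ XorType (f i)} → Bool =>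
          g (fun i => if h : XorType (f i) then v ⟨i, h⟩ else z ⟨i, h⟩))
          (fun i => f i.1 (x i) (y i))) = Fv v := rfl
    rw [e1] at hq1 hq2
    refine hq1.mono (Nat.le_floor (hq2.trans (bound_mono K C (logRk_nonneg _) ?_)))
    have e2 : cm (Fv v) = (cm F).submatrix
        (fun x i => if h : XorType (f i) then x' i else x ⟨i, h⟩)
        (fun y i => if h : XorType (f i) then y' i else y ⟨i, h⟩) := by
      ext x y
      rw [Matrix.submatrix_apply]
      have h3 : F (fun i => if h : XorType (f i) then x' i else x ⟨i, h⟩)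
          (fun i => if h : XorType (f i) then y' i else y ⟨i, h⟩) = Fv v x y := by
        change g _ = g _
        congr 1
        funext i
        by_cases h : XorType (f i)
        · simp only [h, dite_true]
          exact hv ⟨i, h⟩
        · simp only [h, dite_false]
      simp only [cm, Matrix.of_apply, h3]
    have h4 : (cm (Fv v)).rank ≤ (cm F).rank := by
      rw [e2]
      exact Matrix.rank_submatrix_le _ _ _
    unfold logRk
    rcases Nat.eq_zero_or_pos (cm (Fv v)).rank with h0 | h0
    · rw [h0]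
      simp only [Nat.cast_zero, Real.logb_zero]
      exact logRk_nonneg F
    · exact Real.logb_le_logb_of_le (by norm_num) (by exact_mod_cast h0) (by exact_mod_cast h4)
  -- the protocol
  let ε : Fin (Nat.card {i // XorType (f i)}) ≃ {i // XorType (f i)} := (Finite.equivFin _).symm
  have h2 := prot_family (X := ∀ i, X i) (Y := ∀ i, Y i) ⌊bound K C L⌋₊ _
    (fun j x y => f (ε j) (x (ε j)) (y (ε j)))
    (fun j => (prot_xor (ε j).2).lift (fun x : (∀ i, X i) => x (ε j)) (fun y : (∀ i, Y i) => y (ε j)))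
    (fun w x y => if (∃ (x : ∀ i, X i) (y : ∀ i, Y i), ∀ j : {i // XorType (f i)},
      f j (x j) (y j) = w (ε.symm j)) then Fv (fun j => w (ε.symm j)) (fun i => x i) (fun i => y i)
        else false) (fun w => by
      by_cases hw : ∃ (x : ∀ i, X i) (y : ∀ i, Y i), ∀ j : {i // XorType (f i)},
        f j (x j) (y j) = w (ε.symm j)
      · simp only [if_pos hw]
        exact (hFv _ hw).lift (fun x : (∀ i, X i) => fun i => x i) (fun y : (∀ i, Y i) => fun i => y i)
      · simp only [if_neg hw]
        exact (Prot.const false).mono (Nat.zero_le _))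
  refine ⟨2 * Nat.card {i // XorType (f i)} + ⌊bound K C L⌋₊, ?_, ?_⟩
  · have e3 : F = fun x y => (fun (w : Fin (Nat.card {i // XorType (f i)}) → Bool) x y =>
        if (∃ (x : ∀ i, X i) (y : ∀ i, Y i), ∀ j : {i // XorType (f i)},
          f j (x j) (y j) = w (ε.symm j)) then
          Fv (fun j => w (ε.symm j)) (fun i => x i) (fun i => y i) else false)
        (fun j => f (ε j) (x (ε j)) (y (ε j))) x y := by
      funext x y
      have h5 : ∀ j : {i // XorType (f i)}, f (ε (ε.symm j)) (x (ε (ε.symm j)))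
          (y (ε (ε.symm j))) = f j (x j) (y j) := by
        intro j
        rw [ε.apply_symm_apply]
      simp only
      rw [if_pos ⟨x, y, fun j => (h5 j).symm⟩]
      change g _ = g _
      congr 1
      funext i
      by_cases h : XorType (f i)
      · simp only [h, dite_true]
        exact (h5 ⟨i, h⟩).symm
      · simp only [h, dite_false]
    rw [e3]
    exact h2
  · push_cast
    have := Nat.floor_le hb0
    linarith

end Pool.Agent.K4H92.ANDF
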