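import Pool.Agent.K4H92.ANDF.OneSided
import Pool.Agent.H630R2.LR.Bounds
import Pool.Agent.R533.VC.Graph

/-!
Factorisations which are stable under intersections of rows.
-/

set_option autoImplicit false

namespace Pool.Agent.K4H92.ANDF

open Finset Pool.Agent.H630R2.LR Module

/-- `F(x, y) = ∑_z u_z(x) h_z(y)` with `s` Boolean functions `u_z` and real functions `h_z` such that
for all nonempty sets `I` of rows and all columns `y` the sum of the `h_z(y)` over all `z` with `u_z = 1`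
on `I` lies in `V`. -/
def Stable {X Y : Type*} (F : X → Y → Bool) (V : Set ℝ) (s : ℕ) : Prop :=
  ∃ (u : Fin s → X → Bool) (h : Fin s → Y → ℝ),
    (∀ x y, ∑ z with u z x = true, h z y = if F x y then 1 else 0) ∧
    ∀ I : Finset X, I.Nonempty → ∀ y, ∑ z with ∀ x ∈ I, u z x = true, h z y ∈ V

theorem rank_le_of_fact {X Y : Type*} [Fintype X] [Fintype Y] (F : X → Y → Bool) (s : ℕ)
    (u : Fin s → X → Bool) (h : Fin s → Y → ℝ)
    (hF : ∀ x y, ∑ z with u z x = true, h z y = if F x y then 1 else 0) : (comm F).rank ≤ s := by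
  classical
  have h1 : comm F = (Matrix.of fun (x : X) (z : Fin s) => if u z x = true then (1 : ℝ) else 0) *
      Matrix.of h := by
    ext x y
    rw [Matrix.mul_apply]
    have h2 : comm F x y = if F x y then (1 : ℝ) else 0 := rfl
    rw [h2, ← hF x y, sum_filter]
    refine sum_congr rfl fun z _ => ?_
    simp
  rw [h1]
  refine (Matrix.rank_mul_le_left _ _).trans ?_
  refine (Matrix.rank_le_card_width _).trans ?_
  simp

theorem proto_stable {X Y : Type*} [Fintype X] [Fintype Y] (F : X → Y → Bool) (m s : ℕ)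
    (hm : 1 ≤ m) (hF : Stable F {v | Rng m v} s) :
    ∃ c, Proto F c ∧ (c : ℝ) ≤ 3000 * (m : ℝ) ^ 2 * (Real.logb 2 (s : ℝ) + 1) ^ 7 := by
  classical
  obtain ⟨u, h, hF1, hF2⟩ := hF
  have hlog : (0 : ℝ) ≤ Real.logb 2 (s : ℝ) := logb_nonneg s
  rcases Nat.eq_zero_or_pos s with h0 | hs1
  · subst h0
    refine ⟨0, Proto.const F false ?_, ?_⟩
    · intro x y
      have h1 := hF1 x y
      rw [univ_eq_empty, filter_empty, sum_empty] at h1
      by_contra h3
      rw [Bool.not_eq_false] at h3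
      rw [h3] at h1
      simp at h1
    · rw [Nat.cast_zero]
      have h2 : (0 : ℝ) ≤ Real.logb 2 (0 : ℝ) := by simp
      exact mul_nonneg (by positivity) (pow_nonneg (by linarith) 7)
  have hrank := rank_le_of_fact F s u h hF1
  set S : Fin s → Finset X := fun z => univ.filter fun x => u z x = false with hS
  set W : Finset (Finset X) := (univ.image S).filter fun v => vᶜ.Nonempty with hW
  set h' : Y → Finset X → ℝ := fun y v => ∑ z with S z = v, h z y with hh'
  have hSv : ∀ (z : Fin s) (v : Finset X), S z ⊆ v ↔ ∀ x ∈ vᶜ, u z x = true := by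
    intro z v
    constructor
    · intro h1 x hx
      by_contra h2
      exact (mem_compl.mp hx) (h1 (mem_filter.mpr ⟨mem_univ _, by simpa using h2⟩))
    · intro h1 x hx
      by_contra h2
      have h3 := h1 x (mem_compl.mpr h2)
      rw [hS, mem_filter] at hx
      rw [h3] at hx
      exact Bool.noConfusion hx.2
  have hev : ∀ y v, vᶜ.Nonempty → ev W (h' y) v = ∑ z with ∀ x ∈ vᶜ, u z x = true, h z y := by
    intro y v hv
    unfold ev
    have h1 : ∀ z ∈ (univ : Finset (Fin s)).filter (fun z => ∀ x ∈ vᶜ, u z x = true),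
        S z ∈ W.filter (fun w => w ⊆ v) := by
      intro z hz
      have h2 : S z ⊆ v := (hSv z v).mpr (mem_filter.mp hz).2
      rw [mem_filter, hW, mem_filter]
      exact ⟨⟨mem_image_of_mem _ (mem_univ _), hv.mono (compl_subset_compl.mpr h2)⟩, h2⟩
    rw [← sum_fiberwise_of_maps_to h1]
    refine sum_congr rfl fun w hw => ?_
    rw [hh']
    simp only
    refine sum_congr ?_ fun _ _ => rfl
    ext z
    simp only [mem_filter, mem_univ, true_and]
    constructor
    · intro h3
      exact ⟨(hSv z v).mp (h3.subset.trans (mem_filter.mp hw).2), h3⟩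
    · exact fun h3 => h3.2
  have hR : RepO F (fun x : X => univ.erase x) m W h' (fun v => vᶜ.Nonempty) univ univ := by
    refine ⟨?_, ?_, ?_, ?_⟩
    · intro a b hab hb
      exact hb.mono (compl_subset_compl.mpr hab)
    · intro z hz
      exact (mem_filter.mp hz).2
    · intro y _ v hv
      rw [hev y v hv]
      have h1 : Rng m _ := hF2 vᶜ hv y
      convert h1
    · intro x _
      have h1 : (univ.erase x)ᶜ = ({x} : Finset X) := by
        ext p
        simp
      have h2 : ((univ.erase x)ᶜ : Finset X).Nonempty := by rw [h1]; exact singleton_nonempty x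
      refine ⟨h2, fun y _ => ?_⟩
      rw [hev y _ h2, h1, ← hF1 x y]
      refine sum_congr ?_ fun _ _ => rfl
      ext z
      simp
  have hWs : W.card ≤ s := by
    refine (card_le_card (filter_subset _ _)).trans (card_image_le.trans ?_)
    simp
  set D := Nat.log 2 s + 1 with hD
  have hsD : s < 2 ^ D := Nat.lt_pow_succ_log_self (by norm_num) s
  have hD1 : 1 ≤ D := by omega
  obtain ⟨K, hK⟩ : ∃ K, K = 8 * m * D ^ 2 + 1 := ⟨_, rfl⟩
  have hrich := richO F (fun x : X => univ.erase x) m hm s D K hsD (by omega) hs1 W h' _ hR hWs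
  obtain ⟨N, hN⟩ : ∃ N, N = (D * K + 1) * (8 * K * D) := ⟨_, rfl⟩
  have h1 : 2 * s ^ K ≤ 2 ^ (D * K + 1) := by
    calc 2 * s ^ K ≤ 2 * (2 ^ D) ^ K := Nat.mul_le_mul_left _ (Nat.pow_le_pow_left hsD.le K)
      _ = 2 ^ (D * K + 1) := by rw [← pow_mul, pow_succ]; ring
  have h2 : (2 * s ^ K) ^ (8 * K * D) ≤ 2 ^ N := by
    rw [hN, pow_mul 2 (D * K + 1)]
    exact Nat.pow_le_pow_left h1 _
  have hQ : ((2 * s ^ K) ^ (8 * K * D) * 2) * ((2 * s ^ K) ^ (8 * K * D) * (2 * s)) ≤
      2 ^ (2 * N + 2 + D) := by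
    calc _ ≤ (2 ^ N * 2) * (2 ^ N * (2 * 2 ^ D)) :=
          Nat.mul_le_mul (Nat.mul_le_mul_right _ h2)
            (Nat.mul_le_mul h2 (Nat.mul_le_mul_left _ hsD.le))
      _ = 2 ^ (2 * N + 2 + D) := by
        rw [pow_add, pow_add, two_mul N, pow_add]
        ring
  obtain ⟨q, hq⟩ : ∃ q, q = 2 * N + 2 + D := ⟨_, rfl⟩
  rw [← hq] at hQ
  have hrich2 : Pool.Agent.R533.VC.Rich F (2 ^ q) := by
    intro A B hA hB
    obtain ⟨A', hA', B', hB', v, hv, hc⟩ := hrich A B hA hB
    exact ⟨A', hA', B', hB', v, hv, hc.trans (Nat.mul_le_mul_right _ hQ)⟩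
  have hP := Pool.Agent.R533.VC.nw F (2 ^ q) Nat.one_le_two_pow hrich2 (D + 1 + q) (by
    have h1 : 1 ≤ 2 ^ q := Nat.one_le_two_pow
    calc 2 * (comm F).rank * 2 ^ q + 2 ≤ 2 * s * 2 ^ q + 2 * 2 ^ q := by
          have := Nat.mul_le_mul_right (2 ^ q) (Nat.mul_le_mul_left 2 hrank)
          omega
      _ = 2 * (s + 1) * 2 ^ q := by ring
      _ ≤ 2 * 2 ^ D * 2 ^ q := Nat.mul_le_mul_right _ (Nat.mul_le_mul_left _ hsD)
      _ = 2 ^ (D + 1 + q) := by
        rw [pow_add, pow_succ]
        ring)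
  refine ⟨_, hP, ?_⟩
  have hcl : Nat.clog 2 (comm F).rank ≤ D := by
    rw [Nat.clog_le_iff_le_pow (by norm_num)]
    exact hrank.trans hsD.le
  have hDl : (D : ℝ) ≤ Real.logb 2 (s : ℝ) + 1 := by
    rw [hD]
    push_cast
    have := log_le s
    linarith
  have hK9 : K ≤ 9 * m * D ^ 2 := by
    have : 1 ≤ m * D ^ 2 := Nat.mul_pos (by omega) (by positivity)
    rw [hK]
    nlinarith
  have hN2 : N ≤ 720 * m ^ 2 * D ^ 6 := by
    have e1 : D * K + 1 ≤ 10 * m * D ^ 3 := by
      have h3 : D * K ≤ D * (9 * m * D ^ 2) := Nat.mul_le_mul_left _ hK9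
      have h4 : 1 ≤ m * D ^ 3 := Nat.mul_pos (by omega) (by positivity)
      calc D * K + 1 ≤ D * (9 * m * D ^ 2) + m * D ^ 3 := Nat.add_le_add h3 h4
        _ = 10 * m * D ^ 3 := by ring
    have e2 : 8 * K * D ≤ 72 * m * D ^ 3 := by
      calc 8 * K * D ≤ 8 * (9 * m * D ^ 2) * D :=
            Nat.mul_le_mul_right _ (Nat.mul_le_mul_left _ hK9)
        _ = 72 * m * D ^ 3 := by ring
    calc N = (D * K + 1) * (8 * K * D) := hN
      _ ≤ (10 * m * D ^ 3) * (72 * m * D ^ 3) := Nat.mul_le_mul e1 e2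
      _ = 720 * m ^ 2 * D ^ 6 := by ring
  have hDm : D ≤ m ^ 2 * D ^ 6 := by
    have h3 : 1 ≤ m ^ 2 * D ^ 5 := Nat.mul_pos (by positivity) (by positivity)
    calc D = 1 * D := (one_mul D).symm
      _ ≤ (m ^ 2 * D ^ 5) * D := Nat.mul_le_mul_right _ h3
      _ = m ^ 2 * D ^ 6 := by ring
  have h1m : 1 ≤ m ^ 2 * D ^ 6 := Nat.mul_pos (by positivity) (by positivity)
  have h1m7 : 1 ≤ m ^ 2 * D ^ 7 := Nat.mul_pos (by positivity) (by positivity)
  have h4 : 2 * (D + 1 + q) * Nat.clog 2 (comm F).rank + 2 ≤ 3000 * m ^ 2 * D ^ 7 := by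
    have e1 : D + 1 + q ≤ 1445 * (m ^ 2 * D ^ 6) := by
      have e2 : 720 * m ^ 2 * D ^ 6 = 720 * (m ^ 2 * D ^ 6) := by ring
      rw [e2] at hN2
      omega
    calc 2 * (D + 1 + q) * Nat.clog 2 (comm F).rank + 2
        ≤ 2 * (1445 * (m ^ 2 * D ^ 6)) * D + 2 * (m ^ 2 * D ^ 7) :=
          Nat.add_le_add (Nat.mul_le_mul (Nat.mul_le_mul_left _ e1) hcl) (by omega)
      _ = 2892 * (m ^ 2 * D ^ 7) := by ring
      _ ≤ 3000 * (m ^ 2 * D ^ 7) := Nat.mul_le_mul_right _ (by norm_num)
      _ = 3000 * m ^ 2 * D ^ 7 := by ring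
  have h5 : ((2 * (D + 1 + q) * Nat.clog 2 (comm F).rank + 2 : ℕ) : ℝ) ≤
      3000 * (m : ℝ) ^ 2 * (D : ℝ) ^ 7 := by
    exact_mod_cast h4
  refine h5.trans ?_
  have h6 : (D : ℝ) ^ 7 ≤ (Real.logb 2 (s : ℝ) + 1) ^ 7 :=
    pow_le_pow_left₀ (Nat.cast_nonneg _) hDl 7
  exact mul_le_mul_of_nonneg_left h6 (by positivity)

theorem stable_of_proto {X Y : Type*} (F : X → Y → Bool) (c : ℕ) (hF : Proto F c) :
    Stable F {0, 1} (2 ^ c) := by
  classical
  obtain ⟨owner, a, b, out, hout⟩ := hF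
  have hcard : Fintype.card (List.Vector Bool c) = 2 ^ c := by
    rw [card_vector, Fintype.card_bool]
  let e : Fin (2 ^ c) ≃ List.Vector Bool c := (Fintype.equivFinOfCardEq hcard).symm
  let t : X → Y → List.Vector Bool c := fun x y =>
    ⟨Pool.Agent.R533.VC.tr owner a b x y c, Pool.Agent.R533.VC.tr_length owner a b x y c⟩
  have ht : ∀ x x' y y', t x y = t x' y' → t x y' = t x y := by
    intro x x' y y' h
    apply Subtype.ext
    exact Pool.Agent.R533.VC.tr_rect owner a b x x' y y' c (congrArg Subtype.val h)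
  have hval : ∀ x y, out (t x y).1 = F x y := fun x y => hout x y
  set u : Fin (2 ^ c) → X → Bool := fun z x => decide (∃ y, t x y = e z) with hu
  set h : Fin (2 ^ c) → Y → ℝ := fun z y => if (∃ x, t x y = e z) ∧ out (e z).1 = true then 1 else 0
    with hh
  have key : ∀ (I : Finset X) (x0 : X), x0 ∈ I → ∀ y, ∑ z with ∀ x ∈ I, u z x = true, h z y =
      if (∀ x ∈ I, u (e.symm (t x0 y)) x = true) ∧ F x0 y = true then 1 else 0 := by
    intro I x0 hx0 y
    set z0 := e.symm (t x0 y) with hz0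
    have hez0 : e z0 = t x0 y := e.apply_symm_apply _
    rw [sum_filter, sum_eq_single z0]
    · have h1 : h z0 y = if F x0 y = true then 1 else 0 := by
        rw [hh]
        simp only
        rw [hez0, hval]
        congr 1
        simp only [eq_iff_iff, and_iff_right_iff_imp]
        exact fun _ => ⟨x0, rfl⟩
      rw [h1, ite_and]
    · intro z _ hz
      split_ifs with hI
      · rw [hh]
        simp only
        rw [if_neg]
        rintro ⟨⟨x, hx⟩, _⟩
        have h2 := hI x0 hx0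
        rw [hu] at h2
        simp only [decide_eq_true_eq] at h2
        obtain ⟨y', hy'⟩ := h2
        have h3 := ht x0 x y' y (hy'.trans hx.symm)
        apply hz
        rw [hz0, h3, hy', e.symm_apply_apply]
      · rfl
    · intro hz
      exact absurd (mem_univ _) hz
  refine ⟨u, h, fun x y => ?_, fun I hI y => ?_⟩
  · have h1 := key {x} x (mem_singleton_self x) y
    have h2 : (univ.filter fun z => ∀ x' ∈ ({x} : Finset X), u z x' = true) =
        univ.filter fun z => u z x = true := by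
      ext z
      simp
    rw [h2] at h1
    rw [h1]
    congr 1
    simp only [mem_singleton, forall_eq, eq_iff_iff, and_iff_right_iff_imp]
    intro _
    rw [hu]
    simp only [decide_eq_true_eq]
    exact ⟨y, (e.apply_symm_apply _).symm⟩
  · obtain ⟨x0, hx0⟩ := hI
    rw [key I x0 hx0 y]
    split_ifs
    · exact Or.inr rfl
    · exact Or.inl rfl

end Pool.Agent.K4H92.ANDF
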