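import Pool.Agent.K4H92.ANDF.Struct
import Pool.Agent.R533.VC.NW

/-!
Functions of an intersection contain large monochromatic rectangles.
-/

set_option autoImplicit false

namespace Pool.Agent.K4H92.ANDF

open Finset

variable {P : Type*} [DecidableEq P]

open Classical in
theorem clean {X ι : Type*} (A : Finset X) (U : Finset ι) (R : X → ι → Prop) :
    ∃ A' ⊆ A, A.card ≤ 2 * A'.card ∧ ∀ u ∈ U, (∀ x ∈ A', ¬ R x u) ∨
      A.card ≤ 2 * U.card * (A'.filter fun x => R x u).card := by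
  classical
  rcases Nat.eq_zero_or_pos U.card with hM | hM
  · refine ⟨A, subset_rfl, by omega, fun u hu => ?_⟩
    rw [card_eq_zero] at hM
    rw [hM] at hu
    exact absurd hu (notMem_empty _)
  set rem : Finset ι → Finset X := fun V => A.filter fun x => ∀ u ∈ V, ¬ R x u with hrem
  set S : Finset (Finset ι) := U.powerset.filter fun V =>
    2 * U.card * A.card ≤ 2 * U.card * (rem V).card + V.card * A.card with hS
  have hS0 : S.Nonempty := by
    refine ⟨∅, mem_filter.mpr ⟨empty_mem_powerset _, ?_⟩⟩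
    simp [hrem]
  obtain ⟨V, hV, hmax⟩ := exists_max_image S card hS0
  rw [hS, mem_filter, mem_powerset] at hV
  obtain ⟨hVU, hV2⟩ := hV
  have hVc : V.card ≤ U.card := card_le_card hVU
  refine ⟨rem V, filter_subset _ _, ?_, fun u hu => ?_⟩
  · have h1 : V.card * A.card ≤ U.card * A.card := Nat.mul_le_mul_right _ hVc
    have h2 : U.card * A.card ≤ U.card * (2 * (rem V).card) := by nlinarith
    exact Nat.le_of_mul_le_mul_left h2 hM
  · by_cases huV : u ∈ V
    · left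
      intro x hx
      exact (mem_filter.mp hx).2 u huV
    · right
      have h1 : insert u V ∉ S := by
        intro h
        have := hmax _ h
        rw [card_insert_of_notMem huV] at this
        omega
      rw [hS, mem_filter, mem_powerset, not_and] at h1
      have h2 := h1 (insert_subset hu hVU)
      rw [card_insert_of_notMem huV, not_le] at h2
      have h3 : (rem (insert u V)).card + ((rem V).filter fun x => R x u).card = (rem V).card := by
        have h4 : rem (insert u V) = (rem V).filter fun x => ¬ R x u := by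
          ext x
          simp only [hrem, mem_filter, mem_insert, forall_eq_or_imp]
          tauto
        rw [h4, add_comm]
        exact card_filter_add_card_filter_not (s := rem V) (fun x => R x u)
      have h5 : 2 * U.card * (rem V).card = 2 * U.card * (rem (insert u V)).card +
          2 * U.card * ((rem V).filter fun x => R x u).card := by
        rw [← h3]
        ring
      have h6 : (V.card + 1) * A.card = V.card * A.card + A.card := by ring
      omega

/-- `F x y = h(φ x ∩ ψ y)` on the rectangle `A × B`, where `h` is the polynomial with monomials `Z`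
and coefficients `a`, Boolean on the down-set `Q`. -/
structure Rep {X Y : Type*} (F : X → Y → Bool) (φ : X → Finset P) (ψ : Y → Finset P)
    (Z : Finset (Finset P)) (a : Finset P → ℝ) (Q : Finset P → Prop) (A : Finset X)
    (B : Finset Y) : Prop where
  down : ∀ u v : Finset P, u ⊆ v → Q v → Q u
  nz : ∀ z ∈ Z, a z ≠ 0
  sub : ∀ z ∈ Z, Q z
  bool : ∀ v, Q v → ev Z a v = 0 ∨ ev Z a v = 1
  rep : ∀ x ∈ A, ∀ y ∈ B, Q (φ x ∩ ψ y) ∧ ev Z a (φ x ∩ ψ y) = if F x y then 1 else 0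

theorem Un_mono {Z Z' : Finset (Finset P)} (h : Z ⊆ Z') (K : ℕ) : Un Z K ⊆ Un Z' K := by
  intro T hT
  rw [mem_Un] at hT ⊢
  obtain ⟨w, h1, h2⟩ := hT
  exact ⟨w, fun i => h (h1 i), h2⟩

theorem step {X Y : Type*} (F : X → Y → Bool) (φ : X → Finset P) (ψ : Y → Finset P)
    (s D K : ℕ) (hs : s < 2 ^ D) (hK : 2 * D ^ 2 < K)
    (Z : Finset (Finset P)) (a : Finset P → ℝ) (Q : Finset P → Prop) (A : Finset X)
    (B : Finset Y) (hR : Rep F φ ψ Z a Q A B) (hZs : Z.card ≤ s) (hZ2 : 2 ≤ Z.card) :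
    ∃ (Z' : Finset (Finset P)) (a' : Finset P → ℝ) (Q' : Finset P → Prop),
      ∃ A' ⊆ A, ∃ B' ⊆ B, Rep F φ ψ Z' a' Q' A' B' ∧
        8 * K * Z'.card ≤ (8 * K - 1) * Z.card ∧ A.card ≤ 2 * s ^ K * A'.card ∧
        B.card ≤ 2 * s ^ K * B'.card := by
  classical
  have hK1 : 1 ≤ K := by omega
  have hs2 : 2 ≤ s := hZ2.trans hZs
  have hM : (Un Z K).card ≤ s ^ K := (card_Un Z K).trans (Nat.pow_le_pow_left hZs K)
  obtain ⟨A1, hA1, hA1c, hA1u⟩ := clean A (Un Z K) (fun x U => U ⊆ φ x)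
  obtain ⟨B1, hB1, hB1c, hB1u⟩ := clean B (Un Z K) (fun y U => U ⊆ ψ y)
  set Q1 : Finset P → Prop := fun v => Q v ∧ ∀ U ∈ Un Z K, U ⊆ v →
    (∃ x ∈ A1, U ⊆ φ x) ∧ (∃ y ∈ B1, U ⊆ ψ y) with hQ1
  have hdown1 : ∀ u v : Finset P, u ⊆ v → Q1 v → Q1 u := fun u v huv hv =>
    ⟨hR.down u v huv hv.1, fun U hU hUu => hv.2 U hU (hUu.trans huv)⟩
  set Z1 := Z.filter Q1 with hZ1
  have hev1 : ∀ v, Q1 v → ev Z1 a v = ev Z a v := by
    intro v hv
    unfold ev
    refine sum_congr ?_ fun _ _ => rfl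
    ext z
    simp only [hZ1, mem_filter]
    constructor
    · rintro ⟨⟨h1, _⟩, h2⟩
      exact ⟨h1, h2⟩
    · rintro ⟨h1, h2⟩
      exact ⟨⟨h1, hdown1 z v h2 hv⟩, h2⟩
  have hR1 : Rep F φ ψ Z1 a Q1 A1 B1 := by
    refine ⟨hdown1, fun z hz => hR.nz z (mem_filter.mp hz).1, fun z hz => (mem_filter.mp hz).2,
      fun v hv => ?_, fun x hx y hy => ?_⟩
    · rw [hev1 v hv]
      exact hR.bool v hv.1
    · have h1 := hR.rep x (hA1 hx) y (hB1 hy)
      have h2 : Q1 (φ x ∩ ψ y) := ⟨h1.1, fun U _ hU =>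
        ⟨⟨x, hx, hU.trans inter_subset_left⟩, ⟨y, hy, hU.trans inter_subset_right⟩⟩⟩
      exact ⟨h2, by rw [hev1 _ h2]; exact h1.2⟩
  have hpow : 1 ≤ s ^ K := Nat.one_le_pow _ _ (by omega)
  by_cases hZ1c : Z1.card ≤ 1
  · refine ⟨Z1, a, Q1, A1, hA1, B1, hB1, hR1, ?_, ?_, ?_⟩
    · calc 8 * K * Z1.card ≤ 8 * K * 1 := Nat.mul_le_mul_left _ hZ1c
        _ ≤ (8 * K - 1) * 2 := by omega
        _ ≤ (8 * K - 1) * Z.card := Nat.mul_le_mul_left _ hZ2
    · refine hA1c.trans (Nat.mul_le_mul_right _ ?_)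
      omega
    · refine hB1c.trans (Nat.mul_le_mul_right _ ?_)
      omega
  push Not at hZ1c
  have hZ1Z : Z1 ⊆ Z := filter_subset _ _
  have hZ1D : Z1.card < 2 ^ D := lt_of_le_of_lt ((card_le_card hZ1Z).trans hZs) hs
  obtain ⟨T, hTU, hQT, hT⟩ := structure_thm Z1 a Q1 hR1.down hR1.nz hR1.sub hR1.bool D K hZ1D hK hZ1c
  have hTUZ : T ∈ Un Z K := Un_mono hZ1Z K hTU
  obtain ⟨⟨x0, hx0, hx0T⟩, ⟨y0, hy0, hy0T⟩⟩ := hQT.2 T hTUZ subset_rfl
  set a2 : Finset P → ℝ := fun u => ∑ w ∈ Z1 with w ∪ T = u, a w with ha2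
  set Z2 : Finset (Finset P) := (cls Z1 Q1 T).filter fun u => a2 u ≠ 0 with hZ2'
  have hclsQ : ∀ u ∈ cls Z1 Q1 T, Q1 u ∧ T ⊆ u := by
    intro u hu
    rw [mem_cls] at hu
    obtain ⟨⟨w, _, rfl⟩, h2⟩ := hu
    exact ⟨h2, subset_union_right⟩
  have hev2 : ∀ v, Q1 v → ev Z2 a2 v = if T ⊆ v then ev Z1 a v else 0 := by
    intro v hv
    have h1 : ev Z2 a2 v = ∑ u ∈ (cls Z1 Q1 T).filter (fun u => u ⊆ v), a2 u := by
      unfold ev
      rw [hZ2', filter_filter]
      refine sum_subset_zero_on_sdiff ?_ ?_ fun _ _ => rfl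
      · intro u hu
        rw [mem_filter] at hu ⊢
        exact ⟨hu.1, hu.2.2⟩
      · intro u hu
        rw [mem_sdiff, mem_filter, mem_filter] at hu
        by_contra hne
        exact hu.2 ⟨hu.1.1, hne, hu.1.2⟩
    rw [h1]
    split_ifs with hTv
    · unfold ev
      have h2 : ∀ w ∈ Z1.filter (fun w => w ⊆ v), w ∪ T ∈ (cls Z1 Q1 T).filter (fun u => u ⊆ v) := by
        intro w hw
        rw [mem_filter] at hw ⊢
        have h3 : w ∪ T ⊆ v := union_subset hw.2 hTv
        exact ⟨mem_cls.mpr ⟨⟨w, hw.1, rfl⟩, hdown1 _ _ h3 hv⟩, h3⟩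
      rw [← sum_fiberwise_of_maps_to h2]
      refine sum_congr rfl fun u hu => ?_
      rw [ha2]
      simp only
      refine sum_congr ?_ fun _ _ => rfl
      ext w
      simp only [mem_filter]
      constructor
      · rintro ⟨h3, h4⟩
        refine ⟨⟨h3, ?_⟩, h4⟩
        have h5 : w ⊆ w ∪ T := subset_union_left
        rw [h4] at h5
        exact h5.trans (mem_filter.mp hu).2
      · rintro ⟨⟨h3, _⟩, h5⟩
        exact ⟨h3, h5⟩
    · refine sum_eq_zero fun u hu => ?_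
      rw [mem_filter] at hu
      exact absurd ((hclsQ u hu.1).2.trans hu.2) hTv
  have hR2 : Rep F φ ψ Z2 a2 Q1 (A1.filter fun x => T ⊆ φ x) (B1.filter fun y => T ⊆ ψ y) := by
    refine ⟨hdown1, fun z hz => (mem_filter.mp hz).2, fun z hz => (hclsQ z (mem_filter.mp hz).1).1,
      fun v hv => ?_, fun x hx y hy => ?_⟩
    · rw [hev2 v hv]
      split_ifs
      · exact hR1.bool v hv
      · exact Or.inl rfl
    · rw [mem_filter] at hx hy
      have h1 := hR1.rep x hx.1 y hy.1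
      refine ⟨h1.1, ?_⟩
      rw [hev2 _ h1.1, if_pos (subset_inter hx.2 hy.2)]
      exact h1.2
  refine ⟨Z2, a2, Q1, _, (filter_subset _ _).trans hA1, _, (filter_subset _ _).trans hB1, hR2,
    ?_, ?_, ?_⟩
  · have h1 : Z2.card ≤ (cls Z1 Q1 T).card := card_le_card (filter_subset _ _)
    have h2 : Z1.card ≤ Z.card := card_le_card hZ1Z
    have h3 : (cls Z1 Q1 T).card ≤ Z1.card := card_cls _ _ _
    have h4 : 8 * K * (Z1.card - (cls Z1 Q1 T).card) = 8 * K * Z1.card - 8 * K * (cls Z1 Q1 T).card :=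
      Nat.mul_sub _ _ _
    have h5 : (8 * K - 1) * Z1.card = 8 * K * Z1.card - Z1.card := by
      rw [Nat.sub_mul, one_mul]
    have h6 : (8 * K - 1) * Z1.card ≤ (8 * K - 1) * Z.card := Nat.mul_le_mul_left _ h2
    have h7 : 8 * K * Z2.card ≤ 8 * K * (cls Z1 Q1 T).card := Nat.mul_le_mul_left _ h1
    have h8 : 8 * K * (cls Z1 Q1 T).card ≤ 8 * K * Z1.card := Nat.mul_le_mul_left _ h3
    omega
  · rcases hA1u T hTUZ with h | h
    · exact absurd hx0T (h x0 hx0)
    · refine h.trans (Nat.mul_le_mul (Nat.mul_le_mul_left _ hM) (le_of_eq ?_))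
      congr 1
      ext z
      simp only [mem_filter]
  · rcases hB1u T hTUZ with h | h
    · exact absurd hy0T (h y0 hy0)
    · refine h.trans (Nat.mul_le_mul (Nat.mul_le_mul_left _ hM) (le_of_eq ?_))
      congr 1
      ext z
      simp only [mem_filter]

theorem Rep.restrict {X Y : Type*} {F : X → Y → Bool} {φ : X → Finset P} {ψ : Y → Finset P}
    {Z : Finset (Finset P)} {a : Finset P → ℝ} {Q : Finset P → Prop} {A A' : Finset X}
    {B B' : Finset Y} (h : Rep F φ ψ Z a Q A B) (hA : A' ⊆ A) (hB : B' ⊆ B) :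
    Rep F φ ψ Z a Q A' B' :=
  ⟨h.down, h.nz, h.sub, h.bool, fun x hx y hy => h.rep x (hA hx) y (hB hy)⟩

theorem iter {X Y : Type*} (F : X → Y → Bool) (φ : X → Finset P) (ψ : Y → Finset P)
    (s D K : ℕ) (hs : s < 2 ^ D) (hK : 2 * D ^ 2 < K) (hs1 : 1 ≤ s)
    (Z : Finset (Finset P)) (a : Finset P → ℝ) (Q : Finset P → Prop) (A : Finset X)
    (B : Finset Y) (hR : Rep F φ ψ Z a Q A B) (hZs : Z.card ≤ s) : ∀ n : ℕ,
    ∃ (Z' : Finset (Finset P)) (a' : Finset P → ℝ) (Q' : Finset P → Prop),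
      ∃ A' ⊆ A, ∃ B' ⊆ B, Rep F φ ψ Z' a' Q' A' B' ∧ Z'.card ≤ s ∧
        (Z'.card ≤ 1 ∨ (8 * K) ^ n * Z'.card ≤ (8 * K - 1) ^ n * Z.card) ∧
        A.card ≤ (2 * s ^ K) ^ n * A'.card ∧ B.card ≤ (2 * s ^ K) ^ n * B'.card := by
  intro n
  induction n with
  | zero =>
    exact ⟨Z, a, Q, A, subset_rfl, B, subset_rfl, hR, hZs, Or.inr (by simp), by simp, by simp⟩
  | succ n ih =>
    obtain ⟨Z', a', Q', A', hA', B', hB', hR', hZ's, hZ', hAc, hBc⟩ := ih
    have hp : 1 ≤ 2 * s ^ K := by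
      have : 1 ≤ s ^ K := Nat.one_le_pow _ _ (by omega)
      omega
    by_cases hZ'c : Z'.card ≤ 1
    · refine ⟨Z', a', Q', A', hA', B', hB', hR', hZ's, Or.inl hZ'c, ?_, ?_⟩
      · refine hAc.trans (Nat.mul_le_mul_right _ ?_)
        exact Nat.pow_le_pow_right hp (Nat.le_succ n)
      · refine hBc.trans (Nat.mul_le_mul_right _ ?_)
        exact Nat.pow_le_pow_right hp (Nat.le_succ n)
    · push Not at hZ'c
      obtain ⟨Z2, a2, Q2, A2, hA2, B2, hB2, hR2, h1, h2, h3⟩ := step F φ ψ s D K hs hK Z' a' Q' A' B'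
        hR' hZ's hZ'c
      refine ⟨Z2, a2, Q2, A2, hA2.trans hA', B2, hB2.trans hB', hR2, ?_, Or.inr ?_, ?_, ?_⟩
      · have hK1 : 1 ≤ K := by omega
        have h4 : (8 * K - 1) * Z'.card ≤ 8 * K * Z'.card := Nat.mul_le_mul_right _ (by omega)
        have h5 : Z2.card ≤ Z'.card := Nat.le_of_mul_le_mul_left (h1.trans h4) (by omega)
        exact h5.trans hZ's
      · rcases hZ' with h | h
        · omega
        · calc (8 * K) ^ (n + 1) * Z2.card = (8 * K) ^ n * (8 * K * Z2.card) := by ring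
            _ ≤ (8 * K) ^ n * ((8 * K - 1) * Z'.card) := Nat.mul_le_mul_left _ h1
            _ = (8 * K - 1) * ((8 * K) ^ n * Z'.card) := by ring
            _ ≤ (8 * K - 1) * ((8 * K - 1) ^ n * Z.card) := Nat.mul_le_mul_left _ h
            _ = (8 * K - 1) ^ (n + 1) * Z.card := by ring
      · calc A.card ≤ (2 * s ^ K) ^ n * A'.card := hAc
          _ ≤ (2 * s ^ K) ^ n * (2 * s ^ K * A2.card) := Nat.mul_le_mul_left _ h2
          _ = (2 * s ^ K) ^ (n + 1) * A2.card := by ring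
      · calc B.card ≤ (2 * s ^ K) ^ n * B'.card := hBc
          _ ≤ (2 * s ^ K) ^ n * (2 * s ^ K * B2.card) := Nat.mul_le_mul_left _ h3
          _ = (2 * s ^ K) ^ (n + 1) * B2.card := by ring

theorem last {X Y : Type*} (F : X → Y → Bool) (φ : X → Finset P) (ψ : Y → Finset P)
    (Z : Finset (Finset P)) (a : Finset P → ℝ) (Q : Finset P → Prop) (A : Finset X)
    (B : Finset Y) (hR : Rep F φ ψ Z a Q A B) (hZ : Z.card ≤ 1) :
    ∃ A' ⊆ A, ∃ B' ⊆ B, ∃ v : Bool, (∀ x ∈ A', ∀ y ∈ B', F x y = v) ∧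
      A.card ≤ 2 * A'.card ∧ B.card ≤ 2 * B'.card := by
  classical
  rcases card_le_one_iff_subset_singleton.mp hZ with ⟨z, hz⟩
  rcases subset_singleton_iff.mp hz with h0 | h1
  · refine ⟨A, subset_rfl, B, subset_rfl, false, fun x hx y hy => ?_, by omega, by omega⟩
    have h2 := (hR.rep x hx y hy).2
    rw [h0] at h2
    unfold ev at h2
    by_contra h3
    rw [Bool.not_eq_false] at h3
    rw [h3] at h2
    simp at h2
  · have hzZ : z ∈ Z := by rw [h1]; exact mem_singleton_self z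
    have hval : ∀ x ∈ A, ∀ y ∈ B, F x y = true ↔ (z ⊆ φ x ∧ z ⊆ ψ y) := by
      intro x hx y hy
      have h2 := (hR.rep x hx y hy).2
      have h3 : ev Z a (φ x ∩ ψ y) = if z ⊆ φ x ∩ ψ y then a z else 0 := by
        unfold ev
        rw [h1, sum_filter, sum_singleton]
      rw [h3] at h2
      rw [← subset_inter_iff]
      have h4 := hR.nz z hzZ
      constructor
      · intro h5
        rw [h5] at h2
        by_contra h6
        rw [if_neg h6] at h2
        simp at h2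
      · intro h5
        rw [if_pos h5] at h2
        by_contra h6
        rw [if_neg h6] at h2
        exact h4 h2
    set A1 := A.filter fun x => z ⊆ φ x with hA1
    set B1 := B.filter fun y => z ⊆ ψ y with hB1
    have hAc : A1.card + (A.filter fun x => ¬ z ⊆ φ x).card = A.card :=
      card_filter_add_card_filter_not (s := A) (fun x => z ⊆ φ x)
    have hBc : B1.card + (B.filter fun y => ¬ z ⊆ ψ y).card = B.card :=
      card_filter_add_card_filter_not (s := B) (fun y => z ⊆ ψ y)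
    by_cases hA : A.card ≤ 2 * A1.card
    · by_cases hB : B.card ≤ 2 * B1.card
      · refine ⟨A1, filter_subset _ _, B1, filter_subset _ _, true, fun x hx y hy => ?_, hA, hB⟩
        rw [hA1, mem_filter] at hx
        rw [hB1, mem_filter] at hy
        exact (hval x hx.1 y hy.1).mpr ⟨hx.2, hy.2⟩
      · refine ⟨A, subset_rfl, B.filter fun y => ¬ z ⊆ ψ y, filter_subset _ _, false,
          fun x hx y hy => ?_, by omega, by omega⟩
        rw [mem_filter] at hy
        rw [← Bool.not_eq_true, hval x hx y hy.1]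
        exact fun h => hy.2 h.2
    · refine ⟨A.filter fun x => ¬ z ⊆ φ x, filter_subset _ _, B, subset_rfl, false,
          fun x hx y hy => ?_, by omega, by omega⟩
      rw [mem_filter] at hx
      rw [← Bool.not_eq_true, hval x hx.1 y hy]
      exact fun h => hx.2 h.1

theorem pow_small (K D : ℕ) (hK : 1 ≤ K) : (8 * K - 1) ^ (8 * K * D) * 2 ^ D ≤ (8 * K) ^ (8 * K * D) := by
  have h1 := Pool.Agent.R533.VC.half_pow (8 * K) (by omega)
  have hK0 : (0 : ℝ) < 8 * K := by positivity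
  have h2 : (1 - 1 / ((8 * K : ℕ) : ℝ)) = ((8 * K - 1 : ℕ) : ℝ) / ((8 * K : ℕ) : ℝ) := by
    rw [Nat.cast_sub (by omega)]
    push_cast
    field_simp
  rw [h2, div_pow, div_le_div_iff₀ (by positivity) (by norm_num)] at h1
  have h3 : (8 * K - 1) ^ (8 * K) * 2 ≤ (8 * K) ^ (8 * K) := by
    have h4 : (((8 * K - 1 : ℕ) : ℝ)) ^ (8 * K) * 2 ≤ 1 * ((8 * K : ℕ) : ℝ) ^ (8 * K) := h1
    rw [one_mul] at h4
    exact_mod_cast h4
  calc (8 * K - 1) ^ (8 * K * D) * 2 ^ D = ((8 * K - 1) ^ (8 * K) * 2) ^ D := by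
        rw [mul_pow, ← pow_mul]
    _ ≤ ((8 * K) ^ (8 * K)) ^ D := Nat.pow_le_pow_left h3 D
    _ = (8 * K) ^ (8 * K * D) := by rw [← pow_mul]

theorem rich {X Y : Type*} [Fintype X] [Fintype Y] (F : X → Y → Bool) (φ : X → Finset P)
    (ψ : Y → Finset P) (s D K : ℕ) (hs : s < 2 ^ D) (hK : 2 * D ^ 2 < K) (hs1 : 1 ≤ s)
    (Z : Finset (Finset P)) (a : Finset P → ℝ) (Q : Finset P → Prop)
    (hR : Rep F φ ψ Z a Q univ univ) (hZs : Z.card ≤ s) :
    Pool.Agent.R533.VC.Rich F (((2 * s ^ K) ^ (8 * K * D) * 2) * ((2 * s ^ K) ^ (8 * K * D) * 2)) := by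
  intro A B _ _
  obtain ⟨Z', a', Q', A', hA', B', hB', hR', hZ's, hZ', hAc, hBc⟩ := iter F φ ψ s D K hs hK hs1 Z a Q
    A B (hR.restrict (subset_univ _) (subset_univ _)) hZs (8 * K * D)
  have hZ1 : Z'.card ≤ 1 := by
    rcases hZ' with h | h
    · exact h
    · have hK1 : 1 ≤ K := by omega
      have h1 := pow_small K D hK1
      have h2 : (8 * K - 1) ^ (8 * K * D) * Z.card < (8 * K) ^ (8 * K * D) := by
        refine lt_of_lt_of_le ?_ h1
        exact Nat.mul_lt_mul_of_pos_left (lt_of_le_of_lt hZs hs) (pow_pos (by omega) _)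
      by_contra h3
      push Not at h3
      have h4 : (8 * K) ^ (8 * K * D) ≤ (8 * K) ^ (8 * K * D) * Z'.card :=
        Nat.le_mul_of_pos_right _ (by omega)
      omega
  obtain ⟨A'', hA'', B'', hB'', v, hv, h1, h2⟩ := last F φ ψ Z' a' Q' A' B' hR' hZ1
  refine ⟨A'', hA''.trans hA', B'', hB''.trans hB', v, hv, ?_⟩
  have h3 : A.card ≤ (2 * s ^ K) ^ (8 * K * D) * 2 * A''.card := by
    refine hAc.trans ?_
    rw [mul_assoc _ 2]
    exact Nat.mul_le_mul_left _ h1
  have h4 : B.card ≤ (2 * s ^ K) ^ (8 * K * D) * 2 * B''.card := by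
    refine hBc.trans ?_
    rw [mul_assoc _ 2]
    exact Nat.mul_le_mul_left _ h2
  calc A.card * B.card ≤ ((2 * s ^ K) ^ (8 * K * D) * 2 * A''.card) *
        ((2 * s ^ K) ^ (8 * K * D) * 2 * B''.card) := Nat.mul_le_mul h3 h4
    _ = _ := by ring

end Pool.Agent.K4H92.ANDF
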