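import Pool.Agent.K4H92.ANDF.ZBlocks
import Pool.Agent.K4H92.ANDF.Step

/-!
Matrices whose columns are polynomials of the rows with few common monomials.
-/

set_option autoImplicit false

namespace Pool.Agent.K4H92.ANDF

open Finset

variable {P : Type*} [DecidableEq P]

/-- `F x y = h_y(φ x)` on the rectangle `A × B`, where `h_y` is the polynomial with monomials `Z` and
coefficients `h y`; its values on the down-set `Q` are integers of absolute value at most `m`. -/
structure RepO {X Y : Type*} (F : X → Y → Bool) (φ : X → Finset P) (m : ℕ)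
    (Z : Finset (Finset P)) (h : Y → Finset P → ℝ) (Q : Finset P → Prop) (A : Finset X)
    (B : Finset Y) : Prop where
  down : ∀ u v : Finset P, u ⊆ v → Q v → Q u
  sub : ∀ z ∈ Z, Q z
  rng : ∀ y ∈ B, ∀ v, Q v → Rng m (ev Z (h y) v)
  rep : ∀ x ∈ A, Q (φ x) ∧ ∀ y ∈ B, ev Z (h y) (φ x) = if F x y then 1 else 0

/-- the support of a column -/
noncomputable def sp (Z : Finset (Finset P)) (g : Finset P → ℝ) : Finset (Finset P) :=
  Z.filter fun z => g z ≠ 0

theorem ev_sp (Z : Finset (Finset P)) (g : Finset P → ℝ) (v : Finset P) :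
    ev (sp Z g) g v = ev Z g v := by
  unfold ev sp
  rw [filter_filter]
  refine sum_subset_zero_on_sdiff ?_ ?_ fun _ _ => rfl
  · intro z hz
    rw [mem_filter] at hz ⊢
    exact ⟨hz.1, hz.2.2⟩
  · intro z hz
    rw [mem_sdiff, mem_filter, mem_filter] at hz
    by_contra hne
    exact hz.2 ⟨hz.1.1, hne, hz.1.2⟩

theorem pigeon {Y ι : Type*} [DecidableEq ι] (B : Finset Y) (τ : Y → ι) (S : Finset ι)
    (hS : ∀ y ∈ B, τ y ∈ S) (hB : B.Nonempty) :
    ∃ i ∈ S, B.card ≤ S.card * (B.filter fun y => τ y = i).card := by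
  have hSn : S.Nonempty := by
    obtain ⟨y, hy⟩ := hB
    exact ⟨τ y, hS y hy⟩
  obtain ⟨i, hi, hmax⟩ := exists_max_image S (fun i => (B.filter fun y => τ y = i).card) hSn
  refine ⟨i, hi, ?_⟩
  rw [card_eq_sum_card_fiberwise (f := τ) (t := S) (fun y hy => mem_coe.mpr (hS y (mem_coe.mp hy)))]
  refine (sum_le_card_nsmul _ _ _ hmax).trans ?_
  rw [smul_eq_mul]

theorem stepO {X Y : Type*} (F : X → Y → Bool) (φ : X → Finset P) (m : ℕ) (hm : 1 ≤ m)
    (s D K : ℕ) (hs : s < 2 ^ D) (hK : 8 * m * D ^ 2 < K) (hs1 : 1 ≤ s)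
    (Z : Finset (Finset P)) (h : Y → Finset P → ℝ) (Q : Finset P → Prop) (A : Finset X)
    (B : Finset Y) (hR : RepO F φ m Z h Q A B) (hZs : Z.card ≤ s) (hB : B.Nonempty) :
    ∃ (Z' : Finset (Finset P)) (h' : Y → Finset P → ℝ) (Q' : Finset P → Prop),
      ∃ A' ⊆ A, ∃ B' ⊆ B, RepO F φ m Z' h' Q' A' B' ∧ Z'.card ≤ s ∧ B'.Nonempty ∧
        (∀ y ∈ B', (sp Z' (h' y)).card ≤ 1 ∨ (2 ≤ (sp Z (h y)).card ∧
          8 * K * (sp Z' (h' y)).card ≤ (8 * K - 1) * (sp Z (h y)).card)) ∧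
        A.card ≤ 2 * s ^ K * A'.card ∧ B.card ≤ 2 * s ^ K * B'.card := by
  classical
  have hK1 : 1 ≤ K := by omega
  have hM : (Un Z K).card ≤ s ^ K := (card_Un Z K).trans (Nat.pow_le_pow_left hZs K)
  obtain ⟨A1, hA1, hA1c, hA1u⟩ := clean A (Un Z K) (fun x U => U ⊆ φ x)
  set Q1 : Finset P → Prop := fun v => Q v ∧ ∀ U ∈ Un Z K, U ⊆ v → ∃ x ∈ A1, U ⊆ φ x with hQ1
  have hdown1 : ∀ u v : Finset P, u ⊆ v → Q1 v → Q1 u := fun u v huv hv =>
    ⟨hR.down u v huv hv.1, fun U hU hUu => hv.2 U hU (hUu.trans huv)⟩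
  set Z1 := Z.filter Q1 with hZ1
  have hZ1Z : Z1 ⊆ Z := filter_subset _ _
  have hev1 : ∀ (g : Finset P → ℝ) v, Q1 v → ev Z1 g v = ev Z g v := by
    intro g v hv
    unfold ev
    refine sum_congr ?_ fun _ _ => rfl
    ext z
    simp only [hZ1, mem_filter]
    constructor
    · rintro ⟨⟨h1, _⟩, h2⟩
      exact ⟨h1, h2⟩
    · rintro ⟨h1, h2⟩
      exact ⟨⟨h1, hdown1 z v h2 hv⟩, h2⟩
  have hR1 : RepO F φ m Z1 h Q1 A1 B := by
    refine ⟨hdown1, fun z hz => (mem_filter.mp hz).2,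
      fun y hy v hv => ?_, fun x hx => ?_⟩
    · rw [hev1 _ v hv]
      exact hR.rng y hy v hv.1
    · have h1 := hR.rep x (hA1 hx)
      have h2 : Q1 (φ x) := ⟨h1.1, fun U _ hU => ⟨x, hx, hU⟩⟩
      exact ⟨h2, fun y hy => by rw [hev1 _ _ h2]; exact h1.2 y hy⟩
  have hpow : 1 ≤ s ^ K := Nat.one_le_pow _ _ (by omega)
  have hsp1 : ∀ g : Finset P → ℝ, (sp Z1 g).card ≤ (sp Z g).card := fun g =>
    card_le_card (filter_subset_filter _ hZ1Z)
  -- labels of the columns
  have hlab : ∀ y, ∃ T : Finset P, y ∈ B → ((T = ∅ ∧ (sp Z1 (h y)).card ≤ 1) ∨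
      (T ≠ ∅ ∧ T ∈ Un Z K ∧ Q1 T ∧ 2 ≤ (sp Z1 (h y)).card ∧ (sp Z1 (h y)).card <
        8 * K * ((sp Z1 (h y)).card - (cls (sp Z1 (h y)) Q1 T).card))) := by
    intro y
    by_cases hy : y ∈ B
    · by_cases hc : (sp Z1 (h y)).card ≤ 1
      · exact ⟨∅, fun _ => Or.inl ⟨rfl, hc⟩⟩
      · push Not at hc
        have hc2 : (sp Z1 (h y)).card < 2 ^ D :=
          lt_of_le_of_lt (((hsp1 _).trans (card_le_card (filter_subset _ _))).trans hZs) hs
        obtain ⟨T, hTU, hQT, hT⟩ := structure_thmZ (sp Z1 (h y)) (h y) Q1 hR1.down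
          (fun z hz => (mem_filter.mp hz).2) (fun z hz => hR1.sub z (mem_filter.mp hz).1) m hm
          (fun v hv => by rw [ev_sp]; exact hR1.rng y hy v hv) D K hc2 hK hc
        refine ⟨T, fun _ => Or.inr ⟨?_, ?_, hQT, hc, hT⟩⟩
        · rintro rfl
          have h1 : cls (sp Z1 (h y)) Q1 ∅ = sp Z1 (h y) := by
            ext u
            rw [mem_cls]
            constructor
            · rintro ⟨⟨w, hw, rfl⟩, _⟩
              rwa [union_empty]
            · intro hu
              exact ⟨⟨u, hu, union_empty u⟩, hR1.sub u (mem_filter.mp hu).1⟩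
          rw [h1, Nat.sub_self, mul_zero] at hT
          omega
        · exact Un_mono ((filter_subset _ _).trans hZ1Z) K hTU
    · exact ⟨∅, fun h => absurd h hy⟩
  choose τ hτ using hlab
  obtain ⟨T, hTS, hTc⟩ := pigeon B τ (insert ∅ (Un Z K)) (fun y hy => by
    rcases hτ y hy with h1 | h1
    · rw [h1.1]
      exact mem_insert_self _ _
    · exact mem_insert_of_mem h1.2.1) hB
  set B1 := B.filter fun y => τ y = T with hB1
  have hScard : (insert ∅ (Un Z K)).card ≤ 2 * s ^ K := by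
    refine (card_insert_le _ _).trans ?_
    omega
  have hB1c : B.card ≤ 2 * s ^ K * B1.card := hTc.trans (Nat.mul_le_mul_right _ hScard)
  have hB1n : B1.Nonempty := by
    rw [← card_pos]
    by_contra h0
    have h1 : B1.card = 0 := by omega
    rw [h1, mul_zero] at hB1c
    have := card_pos.mpr hB
    omega
  have hA1c2 : A.card ≤ 2 * s ^ K * A1.card := hA1c.trans (Nat.mul_le_mul_right _ (by omega))
  by_cases hT0 : T = ∅
  · refine ⟨Z1, h, Q1, A1, hA1, B1, filter_subset _ _, ⟨hR1.down, hR1.sub,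
      fun y hy => hR1.rng y (mem_filter.mp hy).1,
      fun x hx => ⟨(hR1.rep x hx).1, fun y hy => (hR1.rep x hx).2 y (mem_filter.mp hy).1⟩⟩,
      (card_le_card hZ1Z).trans hZs, hB1n, fun y hy => Or.inl ?_, hA1c2, hB1c⟩
    rw [hB1, mem_filter] at hy
    rcases hτ y hy.1 with h1 | h1
    · exact h1.2
    · exact absurd (hy.2.trans hT0) h1.1
  · have hTU : T ∈ Un Z K := by
      rcases mem_insert.mp hTS with h1 | h1
      · exact absurd h1 hT0
      · exact h1
    have hall : ∀ y ∈ B1, Q1 T ∧ 2 ≤ (sp Z1 (h y)).card ∧ (sp Z1 (h y)).card <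
        8 * K * ((sp Z1 (h y)).card - (cls (sp Z1 (h y)) Q1 T).card) := by
      intro y hy
      rw [hB1, mem_filter] at hy
      rcases hτ y hy.1 with h1 | h1
      · exact absurd (hy.2.symm.trans h1.1) hT0
      · rw [hy.2] at h1
        exact ⟨h1.2.2.1, h1.2.2.2.1, h1.2.2.2.2⟩
    obtain ⟨y0, hy0⟩ := hB1n
    have hQT : Q1 T := (hall y0 hy0).1
    obtain ⟨x0, hx0, hx0T⟩ := hQT.2 T hTU subset_rfl
    set h2 : Y → Finset P → ℝ := fun y u => ∑ w ∈ Z1 with w ∪ T = u, h y w with hh2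
    have hev2 : ∀ y v, Q1 v → ev (cls Z1 Q1 T) (h2 y) v = if T ⊆ v then ev Z1 (h y) v else 0 := by
      intro y v hv
      split_ifs with hTv
      · unfold ev
        have h3 : ∀ w ∈ Z1.filter (fun w => w ⊆ v), w ∪ T ∈
            (cls Z1 Q1 T).filter (fun u => u ⊆ v) := by
          intro w hw
          rw [mem_filter] at hw ⊢
          have h3 : w ∪ T ⊆ v := union_subset hw.2 hTv
          exact ⟨mem_cls.mpr ⟨⟨w, hw.1, rfl⟩, hdown1 _ _ h3 hv⟩, h3⟩
        rw [← sum_fiberwise_of_maps_to h3]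
        refine sum_congr rfl fun u hu => ?_
        rw [hh2]
        simp only
        refine sum_congr ?_ fun _ _ => rfl
        ext w
        simp only [mem_filter]
        constructor
        · rintro ⟨h3, h4⟩
          refine ⟨⟨h3, ?_⟩, h4⟩
          have h5 : w ⊆ w ∪ T := subset_union_left
          rw [h4] at h5
          exact h5.trans (mem_filter.mp hu).2
        · rintro ⟨⟨h3, _⟩, h5⟩
          exact ⟨h3, h5⟩
      · refine sum_eq_zero fun u hu => ?_
        rw [mem_filter, mem_cls] at hu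
        obtain ⟨⟨⟨w, _, rfl⟩, _⟩, h4⟩ := hu
        exact absurd (subset_union_right.trans h4) hTv
    have hR2 : RepO F φ m (cls Z1 Q1 T) h2 Q1 (A1.filter fun x => T ⊆ φ x) B1 := by
      refine ⟨hdown1, fun z hz => (mem_cls.mp hz).2, fun y hy v hv => ?_, fun x hx => ?_⟩
      · rw [hev2 y v hv]
        split_ifs
        · exact hR1.rng y (mem_filter.mp hy).1 v hv
        · exact ⟨0, by simp, by simp⟩
      · rw [mem_filter] at hx
        have h1 := hR1.rep x hx.1
        refine ⟨h1.1, fun y hy => ?_⟩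
        rw [hev2 _ _ h1.1, if_pos hx.2]
        exact h1.2 y (mem_filter.mp hy).1
    refine ⟨cls Z1 Q1 T, h2, Q1, _, (filter_subset _ _).trans hA1, B1, filter_subset _ _, hR2,
      ?_, ⟨y0, hy0⟩, fun y hy => Or.inr ?_, ?_, hB1c⟩
    · exact (card_cls _ _ _).trans ((card_le_card hZ1Z).trans hZs)
    · obtain ⟨_, h3, h4⟩ := hall y hy
      refine ⟨h3.trans (hsp1 _), ?_⟩
      have h5 : sp (cls Z1 Q1 T) (h2 y) ⊆ cls (sp Z1 (h y)) Q1 T := by
        intro u hu
        unfold sp at hu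
        rw [mem_filter, mem_cls] at hu
        obtain ⟨⟨_, h6⟩, h7⟩ := hu
        obtain ⟨w, hw, hw2⟩ := exists_ne_zero_of_sum_ne_zero h7
        rw [mem_filter] at hw
        rw [mem_cls]
        refine ⟨⟨w, ?_, hw.2⟩, h6⟩
        unfold sp
        exact mem_filter.mpr ⟨hw.1, hw2⟩
      have h6 := card_le_card h5
      have h7 : (cls (sp Z1 (h y)) Q1 T).card ≤ (sp Z1 (h y)).card := card_cls _ _ _
      have h8 : 8 * K * ((sp Z1 (h y)).card - (cls (sp Z1 (h y)) Q1 T).card) =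
          8 * K * (sp Z1 (h y)).card - 8 * K * (cls (sp Z1 (h y)) Q1 T).card := Nat.mul_sub _ _ _
      have h9 : (8 * K - 1) * (sp Z1 (h y)).card = 8 * K * (sp Z1 (h y)).card - (sp Z1 (h y)).card := by
        rw [Nat.sub_mul, one_mul]
      have h10 : (8 * K - 1) * (sp Z1 (h y)).card ≤ (8 * K - 1) * (sp Z (h y)).card :=
        Nat.mul_le_mul_left _ (hsp1 _)
      have h11 : 8 * K * (sp (cls Z1 Q1 T) (h2 y)).card ≤ 8 * K * (cls (sp Z1 (h y)) Q1 T).card :=
        Nat.mul_le_mul_left _ h6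
      have h12 : 8 * K * (cls (sp Z1 (h y)) Q1 T).card ≤ 8 * K * (sp Z1 (h y)).card :=
        Nat.mul_le_mul_left _ h7
      omega
    · rcases hA1u T hTU with h1 | h1
      · exact absurd hx0T (h1 x0 hx0)
      · refine h1.trans (Nat.mul_le_mul (Nat.mul_le_mul_left _ hM) (le_of_eq ?_))
        congr 1
        ext z
        simp only [mem_filter]

theorem RepO.restrict {X Y : Type*} {F : X → Y → Bool} {φ : X → Finset P} {m : ℕ}
    {Z : Finset (Finset P)} {h : Y → Finset P → ℝ} {Q : Finset P → Prop} {A A' : Finset X}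
    {B B' : Finset Y} (hR : RepO F φ m Z h Q A B) (hA : A' ⊆ A) (hB : B' ⊆ B) :
    RepO F φ m Z h Q A' B' :=
  ⟨hR.down, hR.sub, fun y hy => hR.rng y (hB hy),
    fun x hx => ⟨(hR.rep x (hA hx)).1, fun y hy => (hR.rep x (hA hx)).2 y (hB hy)⟩⟩

theorem iterO {X Y : Type*} (F : X → Y → Bool) (φ : X → Finset P) (m : ℕ) (hm : 1 ≤ m)
    (s D K : ℕ) (hs : s < 2 ^ D) (hK : 8 * m * D ^ 2 < K) (hs1 : 1 ≤ s)
    (Z : Finset (Finset P)) (h : Y → Finset P → ℝ) (Q : Finset P → Prop) (A : Finset X)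
    (B : Finset Y) (hR : RepO F φ m Z h Q A B) (hZs : Z.card ≤ s) (hB : B.Nonempty) : ∀ n : ℕ,
    ∃ (Z' : Finset (Finset P)) (h' : Y → Finset P → ℝ) (Q' : Finset P → Prop),
      ∃ A' ⊆ A, ∃ B' ⊆ B, RepO F φ m Z' h' Q' A' B' ∧ Z'.card ≤ s ∧ B'.Nonempty ∧
        (∀ y ∈ B', (sp Z' (h' y)).card ≤ 1 ∨
          (8 * K) ^ n * (sp Z' (h' y)).card ≤ (8 * K - 1) ^ n * s) ∧
        A.card ≤ (2 * s ^ K) ^ n * A'.card ∧ B.card ≤ (2 * s ^ K) ^ n * B'.card := by
  intro n
  induction n with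
  | zero =>
    refine ⟨Z, h, Q, A, subset_rfl, B, subset_rfl, hR, hZs, hB, fun y _ => Or.inr ?_, by simp,
      by simp⟩
    simp only [pow_zero, one_mul]
    exact (card_le_card (filter_subset _ _)).trans hZs
  | succ n ih =>
    obtain ⟨Z', h', Q', A', hA', B', hB', hR', hZ's, hB'n, hsp', hAc, hBc⟩ := ih
    obtain ⟨Z2, h2, Q2, A2, hA2, B2, hB2, hR2, hZ2s, hB2n, h3, h4, h5⟩ := stepO F φ m hm s D K hs hK
      hs1 Z' h' Q' A' B' hR' hZ's hB'n
    refine ⟨Z2, h2, Q2, A2, hA2.trans hA', B2, hB2.trans hB', hR2, hZ2s, hB2n, fun y hy => ?_,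
      ?_, ?_⟩
    · rcases h3 y hy with h6 | ⟨h6, h7⟩
      · exact Or.inl h6
      · rcases hsp' y (hB2 hy) with h8 | h8
        · omega
        · right
          calc (8 * K) ^ (n + 1) * (sp Z2 (h2 y)).card =
                (8 * K) ^ n * (8 * K * (sp Z2 (h2 y)).card) := by ring
            _ ≤ (8 * K) ^ n * ((8 * K - 1) * (sp Z' (h' y)).card) := Nat.mul_le_mul_left _ h7
            _ = (8 * K - 1) * ((8 * K) ^ n * (sp Z' (h' y)).card) := by ring
            _ ≤ (8 * K - 1) * ((8 * K - 1) ^ n * s) := Nat.mul_le_mul_left _ h8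
            _ = (8 * K - 1) ^ (n + 1) * s := by ring
    · calc A.card ≤ (2 * s ^ K) ^ n * A'.card := hAc
        _ ≤ (2 * s ^ K) ^ n * (2 * s ^ K * A2.card) := Nat.mul_le_mul_left _ h4
        _ = (2 * s ^ K) ^ (n + 1) * A2.card := by ring
    · calc B.card ≤ (2 * s ^ K) ^ n * B'.card := hBc
        _ ≤ (2 * s ^ K) ^ n * (2 * s ^ K * B2.card) := Nat.mul_le_mul_left _ h5
        _ = (2 * s ^ K) ^ (n + 1) * B2.card := by ring

theorem lastO {X Y : Type*} (F : X → Y → Bool) (φ : X → Finset P) (m s : ℕ) (hs1 : 1 ≤ s)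
    (Z : Finset (Finset P)) (h : Y → Finset P → ℝ) (Q : Finset P → Prop) (A : Finset X)
    (B : Finset Y) (hR : RepO F φ m Z h Q A B) (hZs : Z.card ≤ s) (hB : B.Nonempty)
    (hsp : ∀ y ∈ B, (sp Z (h y)).card ≤ 1) :
    ∃ A' ⊆ A, ∃ B' ⊆ B, ∃ v : Bool, (∀ x ∈ A', ∀ y ∈ B', F x y = v) ∧
      A.card ≤ 2 * A'.card ∧ B.card ≤ 2 * s * B'.card := by
  classical
  obtain ⟨o, hoS, hoc⟩ := pigeon B (fun y => sp Z (h y)) (insert ∅ (Z.image fun z => {z}))
    (fun y hy => by
      rcases card_le_one_iff_subset_singleton.mp (hsp y hy) with ⟨z, hz⟩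
      rcases subset_singleton_iff.mp hz with h0 | h1
      · rw [h0]
        exact mem_insert_self _ _
      · refine mem_insert_of_mem (mem_image.mpr ⟨z, ?_, h1.symm⟩)
        have : z ∈ sp Z (h y) := by rw [h1]; exact mem_singleton_self z
        exact (mem_filter.mp this).1) hB
  have hcard : (insert ∅ (Z.image fun z => ({z} : Finset (Finset P)))).card ≤ 2 * s := by
    refine (card_insert_le _ _).trans ?_
    have : (Z.image fun z => ({z} : Finset (Finset P))).card ≤ Z.card := card_image_le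
    omega
  have hB1c := hoc.trans (Nat.mul_le_mul_right _ hcard)
  set B1 := B.filter fun y => sp Z (h y) = o with hB1
  rcases mem_insert.mp hoS with h0 | h1
  · refine ⟨A, subset_rfl, B1, filter_subset _ _, false, fun x hx y hy => ?_, by omega, hB1c⟩
    rw [hB1, mem_filter] at hy
    have h2 := (hR.rep x hx).2 y hy.1
    rw [← ev_sp, hy.2, h0] at h2
    unfold ev at h2
    by_contra h3
    rw [Bool.not_eq_false] at h3
    rw [h3] at h2
    simp at h2
  · obtain ⟨z, hzZ, hz⟩ := mem_image.mp h1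
    have hval : ∀ x ∈ A, ∀ y ∈ B1, F x y = true ↔ z ⊆ φ x := by
      intro x hx y hy
      rw [hB1, mem_filter] at hy
      have h2 := (hR.rep x hx).2 y hy.1
      have hspz : sp Z (h y) = {z} := hy.2.trans hz.symm
      have hne : h y z ≠ 0 := by
        have : z ∈ sp Z (h y) := by rw [hspz]; exact mem_singleton_self z
        exact (mem_filter.mp this).2
      have h3 : ev Z (h y) (φ x) = if z ⊆ φ x then h y z else 0 := by
        rw [← ev_sp, hspz]
        unfold ev
        rw [sum_filter, sum_singleton]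
      rw [h3] at h2
      constructor
      · intro h5
        rw [h5] at h2
        by_contra h6
        rw [if_neg h6] at h2
        simp at h2
      · intro h5
        rw [if_pos h5] at h2
        by_contra h6
        rw [if_neg h6] at h2
        exact hne h2
    set A1 := A.filter fun x => z ⊆ φ x with hA1
    have hAc : A1.card + (A.filter fun x => ¬ z ⊆ φ x).card = A.card :=
      card_filter_add_card_filter_not (s := A) (fun x => z ⊆ φ x)
    by_cases hA : A.card ≤ 2 * A1.card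
    · refine ⟨A1, filter_subset _ _, B1, filter_subset _ _, true, fun x hx y hy => ?_, hA, hB1c⟩
      rw [hA1, mem_filter] at hx
      exact (hval x hx.1 y hy).mpr hx.2
    · refine ⟨A.filter fun x => ¬ z ⊆ φ x, filter_subset _ _, B1, filter_subset _ _, false,
          fun x hx y hy => ?_, by omega, hB1c⟩
      rw [mem_filter] at hx
      rw [← Bool.not_eq_true, hval x hx.1 y hy]
      exact fun h => hx.2 h

theorem richO {X Y : Type*} [Fintype X] [Fintype Y] (F : X → Y → Bool) (φ : X → Finset P)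
    (m : ℕ) (hm : 1 ≤ m) (s D K : ℕ) (hs : s < 2 ^ D) (hK : 8 * m * D ^ 2 < K) (hs1 : 1 ≤ s)
    (Z : Finset (Finset P)) (h : Y → Finset P → ℝ) (Q : Finset P → Prop)
    (hR : RepO F φ m Z h Q univ univ) (hZs : Z.card ≤ s) :
    Pool.Agent.R533.VC.Rich F (((2 * s ^ K) ^ (8 * K * D) * 2) *
      ((2 * s ^ K) ^ (8 * K * D) * (2 * s))) := by
  intro A B _ hBn
  obtain ⟨Z', h', Q', A', hA', B', hB', hR', hZ's, hB'n, hsp', hAc, hBc⟩ := iterO F φ m hm s D K hs
    hK hs1 Z h Q A B (hR.restrict (subset_univ _) (subset_univ _)) hZs hBn (8 * K * D)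
  have hsp1 : ∀ y ∈ B', (sp Z' (h' y)).card ≤ 1 := by
    intro y hy
    rcases hsp' y hy with h0 | h0
    · exact h0
    · have hK1 : 1 ≤ K := by omega
      have h1 := pow_small K D hK1
      have h2 : (8 * K - 1) ^ (8 * K * D) * s < (8 * K) ^ (8 * K * D) := by
        refine lt_of_lt_of_le ?_ h1
        exact Nat.mul_lt_mul_of_pos_left hs (pow_pos (by omega) _)
      by_contra h3
      push Not at h3
      have h4 : (8 * K) ^ (8 * K * D) ≤ (8 * K) ^ (8 * K * D) * (sp Z' (h' y)).card :=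
        Nat.le_mul_of_pos_right _ (by omega)
      omega
  obtain ⟨A'', hA'', B'', hB'', v, hv, h1, h2⟩ := lastO F φ m s hs1 Z' h' Q' A' B' hR' hZ's hB'n hsp1
  refine ⟨A'', hA''.trans hA', B'', hB''.trans hB', v, hv, ?_⟩
  have h3 : A.card ≤ (2 * s ^ K) ^ (8 * K * D) * 2 * A''.card := by
    refine hAc.trans ?_
    rw [mul_assoc _ 2]
    exact Nat.mul_le_mul_left _ h1
  have h4 : B.card ≤ (2 * s ^ K) ^ (8 * K * D) * (2 * s) * B''.card := by
    refine hBc.trans ?_
    rw [mul_assoc _ (2 * s)]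
    exact Nat.mul_le_mul_left _ h2
  calc A.card * B.card ≤ ((2 * s ^ K) ^ (8 * K * D) * 2 * A''.card) *
        ((2 * s ^ K) ^ (8 * K * D) * (2 * s) * B''.card) := Nat.mul_le_mul h3 h4
    _ = _ := by ring

end Pool.Agent.K4H92.ANDF
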