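import Pool.Agent.K4H92.ANDF.Tuple

/-!
A sparse Boolean polynomial has a union of few monomials which merges many monomials.
-/

set_option autoImplicit false

namespace Pool.Agent.K4H92.ANDF

open Finset

variable {P : Type*} [DecidableEq P]

theorem const_coef (b : Finset P → ℝ) : ∀ A : Finset P,
    (∀ v ⊆ A, ∑ S ∈ v.powerset, b S = b ∅) → A.Nonempty → b A = 0 := by
  intro A
  induction A using Finset.strongInduction with
  | H A ih =>
    intro h hne
    have h1 := h A subset_rfl
    have h2 : ∑ S ∈ ({∅, A} : Finset (Finset P)), b S = ∑ S ∈ A.powerset, b S := by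
      refine sum_subset ?_ fun S hS hS' => ?_
      · intro S hS
        rw [mem_insert, mem_singleton] at hS
        rcases hS with rfl | rfl
        · exact empty_mem_powerset _
        · exact mem_powerset_self _
      · rw [mem_insert, mem_singleton, not_or] at hS'
        have hSA := mem_powerset.mp hS
        exact ih S (hSA.ssubset_of_ne hS'.2) (fun v hv => h v (hv.trans hSA))
          (nonempty_iff_ne_empty.mpr hS'.1)
    rw [sum_pair (fun h0 => by rw [← h0] at hne; exact absurd hne (by simp)), h1] at h2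
    linarith

theorem tuple_bound (Z : Finset (Finset P)) (a : Finset P → ℝ) (Q : Finset P → Prop)
    (hQd : ∀ u v : Finset P, u ⊆ v → Q v → Q u) (ha : ∀ z ∈ Z, a z ≠ 0)
    (h01 : ∀ v, Q v → ev Z a v = 0 ∨ ev Z a v = 1) (D K : ℕ) (hZ : Z.card < 2 ^ D)
    (w : Fin K → Finset P) (hw : ∀ i, w i ∈ Z) (hQ : Q (univ.biUnion w))
    (hiso : ∀ l, Iso Z Q ((univ.erase l).biUnion w) (w l)) (hne : ∃ l m, w l ≠ w m) :
    K ≤ 2 * D ^ 2 := by
  classical
  set T : Fin K → Finset P := fun l => (univ.erase l).biUnion w with hT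
  set A : Fin K → Finset P := fun l => w l \ T l with hA
  set base : Finset P := univ.biUnion w \ univ.biUnion A with hbase
  have hwT : ∀ l m, m ≠ l → w m ⊆ T l := by
    intro l m hml p hp
    rw [hT, mem_biUnion]
    exact ⟨m, mem_erase.mpr ⟨hml, mem_univ _⟩, hp⟩
  have hAne : ∀ l, (A l).Nonempty := by
    intro l
    rw [nonempty_iff_ne_empty]
    intro h0
    have h1 : w l ⊆ T l := by
      rw [← sdiff_eq_empty_iff_subset]
      exact h0
    have h2 : ∀ m, w m = w l := by
      intro m
      by_cases hml : m = l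
      · rw [hml]
      · refine (hiso l).2 (w m) (hw m) ?_
        show w m ∪ T l = w l ∪ T l
        rw [union_eq_right.mpr (hwT l m hml), union_eq_right.mpr h1]
    obtain ⟨l', m', h3⟩ := hne
    exact h3 ((h2 l').trans (h2 m').symm)
  have hAd : ∀ l m, l ≠ m → ∀ p, p ∈ w l → p ∉ A m := by
    intro l m hlm p hp hpm
    rw [hA] at hpm
    exact (mem_sdiff.mp hpm).2 (hwT m l hlm hp)
  have hbT : ∀ l, base ⊆ T l := by
    intro l p hp
    rw [hbase, mem_sdiff, mem_biUnion] at hp
    obtain ⟨⟨i, _, hi⟩, h2⟩ := hp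
    by_contra hpT
    by_cases hil : i = l
    · subst hil
      exact h2 (mem_biUnion.mpr ⟨i, mem_univ _, mem_sdiff.mpr ⟨hi, hpT⟩⟩)
    · exact hpT (hwT l i hil hi)
  have hwb : ∀ l, w l \ base = A l := by
    intro l
    ext p
    rw [mem_sdiff]
    constructor
    · rintro ⟨h1, h2⟩
      rw [hbase, mem_sdiff, not_and, not_not] at h2
      have h3 := h2 (mem_biUnion.mpr ⟨l, mem_univ _, h1⟩)
      rw [mem_biUnion] at h3
      obtain ⟨m, _, hm⟩ := h3
      by_cases hlm : l = m
      · rwa [hlm]
      · exact absurd hm (hAd l m hlm p h1)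
    · intro h1
      refine ⟨(mem_sdiff.mp h1).1, fun h2 => ?_⟩
      rw [hbase, mem_sdiff] at h2
      exact h2.2 (mem_biUnion.mpr ⟨l, mem_univ _, h1⟩)
  set b : Finset P → ℝ := fun S => ∑ u ∈ Z with u \ base = S, a u with hb
  have hbs : ∀ v : Finset P, ∑ S ∈ v.powerset, b S = ev Z a (base ∪ v) := by
    intro v
    unfold ev
    have h2 : ∀ u ∈ Z.filter (fun u => u ⊆ base ∪ v), u \ base ∈ v.powerset := fun u hu => by
      rw [mem_powerset]
      exact sdiff_le_iff.mpr (mem_filter.mp hu).2
    rw [← sum_fiberwise_of_maps_to h2]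
    refine sum_congr rfl fun S hS => ?_
    refine sum_congr ?_ fun _ _ => rfl
    ext u
    simp only [mem_filter]
    constructor
    · rintro ⟨h3, h4⟩
      refine ⟨⟨h3, ?_⟩, h4⟩
      have h5 : u \ base ⊆ v := h4 ▸ mem_powerset.mp hS
      exact sdiff_le_iff.mp h5
    · rintro ⟨⟨h3, _⟩, h5⟩
      exact ⟨h3, h5⟩
  have hb0 : b ∅ = ev Z a base := by
    have := hbs ∅
    simpa using this
  have hbA : ∀ l, b (A l) = a (w l) := by
    intro l
    have h1 : (Z.filter fun u => u \ base = A l) = {w l} := by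
      ext u
      rw [mem_filter, mem_singleton]
      constructor
      · rintro ⟨hu, h2⟩
        refine (hiso l).2 u hu ?_
        show u ∪ T l = w l ∪ T l
        have h3 : ∀ x : Finset P, x \ base = A l → x ∪ T l = A l ∪ T l := by
          intro x hx
          ext p
          rw [mem_union, mem_union, ← hx, mem_sdiff]
          constructor
          · rintro (h4 | h4)
            · by_cases h5 : p ∈ base
              · exact Or.inr (hbT l h5)
              · exact Or.inl ⟨h4, h5⟩
            · exact Or.inr h4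
          · rintro (h4 | h4)
            · exact Or.inl h4.1
            · exact Or.inr h4
        rw [h3 u h2, h3 (w l) (hwb l)]
      · rintro rfl
        exact ⟨hw l, hwb l⟩
    rw [hb]
    simp only
    rw [h1, sum_singleton]
  have hex : ∀ l, ∃ v ⊆ A l, ev Z a (base ∪ v) ≠ ev Z a base := by
    intro l
    by_contra hcon
    push Not at hcon
    have h1 := const_coef b (A l) (fun v hv => by rw [hbs, hb0]; exact hcon v hv) (hAne l)
    rw [hbA] at h1
    exact ha _ (hw l) h1
  choose v hvA hv using hex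
  have hAU : ∀ l, A l ⊆ univ.biUnion w := fun l p hp =>
    mem_biUnion.mpr ⟨l, mem_univ _, (mem_sdiff.mp hp).1⟩
  refine blocks Z a D K hZ base v ?_ ?_ ?_ hv
  · intro i j hij
    refine Finset.disjoint_of_subset_left (hvA i) (Finset.disjoint_of_subset_right (hvA j) ?_)
    rw [Finset.disjoint_left]
    intro p hp
    exact hAd i j hij p (mem_sdiff.mp hp).1
  · intro i
    rw [Finset.disjoint_left]
    intro p hp hpi
    rw [hbase, mem_sdiff] at hp
    exact hp.2 (mem_biUnion.mpr ⟨i, mem_univ _, hvA i hpi⟩)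
  · intro Y
    refine h01 _ (hQd _ _ ?_ hQ)
    refine union_subset sdiff_subset ?_
    intro p hp
    rw [mem_biUnion] at hp
    obtain ⟨i, _, hi⟩ := hp
    exact hAU i (hvA i hi)

/-- **Structure theorem.** A Boolean polynomial with `s ≥ 2` monomials, `s < 2 ^ D`, on a down-set
`Q` has a union `T ∈ Q` of at most `K > 2 D ^ 2` monomials such that there are less than
`(1 - 1 / (8 K)) s` different unions `w ∪ T ∈ Q` of `T` and one more monomial. -/
theorem structure_thm (Z : Finset (Finset P)) (a : Finset P → ℝ) (Q : Finset P → Prop)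
    (hQd : ∀ u v : Finset P, u ⊆ v → Q v → Q u) (ha : ∀ z ∈ Z, a z ≠ 0) (hZQ : ∀ z ∈ Z, Q z)
    (h01 : ∀ v, Q v → ev Z a v = 0 ∨ ev Z a v = 1) (D K : ℕ) (hZ : Z.card < 2 ^ D)
    (hK : 2 * D ^ 2 < K) (hZ2 : 2 ≤ Z.card) :
    ∃ T ∈ Un Z K, Q T ∧ Z.card < 8 * K * (Z.card - (cls Z Q T).card) := by
  by_contra hcon
  push Not at hcon
  have hD : 1 ≤ D := by
    by_contra h
    have : D = 0 := by omega
    subst this
    simp at hZ
    simp [hZ] at hZ2
  have hK2 : 2 ≤ K := by nlinarith
  obtain ⟨w, h1, h2, h3, h4⟩ := exists_tuple Z Q hQd hZQ K hK2 hZ2 hcon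
  have := tuple_bound Z a Q hQd ha h01 D K hZ w h1 h2 h3 h4
  omega

end Pool.Agent.K4H92.ANDF
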