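import Pool.Agent.K4H92.ANDF.Blocks

/-!
Random tuples of monomials of a sparse Boolean polynomial.
-/

set_option autoImplicit false

namespace Pool.Agent.K4H92.ANDF

open Finset

variable {P : Type*} [DecidableEq P]

open Classical in
/-- the different unions `w ∪ T` (`w ∈ Z`) which lie in the down-set `Q` -/
noncomputable def cls (Z : Finset (Finset P)) (Q : Finset P → Prop) (T : Finset P) :
    Finset (Finset P) := (Z.image (· ∪ T)).filter Q

open Classical in
theorem mem_cls {Z : Finset (Finset P)} {Q : Finset P → Prop} {T u : Finset P} :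
    u ∈ cls Z Q T ↔ (∃ w ∈ Z, w ∪ T = u) ∧ Q u := by
  unfold cls
  rw [mem_filter, mem_image]

open Classical in
theorem card_cls (Z : Finset (Finset P)) (Q : Finset P → Prop) (T : Finset P) :
    (cls Z Q T).card ≤ Z.card := by
  unfold cls
  exact (card_le_card (filter_subset _ _)).trans card_image_le

/-- the unions of `K` elements of `Z` -/
def Un (Z : Finset (Finset P)) (K : ℕ) : Finset (Finset P) :=
  (Fintype.piFinset fun _ : Fin K => Z).image fun w => univ.biUnion w

theorem card_Un (Z : Finset (Finset P)) (K : ℕ) : (Un Z K).card ≤ Z.card ^ K := by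
  unfold Un
  refine card_image_le.trans ?_
  rw [Fintype.card_piFinset_const]

theorem mem_Un {Z : Finset (Finset P)} {K : ℕ} {T : Finset P} :
    T ∈ Un Z K ↔ ∃ w : Fin K → Finset P, (∀ i, w i ∈ Z) ∧ univ.biUnion w = T := by
  unfold Un
  simp [Fintype.mem_piFinset]

theorem sub_Un {Z : Finset (Finset P)} {K : ℕ} (w : Fin K → Finset P) (hw : ∀ i, w i ∈ Z)
    (S : Finset (Fin K)) (hS : S.Nonempty) : S.biUnion w ∈ Un Z K := by
  classical
  obtain ⟨i0, hi0⟩ := hS
  rw [mem_Un]
  refine ⟨fun i => if i ∈ S then w i else w i0, fun i => ?_, ?_⟩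
  · simp only
    split_ifs
    · exact hw i
    · exact hw i0
  · ext p
    simp only [mem_biUnion, mem_univ, true_and]
    constructor
    · rintro ⟨i, hi⟩
      split_ifs at hi with h
      · exact ⟨i, h, hi⟩
      · exact ⟨i0, hi0, hi⟩
    · rintro ⟨i, h, hi⟩
      exact ⟨i, by rwa [if_pos h]⟩

/-- `w` is alone in its class over `T`, inside `Q` -/
def Iso (Z : Finset (Finset P)) (Q : Finset P → Prop) (T w : Finset P) : Prop :=
  Q (w ∪ T) ∧ ∀ w' ∈ Z, w' ∪ T = w ∪ T → w' = w

open Classical in
theorem badQ (Z : Finset (Finset P)) (Q : Finset P → Prop) (T : Finset P) :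
    (Z.filter fun w => ¬ Q (w ∪ T)).card + (cls Z Q T).card ≤ Z.card := by
  have h1 : (cls Z Q T) ⊆ (Z.filter fun w => Q (w ∪ T)).image (· ∪ T) := by
    intro u hu
    unfold cls at hu
    rw [mem_filter, mem_image] at hu
    obtain ⟨⟨w, hw, rfl⟩, hQ⟩ := hu
    exact mem_image.mpr ⟨w, mem_filter.mpr ⟨hw, hQ⟩, rfl⟩
  have h2 := (card_le_card h1).trans card_image_le
  have h3 := card_filter_add_card_filter_not (s := Z) (fun w => Q (w ∪ T))
  omega

open Classical in
theorem badI (Z : Finset (Finset P)) (Q : Finset P → Prop) (T : Finset P) :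
    (Z.filter fun w => ¬ Iso Z Q T w).card + 2 * (cls Z Q T).card ≤ 2 * Z.card := by
  set G := Z.filter fun w => Iso Z Q T w with hG
  have h3 : G.card + (Z.filter fun w => ¬ Iso Z Q T w).card = Z.card :=
    card_filter_add_card_filter_not (s := Z) (fun w => Iso Z Q T w)
  suffices h : 2 * (cls Z Q T).card ≤ Z.card + G.card by omega
  have hmaps : ∀ w ∈ Z.filter (fun w => Q (w ∪ T)), w ∪ T ∈ cls Z Q T := by
    intro w hw
    rw [mem_filter] at hw
    unfold cls
    exact mem_filter.mpr ⟨mem_image.mpr ⟨w, hw.1, rfl⟩, hw.2⟩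
  have h4 := card_eq_sum_card_fiberwise hmaps
  have h5 : ∀ u ∈ cls Z Q T, 2 ≤ ((Z.filter (fun w => Q (w ∪ T))).filter
      (fun w => w ∪ T = u)).card + (if u ∈ G.image (· ∪ T) then 1 else 0) := by
    intro u hu
    unfold cls at hu
    rw [mem_filter, mem_image] at hu
    obtain ⟨⟨w, hw, rfl⟩, hQ⟩ := hu
    by_cases hwG : w ∪ T ∈ G.image (· ∪ T)
    · rw [if_pos hwG]
      have : 1 ≤ ((Z.filter (fun w => Q (w ∪ T))).filter (fun w' => w' ∪ T = w ∪ T)).card := by
        rw [Nat.one_le_iff_ne_zero, ← Nat.pos_iff_ne_zero, card_pos]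
        exact ⟨w, mem_filter.mpr ⟨mem_filter.mpr ⟨hw, hQ⟩, rfl⟩⟩
      omega
    · rw [if_neg hwG]
      have h6 : ¬ Iso Z Q T w := fun h => hwG (mem_image.mpr ⟨w, mem_filter.mpr ⟨hw, h⟩, rfl⟩)
      unfold Iso at h6
      push Not at h6
      obtain ⟨w', hw', h7, h8⟩ := h6 hQ
      have : 1 < ((Z.filter (fun w => Q (w ∪ T))).filter (fun w' => w' ∪ T = w ∪ T)).card := by
        rw [one_lt_card]
        refine ⟨w', mem_filter.mpr ⟨mem_filter.mpr ⟨hw', ?_⟩, h7⟩, w,
          mem_filter.mpr ⟨mem_filter.mpr ⟨hw, hQ⟩, rfl⟩, h8⟩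
        rw [h7]
        exact hQ
      omega
  have h6 : ∑ u ∈ cls Z Q T, 2 ≤ ∑ u ∈ cls Z Q T, (((Z.filter (fun w => Q (w ∪ T))).filter
      (fun w => w ∪ T = u)).card + (if u ∈ G.image (· ∪ T) then 1 else 0)) := sum_le_sum h5
  rw [sum_add_distrib, ← h4, sum_const, smul_eq_mul, sum_boole] at h6
  have h7 : (Z.filter (fun w => Q (w ∪ T))).card ≤ Z.card := card_le_card (filter_subset _ _)
  have h8 : ((cls Z Q T).filter (fun u => u ∈ G.image (· ∪ T))).card ≤ G.card := by
    refine (card_le_card (t := G.image (· ∪ T)) ?_).trans card_image_le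
    intro u hu
    exact (mem_filter.mp hu).2
  simp only [Nat.cast_id] at h6
  omega

theorem count_coord {α : Type*} [Fintype α] [DecidableEq α] {K : ℕ} (E : Finset (Fin K → α))
    (l : Fin K) (c : ℕ)
    (h : ∀ w : Fin K → α, (univ.filter fun x => Function.update w l x ∈ E).card ≤ c) :
    Fintype.card α * E.card ≤ c * Fintype.card α ^ K := by
  have h1 : (univ.filter fun p : (Fin K → α) × α => Function.update p.1 l p.2 ∈ E).card =
      (E ×ˢ (univ : Finset α)).card := by
    refine card_nbij' (fun p => (Function.update p.1 l p.2, p.1 l))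
      (fun p => (Function.update p.1 l p.2, p.1 l)) ?_ ?_ ?_ ?_
    · intro p hp
      have := (mem_filter.mp (mem_coe.mp hp)).2
      simpa using this
    · intro p hp
      have := (mem_product.mp (mem_coe.mp hp)).1
      simpa using this
    · intro p _
      simp
    · intro p _
      simp
  have h2 : (univ.filter fun p : (Fin K → α) × α => Function.update p.1 l p.2 ∈ E).card =
      ∑ w : Fin K → α, (univ.filter fun x => Function.update w l x ∈ E).card := by
    rw [card_filter, Fintype.sum_prod_type]
    refine sum_congr rfl fun w _ => ?_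
    rw [card_filter]
  have h3 : ∑ w : Fin K → α, (univ.filter fun x => Function.update w l x ∈ E).card ≤
      ∑ _w : Fin K → α, c := sum_le_sum fun w _ => h w
  rw [sum_const, card_univ, Fintype.card_fun, Fintype.card_fin, smul_eq_mul] at h3
  rw [card_product, card_univ] at h1
  calc Fintype.card α * E.card = E.card * Fintype.card α := mul_comm _ _
    _ ≤ Fintype.card α ^ K * c := by rw [← h1, h2]; exact h3
    _ = c * Fintype.card α ^ K := mul_comm _ _

theorem filter_sub {α : Type*} (Z : Finset α) (Φ : α → Prop) [DecidablePred Φ]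
    [DecidablePred fun x : {z // z ∈ Z} => Φ x.1] :
    (univ.filter fun x : {z // z ∈ Z} => Φ x.1).card = (Z.filter Φ).card := by
  rw [← card_map (Function.Embedding.subtype (· ∈ Z))]
  congr 1
  ext z
  simp [and_comm]

theorem exists_tuple (Z : Finset (Finset P)) (Q : Finset P → Prop)
    (hQd : ∀ u v : Finset P, u ⊆ v → Q v → Q u) (hZQ : ∀ z ∈ Z, Q z) (K : ℕ) (hK : 2 ≤ K)
    (hZ : 2 ≤ Z.card)
    (hN : ∀ T ∈ Un Z K, Q T → 8 * K * (Z.card - (cls Z Q T).card) ≤ Z.card) :
    ∃ w : Fin K → Finset P, (∀ i, w i ∈ Z) ∧ Q (univ.biUnion w) ∧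
      (∀ l, Iso Z Q ((univ.erase l).biUnion w) (w l)) ∧ ∃ l m, w l ≠ w m := by
  classical
  set s := Z.card with hs
  set δ := s / (8 * K) with hδ
  have hδs : 8 * K * δ ≤ s := Nat.mul_div_le s (8 * K)
  have hNδ : ∀ T ∈ Un Z K, Q T → s - (cls Z Q T).card ≤ δ := fun T hT hQ => by
    rw [hδ, Nat.le_div_iff_mul_le (by omega), mul_comm]
    exact hN T hT hQ
  have hcardα : Fintype.card {z // z ∈ Z} = s := by simp [hs]
  -- prefixes
  set pre : ℕ → (Fin K → {z // z ∈ Z}) → Finset P := fun n w =>
    (univ.filter (fun i : Fin K => i.val < n)).biUnion (fun i => (w i).1) with hpre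
  set TT : Fin K → (Fin K → {z // z ∈ Z}) → Finset P := fun l w =>
    (univ.erase l).biUnion (fun i => (w i).1) with hTT
  set E1 : Fin K → Finset (Fin K → {z // z ∈ Z}) := fun j =>
    univ.filter fun w => Q (pre j.val w) ∧ ¬ Q ((w j).1 ∪ pre j.val w) with hE1
  set E2 : Fin K → Finset (Fin K → {z // z ∈ Z}) := fun l =>
    univ.filter fun w => Q (TT l w) ∧ ¬ Iso Z Q (TT l w) (w l).1 with hE2
  set l0 : Fin K := ⟨0, by omega⟩ with hl0
  set l1 : Fin K := ⟨1, by omega⟩ with hl1
  set E3 : Finset (Fin K → {z // z ∈ Z}) := univ.filter fun w => w l0 = w l1 with hE3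
  have hpreu : ∀ (j : Fin K) (w : Fin K → {z // z ∈ Z}) (x : {z // z ∈ Z}),
      pre j.val (Function.update w j x) = pre j.val w := by
    intro j w x
    rw [hpre]
    simp only
    refine biUnion_congr rfl fun i hi => ?_
    have : i ≠ j := by
      rintro rfl
      exact absurd (mem_filter.mp hi).2 (lt_irrefl _)
    rw [Function.update_of_ne this]
  have hTTu : ∀ (l : Fin K) (w : Fin K → {z // z ∈ Z}) (x : {z // z ∈ Z}),
      TT l (Function.update w l x) = TT l w := by
    intro l w x
    rw [hTT]
    simp only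
    refine biUnion_congr rfl fun i hi => ?_
    rw [Function.update_of_ne (ne_of_mem_erase hi)]
  have hc1 : ∀ j, s * (E1 j).card ≤ δ * s ^ K := by
    intro j
    have := count_coord (E1 j) j δ (by
      intro w
      by_cases hQ : Q (pre j.val w)
      · have h1 : (univ.filter fun x => Function.update w j x ∈ E1 j) ⊆
            univ.filter fun x : {z // z ∈ Z} => ¬ Q (x.1 ∪ pre j.val w) := by
          intro x hx
          have h2 := (mem_filter.mp (mem_filter.mp hx).2).2.2
          rw [hpreu, Function.update_self] at h2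
          exact mem_filter.mpr ⟨mem_univ _, h2⟩
        refine (card_le_card h1).trans ?_
        rw [filter_sub Z (fun w' => ¬ Q (w' ∪ pre j.val w))]
        by_cases hj : (univ.filter (fun i : Fin K => i.val < j.val)).Nonempty
        · have h3 := badQ Z Q (pre j.val w)
          have h4 := hNδ (pre j.val w) (sub_Un (fun i => (w i).1) (fun i => (w i).2) _ hj) hQ
          omega
        · rw [not_nonempty_iff_eq_empty] at hj
          have h3 : pre j.val w = ∅ := by
            rw [hpre]
            simp only
            rw [hj, biUnion_empty]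
          have h4 : (Z.filter fun w' => ¬ Q (w' ∪ pre j.val w)) = ∅ := by
            rw [filter_eq_empty_iff]
            intro z hz
            rw [h3, union_empty]
            exact not_not.mpr (hZQ z hz)
          rw [h4]
          simp
      · have h1 : (univ.filter fun x => Function.update w j x ∈ E1 j) = ∅ := by
          rw [filter_eq_empty_iff]
          intro x _ hx
          have h2 := (mem_filter.mp hx).2.1
          rw [hpreu] at h2
          exact hQ h2
        rw [h1]
        simp)
    rwa [hcardα] at this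
  have hc2 : ∀ l, s * (E2 l).card ≤ (2 * δ) * s ^ K := by
    intro l
    have hne : (univ.erase l : Finset (Fin K)).Nonempty := by
      rw [← card_pos, card_erase_of_mem (mem_univ _), card_univ, Fintype.card_fin]
      omega
    have := count_coord (E2 l) l (2 * δ) (by
      intro w
      by_cases hQ : Q (TT l w)
      · have h1 : (univ.filter fun x => Function.update w l x ∈ E2 l) ⊆
            univ.filter fun x : {z // z ∈ Z} => ¬ Iso Z Q (TT l w) x.1 := by
          intro x hx
          have h2 := (mem_filter.mp (mem_filter.mp hx).2).2.2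
          rw [hTTu, Function.update_self] at h2
          exact mem_filter.mpr ⟨mem_univ _, h2⟩
        refine (card_le_card h1).trans ?_
        rw [filter_sub Z (fun w' => ¬ Iso Z Q (TT l w) w')]
        have h3 := badI Z Q (TT l w)
        have h4 := hNδ (TT l w) (sub_Un (fun i => (w i).1) (fun i => (w i).2) _ hne) hQ
        omega
      · have h1 : (univ.filter fun x => Function.update w l x ∈ E2 l) = ∅ := by
          rw [filter_eq_empty_iff]
          intro x _ hx
          have h2 := (mem_filter.mp hx).2.1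
          rw [hTTu] at h2
          exact hQ h2
        rw [h1]
        simp)
    rwa [hcardα] at this
  have h01 : l1 ≠ l0 := by
    intro h
    have := congrArg Fin.val h
    simp [hl0, hl1] at this
  have hc3 : s * E3.card ≤ 1 * s ^ K := by
    have := count_coord E3 l0 1 (by
      intro w
      rw [card_le_one]
      intro x hx y hy
      have h1 := (mem_filter.mp (mem_filter.mp hx).2).2
      have h2 := (mem_filter.mp (mem_filter.mp hy).2).2
      rw [Function.update_self, Function.update_of_ne h01] at h1 h2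
      rw [h1, h2])
    rwa [hcardα] at this
  have hex : ∃ w : Fin K → {z // z ∈ Z}, (∀ j, w ∉ E1 j) ∧ (∀ l, w ∉ E2 l) ∧ w ∉ E3 := by
    by_contra hcon
    push Not at hcon
    have h1 : (univ : Finset (Fin K → {z // z ∈ Z})) ⊆
        (univ.biUnion E1 ∪ univ.biUnion E2) ∪ E3 := by
      intro w _
      rw [mem_union, mem_union, mem_biUnion, mem_biUnion]
      by_cases ha : ∃ j, w ∈ E1 j
      · obtain ⟨j, hj⟩ := ha
        exact Or.inl (Or.inl ⟨j, mem_univ _, hj⟩)
      · by_cases hb : ∃ l, w ∈ E2 l
        · obtain ⟨j, hj⟩ := hb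
          exact Or.inl (Or.inr ⟨j, mem_univ _, hj⟩)
        · push Not at ha hb
          exact Or.inr (hcon w ha hb)
    have h2 := card_le_card h1
    rw [card_univ, Fintype.card_fun, Fintype.card_fin, hcardα] at h2
    have h3 : ((univ.biUnion E1 ∪ univ.biUnion E2) ∪ E3).card ≤
        (∑ j, (E1 j).card + ∑ l, (E2 l).card) + E3.card :=
      (card_union_le _ _).trans (Nat.add_le_add_right ((card_union_le _ _).trans
        (Nat.add_le_add card_biUnion_le card_biUnion_le)) _)
    have h4 : s * ∑ j, (E1 j).card ≤ K * (δ * s ^ K) := by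
      rw [mul_sum]
      refine (sum_le_card_nsmul _ _ _ fun j _ => hc1 j).trans ?_
      simp
    have h5 : s * ∑ l, (E2 l).card ≤ K * (2 * δ * s ^ K) := by
      rw [mul_sum]
      refine (sum_le_card_nsmul _ _ _ fun j _ => hc2 j).trans ?_
      simp
    have h6 : s * s ^ K ≤ (3 * K * δ + 1) * s ^ K := by
      calc s * s ^ K ≤ s * ((∑ j, (E1 j).card + ∑ l, (E2 l).card) + E3.card) :=
            Nat.mul_le_mul_left _ (h2.trans h3)
        _ = s * ∑ j, (E1 j).card + s * ∑ l, (E2 l).card + s * E3.card := by ring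
        _ ≤ K * (δ * s ^ K) + K * (2 * δ * s ^ K) + 1 * s ^ K :=
            Nat.add_le_add (Nat.add_le_add h4 h5) hc3
        _ = (3 * K * δ + 1) * s ^ K := by ring
    have h7 : s ≤ 3 * K * δ + 1 := Nat.le_of_mul_le_mul_right h6 (by positivity)
    nlinarith
  obtain ⟨w, hw1, hw2, hw3⟩ := hex
  have hQpre : ∀ n, n ≤ K → Q (pre n w) := by
    intro n
    induction n with
    | zero =>
      intro _
      obtain ⟨z, hz⟩ : Z.Nonempty := card_pos.mp (by omega)
      refine hQd _ z ?_ (hZQ z hz)
      rw [hpre]
      simp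
    | succ n ih =>
      intro hn
      have h1 := ih (by omega)
      have h2 := hw1 ⟨n, by omega⟩
      rw [hE1] at h2
      simp only [mem_filter, mem_univ, true_and, not_and, not_not] at h2
      have h3 := h2 h1
      have h4 : pre (n + 1) w = (w ⟨n, by omega⟩).1 ∪ pre n w := by
        rw [hpre]
        simp only
        have h5 : (univ.filter fun i : Fin K => i.val < n + 1) =
            insert (⟨n, by omega⟩ : Fin K) (univ.filter fun i : Fin K => i.val < n) := by
          ext i
          simp only [mem_filter, mem_univ, true_and, mem_insert, Fin.ext_iff]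
          omega
        rw [h5, biUnion_insert]
      rw [h4]
      exact h3
  have hQU : Q (univ.biUnion fun i => (w i).1) := by
    have h1 := hQpre K le_rfl
    have h2 : pre K w = univ.biUnion fun i => (w i).1 := by
      rw [hpre]
      simp only
      congr 1
      ext i
      simp
    rwa [h2] at h1
  refine ⟨fun i => (w i).1, fun i => (w i).2, hQU, fun l => ?_, l0, l1, fun h => ?_⟩
  · have h1 := hw2 l
    rw [hE2] at h1
    simp only [mem_filter, mem_univ, true_and, not_and, not_not] at h1
    exact h1 (hQd _ _ (biUnion_subset_biUnion_of_subset_left _ (subset_univ _)) hQU)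
  · apply hw3
    rw [hE3, mem_filter]
    exact ⟨mem_univ _, Subtype.ext h⟩

end Pool.Agent.K4H92.ANDF
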