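import Pool.Agent.K4H92.ANDF.Struct

/-!
Sparse polynomials with bounded integral values and sensitive blocks.
-/

set_option autoImplicit false

namespace Pool.Agent.K4H92.ANDF

open Finset Polynomial Pool.Agent.H630R2.LR.MARKOV

theorem deriv_bound {b k : ℕ} {J : Type*} [DecidableEq J] (c : Finset J → ℝ) (B : Fin b → Finset J)
    (hB : Pairwise fun i j => Disjoint (B i) (B j))
    (hc : ∀ S, k < S.card → c S = 0) (m : ℝ) (hm : 0 < m)
    (h01 : ∀ Y : Finset (Fin b), |∑ S ∈ (Y.biUnion B).powerset, c S| ≤ m) :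
    -(b : ℝ) * c ∅ + ∑ j : Fin b, ∑ S ∈ (B j).powerset, c S ≤ 2 * m * (k : ℝ) ^ 2 := by
  classical
  set G : Finset (Fin b) → ℝ := fun Y => ∑ S ∈ (Y.biUnion B).powerset, c S with hG
  set A : Finset J := univ.biUnion B with hA
  set Q : ℝ[X] := ∑ Y : Finset (Fin b), C (G Y) * (X ^ Y.card * (1 - X) ^ (b - Y.card)) with hQ
  set H : ℝ[X] := ∑ S ∈ A.powerset, C (c S) * X ^ (touched B S).card with hH
  have hQeval : ∀ θ : ℝ, Q.eval θ = ∑ Y : Finset (Fin b), G Y * (θ ^ Y.card * (1 - θ) ^ (b - Y.card)) := by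
    intro θ
    rw [hQ, eval_finsetSum]
    refine Finset.sum_congr rfl (fun Y _ => ?_)
    simp
  have hHQ : H = Q := by
    apply Polynomial.funext
    intro θ
    rw [hQeval, hH, eval_finsetSum]
    have e1 : ∀ S ∈ A.powerset, (C (c S) * X ^ (touched B S).card : ℝ[X]).eval θ =
        ∑ Y : Finset (Fin b), if touched B S ⊆ Y then
          c S * (θ ^ Y.card * (1 - θ) ^ (b - Y.card)) else 0 := by
      intro S _
      rw [← Finset.sum_filter, ← Finset.mul_sum, sum_weights]
      simp
    rw [Finset.sum_congr rfl e1, Finset.sum_comm]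
    refine Finset.sum_congr rfl (fun Y _ => ?_)
    rw [← Finset.sum_filter, ← Finset.sum_mul, hG]
    congr 1
    apply Finset.sum_congr _ (fun _ _ => rfl)
    ext S
    rw [mem_filter, mem_powerset, mem_powerset]
    constructor
    · rintro ⟨h1, h2⟩
      exact (touched_subset_iff hB h1 Y).mp h2
    · intro h
      have h1 : S ⊆ A := h.trans (biUnion_subset_biUnion_of_subset_left _ (subset_univ Y))
      exact ⟨h1, (touched_subset_iff hB h1 Y).mpr h⟩
  have hdegQ : Q.degree ≤ k := by
    rw [← hHQ, hH]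
    refine (Polynomial.degree_sum_le _ _).trans ?_
    refine Finset.sup_le (fun S _ => ?_)
    by_cases hS : k < S.card
    · rw [hc S hS]
      simp
    · refine (degree_C_mul_X_pow_le _ _).trans ?_
      have := (card_touched_le hB S).trans (not_lt.mp hS)
      exact_mod_cast this
  have hw1 : ∀ θ : ℝ, ∑ Y : Finset (Fin b), θ ^ Y.card * (1 - θ) ^ (b - Y.card) = 1 := by
    intro θ
    have := sum_weights (∅ : Finset (Fin b)) θ
    simpa using this
  have hQ0 : ∀ θ : ℝ, 0 ≤ θ → θ ≤ 1 → |Q.eval θ| ≤ m := by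
    intro θ h0 h1
    have hw : ∀ Y : Finset (Fin b), 0 ≤ θ ^ Y.card * (1 - θ) ^ (b - Y.card) := by
      intro Y
      have : 0 ≤ 1 - θ := by linarith
      positivity
    rw [hQeval]
    calc |∑ Y : Finset (Fin b), G Y * (θ ^ Y.card * (1 - θ) ^ (b - Y.card))|
        ≤ ∑ Y : Finset (Fin b), |G Y * (θ ^ Y.card * (1 - θ) ^ (b - Y.card))| :=
          abs_sum_le_sum_abs _ _
      _ ≤ ∑ Y : Finset (Fin b), m * (θ ^ Y.card * (1 - θ) ^ (b - Y.card)) := by
          refine Finset.sum_le_sum (fun Y _ => ?_)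
          rw [abs_mul, abs_of_nonneg (hw Y)]
          exact mul_le_mul_of_nonneg_right (h01 Y) (hw Y)
      _ = m := by rw [← mul_sum, hw1, mul_one]
  -- the derivative at zero
  have hder : (derivative Q).eval 0 = ∑ Y : Finset (Fin b),
      G Y * ((Y.card : ℝ) * 0 ^ (Y.card - 1) - 0 ^ Y.card * ((b - Y.card : ℕ) : ℝ)) := by
    rw [hQ, derivative_sum, eval_finsetSum]
    refine Finset.sum_congr rfl (fun Y _ => ?_)
    rw [derivative_C_mul, derivative_mul, derivative_X_pow, derivative_pow]
    simp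
    ring_nf
    simp
  have hval : ∀ Y : Finset (Fin b), ((Y.card : ℝ) * 0 ^ (Y.card - 1) -
      0 ^ Y.card * ((b - Y.card : ℕ) : ℝ)) =
      (if Y = ∅ then -(b : ℝ) else 0) + (if Y.card = 1 then 1 else 0) := by
    intro Y
    rcases Nat.lt_trichotomy Y.card 1 with h | h | h
    · have h0 : Y.card = 0 := by omega
      have hY : Y = ∅ := card_eq_zero.mp h0
      rw [h0, if_pos hY]
      simp
    · have hY : Y ≠ ∅ := by
        intro h1
        rw [h1] at h
        simp at h
      rw [if_neg hY, if_pos h, h]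
      simp
    · have hY : Y ≠ ∅ := by
        intro h1
        rw [h1] at h
        simp at h
      rw [if_neg hY, if_neg (by omega), zero_pow (by omega), zero_pow (by omega)]
      simp
  have hder2 : (derivative Q).eval 0 = -(b : ℝ) * G ∅ + ∑ j : Fin b, G {j} := by
    rw [hder]
    simp_rw [hval, mul_add, Finset.sum_add_distrib]
    congr 1
    · rw [Finset.sum_eq_single ∅]
      · simp
        ring
      · intro Y _ hY
        rw [if_neg hY, mul_zero]
      · intro h
        exact absurd (mem_univ _) h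
    · simp_rw [mul_ite, mul_one, mul_zero]
      rw [← Finset.sum_filter]
      symm
      apply Finset.sum_bij (fun j _ => ({j} : Finset (Fin b)))
      · intro j _
        simp
      · intro i _ j _ h
        exact Finset.singleton_injective h
      · intro Y hY
        rw [mem_filter] at hY
        obtain ⟨j, hj⟩ := Finset.card_eq_one.mp hY.2
        exact ⟨j, mem_univ _, hj.symm⟩
      · intro j _
        rfl
  have hGe : G ∅ = c ∅ := by
    simp [hG]
  have hGj : ∀ j, G {j} = ∑ S ∈ (B j).powerset, c S := by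
    intro j
    simp [hG]
  set P : ℝ[X] := C (-(1 / m)) * Q.comp (C (1 / 2) - C (1 / 2) * X) with hP
  have hPdeg : P.degree ≤ k := by
    have h1 : Q.natDegree ≤ k := natDegree_le_iff_degree_le.mpr hdegQ
    have h2 : (Q.comp (C (1 / 2) - C (1 / 2) * X)).natDegree ≤ k := by
      refine natDegree_comp_le.trans ?_
      have h3 : (C (1 / 2 : ℝ) - C (1 / 2) * X : ℝ[X]).natDegree ≤ 1 := by
        refine (natDegree_sub_le _ _).trans ?_
        simp only [natDegree_C, max_le_iff, zero_le, true_and]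
        exact (natDegree_C_mul_le _ _).trans natDegree_X_le
      calc Q.natDegree * (C (1 / 2 : ℝ) - C (1 / 2) * X : ℝ[X]).natDegree ≤ k * 1 :=
            Nat.mul_le_mul h1 h3
        _ = k := mul_one k
    rw [← natDegree_le_iff_degree_le, hP]
    exact (natDegree_C_mul_le _ _).trans h2
  have hPeval : ∀ x, P.eval x = -(1 / m) * Q.eval (1 / 2 - 1 / 2 * x) := by
    intro x
    rw [hP]
    simp [eval_comp]
  have hPb : ∀ x ∈ Set.Icc (-1 : ℝ) 1, |P.eval x| ≤ 1 := by
    rintro x ⟨hx1, hx2⟩
    have q1 := hQ0 (1 / 2 - 1 / 2 * x) (by linarith) (by linarith)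
    rw [hPeval, abs_mul, abs_neg, abs_of_pos (by positivity)]
    rw [div_mul_eq_mul_div, one_mul, div_le_one hm]
    exact q1
  have hd := abs_deriv_le hPdeg hPb
  have hd2 : (derivative P).eval 1 = 1 / (2 * m) * (derivative Q).eval 0 := by
    rw [hP, derivative_C_mul, derivative_comp]
    simp [eval_comp]
    ring
  rw [hd2, hder2, hGe] at hd
  simp_rw [hGj] at hd
  rw [div_mul_eq_mul_div, one_mul, div_le_iff₀ (by positivity)] at hd
  linarith

variable {P : Type*} [DecidableEq P]

/-- `v` is an integer of absolute value at most `m` -/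
def Rng (m : ℕ) (v : ℝ) : Prop := ∃ n : ℤ, |n| ≤ m ∧ v = n

theorem Rng.abs_le {m : ℕ} {v : ℝ} (h : Rng m v) : |v| ≤ m := by
  obtain ⟨n, hn, rfl⟩ := h
  have : |(n : ℝ)| = ((|n| : ℤ) : ℝ) := by push_cast; rfl
  rw [this]
  exact_mod_cast hn

theorem Rng.gap {m : ℕ} {v w : ℝ} (h : Rng m v) (h' : Rng m w) (hne : v ≠ w) :
    1 ≤ v - w ∨ 1 ≤ w - v := by
  obtain ⟨n, hn, rfl⟩ := h
  obtain ⟨k, hk, rfl⟩ := h'
  have hnk : n ≠ k := fun h => hne (by rw [h])
  rcases lt_or_gt_of_ne hnk with h | h
  · right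
    have : (n : ℤ) + 1 ≤ k := h
    have h2 : (n : ℝ) + 1 ≤ k := by exact_mod_cast this
    linarith
  · left
    have : (k : ℤ) + 1 ≤ n := h
    have h2 : (k : ℝ) + 1 ≤ n := by exact_mod_cast this
    linarith

theorem blocksZ (Z : Finset (Finset P)) (a : Finset P → ℝ) (m D K : ℕ) (hm : 1 ≤ m)
    (hZ : Z.card < 2 ^ D)
    (b0 : Finset P) (v : Fin K → Finset P) (hd : Pairwise fun i j => Disjoint (v i) (v j))
    (hb : ∀ i, Disjoint b0 (v i))
    (h01 : ∀ Y : Finset (Fin K), Rng m (ev Z a (b0 ∪ Y.biUnion v)))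
    (hs : ∀ i, ev Z a (b0 ∪ v i) ≠ ev Z a b0) : K ≤ 8 * m * D ^ 2 := by
  classical
  set tch : Finset P → Finset (Fin K) := fun w => univ.filter (fun i => ¬ Disjoint w (v i)) with htch
  set Z1 := Z.filter (fun w => w ⊆ b0 ∪ univ.biUnion v) with hZ1
  set c : Finset (Fin K) → ℝ := fun B => ∑ w ∈ Z1 with tch w = B, a w with hc
  have hiff : ∀ (Y : Finset (Fin K)) (w : Finset P),
      (w ⊆ b0 ∪ univ.biUnion v ∧ tch w ⊆ Y) ↔ w ⊆ b0 ∪ Y.biUnion v := by
    intro Y w
    constructor
    · rintro ⟨h1, h2⟩ p hp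
      have h3 := h1 hp
      rw [mem_union, mem_biUnion] at h3
      rw [mem_union, mem_biUnion]
      rcases h3 with h3 | ⟨i, _, hi⟩
      · exact Or.inl h3
      · refine Or.inr ⟨i, h2 ?_, hi⟩
        rw [htch, mem_filter]
        refine ⟨mem_univ _, fun hdis => ?_⟩
        exact (Finset.disjoint_left.mp hdis hp) hi
    · intro h
      refine ⟨h.trans (union_subset_union_right (biUnion_subset_biUnion_of_subset_left _
        (subset_univ _))), fun i hi => ?_⟩
      rw [htch, mem_filter] at hi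
      obtain ⟨p, hp, hpi⟩ := Finset.not_disjoint_iff.mp hi.2
      have h3 := h hp
      rw [mem_union, mem_biUnion] at h3
      rcases h3 with h3 | ⟨j, hj, hpj⟩
      · exact absurd hpi (Finset.disjoint_left.mp (hb i) h3)
      · by_contra hiY
        have hij : i ≠ j := fun h => hiY (h ▸ hj)
        exact (Finset.disjoint_left.mp (hd hij) hpi) hpj
  have hsum : ∀ Y : Finset (Fin K), ∑ B ∈ Y.powerset, c B = ev Z a (b0 ∪ Y.biUnion v) := by
    intro Y
    have h1 : ev Z a (b0 ∪ Y.biUnion v) = ∑ w ∈ Z1 with tch w ⊆ Y, a w := by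
      unfold ev
      refine sum_congr ?_ fun _ _ => rfl
      ext w
      rw [mem_filter, mem_filter, hZ1, mem_filter, ← hiff Y w]
      tauto
    rw [h1, hc]
    have h2 : ∀ w ∈ Z1.filter (fun w => tch w ⊆ Y), tch w ∈ Y.powerset := fun w hw =>
      mem_powerset.mpr (mem_filter.mp hw).2
    rw [← sum_fiberwise_of_maps_to h2]
    refine sum_congr rfl fun B hB => ?_
    refine sum_congr ?_ fun _ _ => rfl
    ext w
    simp only [mem_filter]
    constructor
    · rintro ⟨h3, h4⟩
      exact ⟨⟨h3, h4 ▸ mem_powerset.mp hB⟩, h4⟩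
    · rintro ⟨⟨h3, _⟩, h5⟩
      exact ⟨h3, h5⟩
  obtain ⟨R, hR, hRD⟩ := exists_half D K (Z1.image tch)
    (lt_of_le_of_lt (card_image_le.trans (card_le_card (filter_subset _ _))) hZ)
  have hcz : ∀ B, B ∉ Z1.image tch → c B = 0 := by
    intro B hB
    refine sum_eq_zero fun w hw => ?_
    rw [mem_filter] at hw
    exact absurd (mem_image.mpr ⟨w, hw.1, hw.2⟩) hB
  have hc0 : c ∅ = ev Z a b0 := by
    have h3 := hsum ∅
    simpa using h3
  have hc1 : ∀ i, ∑ B ∈ ({i} : Finset (Fin K)).powerset, c B = ev Z a (b0 ∪ v i) := by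
    intro i
    have h3 := hsum {i}
    simpa using h3
  -- subfamilies with a given sign
  have key : ∀ (σ : ℝ), (σ = 1 ∨ σ = -1) → ∀ R' : Finset (Fin K), R' ⊆ R →
      (∀ i ∈ R', 1 ≤ σ * (ev Z a (b0 ∪ v i) - ev Z a b0)) → R'.card ≤ 2 * m * D ^ 2 := by
    intro σ hσ R' hR' hpos
    set e : Fin R'.card → Fin K := fun j => (R'.orderEmbOfFin rfl) j with he
    have heinj : Function.Injective e := (R'.orderEmbOfFin rfl).injective
    have heR : ∀ j, e j ∈ R' := fun j => R'.orderEmbOfFin_mem rfl j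
    set c' : Finset (Fin K) → ℝ := fun S => if S ⊆ R' then σ * c S else 0 with hc'
    have hYR : ∀ Y : Finset (Fin R'.card), Y.biUnion (fun j => ({e j} : Finset (Fin K))) ⊆ R' := by
      intro Y i hi
      rw [mem_biUnion] at hi
      obtain ⟨j, _, hj⟩ := hi
      rw [mem_singleton] at hj
      exact hj ▸ heR j
    have hc's : ∀ S : Finset (Fin K), S ⊆ R' → ∑ B ∈ S.powerset, c' B =
        σ * ∑ B ∈ S.powerset, c B := by
      intro S hS
      rw [mul_sum]
      refine sum_congr rfl fun B hB => ?_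
      rw [hc']
      simp only
      rw [if_pos ((mem_powerset.mp hB).trans hS)]
    have hσ1 : |σ| = 1 := by
      rcases hσ with h | h <;> rw [h] <;> norm_num
    have hbb := deriv_bound (b := R'.card) (k := D) c'
      (fun j => ({e j} : Finset (Fin K))) (by
        intro i j hij
        rw [Finset.disjoint_singleton]
        exact fun h => hij (heinj h)) (by
        intro S hS
        rw [hc']
        simp only
        split_ifs with h
        · by_contra hne
          have h1 : S ∈ Z1.image tch := by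
            by_contra h2
            exact hne (by rw [hcz S h2, mul_zero])
          have := hRD S h1 (h.trans hR')
          omega
        · rfl) m (by exact_mod_cast hm) (by
        intro Y
        rw [hc's _ (hYR Y), hsum, abs_mul, hσ1, one_mul]
        exact (h01 _).abs_le)
    have h2 : c' ∅ = σ * ev Z a b0 := by
      rw [hc']
      simp only [empty_subset, if_true, hc0]
    have h3 : ∀ j : Fin R'.card, ∑ S ∈ ({e j} : Finset (Fin K)).powerset, c' S =
        σ * ev Z a (b0 ∪ v (e j)) := by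
      intro j
      rw [hc's _ (by rw [singleton_subset_iff]; exact heR j), hc1]
    simp_rw [h3] at hbb
    rw [h2] at hbb
    have h4 : (R'.card : ℝ) ≤ ∑ j : Fin R'.card, (σ * ev Z a (b0 ∪ v (e j)) - σ * ev Z a b0) := by
      have h5 : ∑ _j : Fin R'.card, (1 : ℝ) ≤
          ∑ j : Fin R'.card, (σ * ev Z a (b0 ∪ v (e j)) - σ * ev Z a b0) := by
        refine sum_le_sum fun j _ => ?_
        have := hpos (e j) (heR j)
        linarith
      simpa using h5
    rw [sum_sub_distrib, sum_const, card_univ, Fintype.card_fin, nsmul_eq_mul] at h4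
    have h6 : (R'.card : ℝ) ≤ 2 * m * (D : ℝ) ^ 2 := by linarith
    exact_mod_cast h6
  have hp := key 1 (Or.inl rfl) (R.filter fun i => 1 ≤ ev Z a (b0 ∪ v i) - ev Z a b0)
    (filter_subset _ _) (fun i hi => by rw [one_mul]; exact (mem_filter.mp hi).2)
  have hn := key (-1) (Or.inr rfl) (R.filter fun i => ¬ 1 ≤ ev Z a (b0 ∪ v i) - ev Z a b0)
    (filter_subset _ _) (fun i hi => by
      have h1 := (mem_filter.mp hi).2
      have h2 : Rng m (ev Z a (b0 ∪ v i)) := by
        have := h01 {i}
        simpa using this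
      have h3 : Rng m (ev Z a b0) := by
        have := h01 ∅
        simpa using this
      rcases h2.gap h3 (hs i) with h | h
      · exact absurd h h1
      · linarith)
  have hsum2 := card_filter_add_card_filter_not (s := R)
    (fun i => 1 ≤ ev Z a (b0 ∪ v i) - ev Z a b0)
  nlinarith

theorem tuple_boundZ (Z : Finset (Finset P)) (a : Finset P → ℝ) (Q : Finset P → Prop)
    (hQd : ∀ u v : Finset P, u ⊆ v → Q v → Q u) (ha : ∀ z ∈ Z, a z ≠ 0) (m : ℕ) (hm : 1 ≤ m)
    (h01 : ∀ v, Q v → Rng m (ev Z a v)) (D K : ℕ) (hZ : Z.card < 2 ^ D)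
    (w : Fin K → Finset P) (hw : ∀ i, w i ∈ Z) (hQ : Q (univ.biUnion w))
    (hiso : ∀ l, Iso Z Q ((univ.erase l).biUnion w) (w l)) (hne : ∃ l m, w l ≠ w m) :
    K ≤ 8 * m * D ^ 2 := by
  classical
  set T : Fin K → Finset P := fun l => (univ.erase l).biUnion w with hT
  set A : Fin K → Finset P := fun l => w l \ T l with hA
  set base : Finset P := univ.biUnion w \ univ.biUnion A with hbase
  have hwT : ∀ l m, m ≠ l → w m ⊆ T l := by
    intro l m hml p hp
    rw [hT, mem_biUnion]
    exact ⟨m, mem_erase.mpr ⟨hml, mem_univ _⟩, hp⟩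
  have hAne : ∀ l, (A l).Nonempty := by
    intro l
    rw [nonempty_iff_ne_empty]
    intro h0
    have h1 : w l ⊆ T l := by
      rw [← sdiff_eq_empty_iff_subset]
      exact h0
    have h2 : ∀ m, w m = w l := by
      intro m
      by_cases hml : m = l
      · rw [hml]
      · refine (hiso l).2 (w m) (hw m) ?_
        show w m ∪ T l = w l ∪ T l
        rw [union_eq_right.mpr (hwT l m hml), union_eq_right.mpr h1]
    obtain ⟨l', m', h3⟩ := hne
    exact h3 ((h2 l').trans (h2 m').symm)
  have hAd : ∀ l m, l ≠ m → ∀ p, p ∈ w l → p ∉ A m := by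
    intro l m hlm p hp hpm
    rw [hA] at hpm
    exact (mem_sdiff.mp hpm).2 (hwT m l hlm hp)
  have hbT : ∀ l, base ⊆ T l := by
    intro l p hp
    rw [hbase, mem_sdiff, mem_biUnion] at hp
    obtain ⟨⟨i, _, hi⟩, h2⟩ := hp
    by_contra hpT
    by_cases hil : i = l
    · subst hil
      exact h2 (mem_biUnion.mpr ⟨i, mem_univ _, mem_sdiff.mpr ⟨hi, hpT⟩⟩)
    · exact hpT (hwT l i hil hi)
  have hwb : ∀ l, w l \ base = A l := by
    intro l
    ext p
    rw [mem_sdiff]
    constructor
    · rintro ⟨h1, h2⟩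
      rw [hbase, mem_sdiff, not_and, not_not] at h2
      have h3 := h2 (mem_biUnion.mpr ⟨l, mem_univ _, h1⟩)
      rw [mem_biUnion] at h3
      obtain ⟨m, _, hm⟩ := h3
      by_cases hlm : l = m
      · rwa [hlm]
      · exact absurd hm (hAd l m hlm p h1)
    · intro h1
      refine ⟨(mem_sdiff.mp h1).1, fun h2 => ?_⟩
      rw [hbase, mem_sdiff] at h2
      exact h2.2 (mem_biUnion.mpr ⟨l, mem_univ _, h1⟩)
  set b : Finset P → ℝ := fun S => ∑ u ∈ Z with u \ base = S, a u with hb
  have hbs : ∀ v : Finset P, ∑ S ∈ v.powerset, b S = ev Z a (base ∪ v) := by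
    intro v
    unfold ev
    have h2 : ∀ u ∈ Z.filter (fun u => u ⊆ base ∪ v), u \ base ∈ v.powerset := fun u hu => by
      rw [mem_powerset]
      exact sdiff_le_iff.mpr (mem_filter.mp hu).2
    rw [← sum_fiberwise_of_maps_to h2]
    refine sum_congr rfl fun S hS => ?_
    refine sum_congr ?_ fun _ _ => rfl
    ext u
    simp only [mem_filter]
    constructor
    · rintro ⟨h3, h4⟩
      refine ⟨⟨h3, ?_⟩, h4⟩
      have h5 : u \ base ⊆ v := h4 ▸ mem_powerset.mp hS
      exact sdiff_le_iff.mp h5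
    · rintro ⟨⟨h3, _⟩, h5⟩
      exact ⟨h3, h5⟩
  have hb0 : b ∅ = ev Z a base := by
    have := hbs ∅
    simpa using this
  have hbA : ∀ l, b (A l) = a (w l) := by
    intro l
    have h1 : (Z.filter fun u => u \ base = A l) = {w l} := by
      ext u
      rw [mem_filter, mem_singleton]
      constructor
      · rintro ⟨hu, h2⟩
        refine (hiso l).2 u hu ?_
        show u ∪ T l = w l ∪ T l
        have h3 : ∀ x : Finset P, x \ base = A l → x ∪ T l = A l ∪ T l := by
          intro x hx
          ext p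
          rw [mem_union, mem_union, ← hx, mem_sdiff]
          constructor
          · rintro (h4 | h4)
            · by_cases h5 : p ∈ base
              · exact Or.inr (hbT l h5)
              · exact Or.inl ⟨h4, h5⟩
            · exact Or.inr h4
          · rintro (h4 | h4)
            · exact Or.inl h4.1
            · exact Or.inr h4
        rw [h3 u h2, h3 (w l) (hwb l)]
      · rintro rfl
        exact ⟨hw l, hwb l⟩
    rw [hb]
    simp only
    rw [h1, sum_singleton]
  have hex : ∀ l, ∃ v ⊆ A l, ev Z a (base ∪ v) ≠ ev Z a base := by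
    intro l
    by_contra hcon
    push Not at hcon
    have h1 := const_coef b (A l) (fun v hv => by rw [hbs, hb0]; exact hcon v hv) (hAne l)
    rw [hbA] at h1
    exact ha _ (hw l) h1
  choose v hvA hv using hex
  have hAU : ∀ l, A l ⊆ univ.biUnion w := fun l p hp =>
    mem_biUnion.mpr ⟨l, mem_univ _, (mem_sdiff.mp hp).1⟩
  refine blocksZ Z a m D K hm hZ base v ?_ ?_ ?_ hv
  · intro i j hij
    refine Finset.disjoint_of_subset_left (hvA i) (Finset.disjoint_of_subset_right (hvA j) ?_)
    rw [Finset.disjoint_left]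
    intro p hp
    exact hAd i j hij p (mem_sdiff.mp hp).1
  · intro i
    rw [Finset.disjoint_left]
    intro p hp hpi
    rw [hbase, mem_sdiff] at hp
    exact hp.2 (mem_biUnion.mpr ⟨i, mem_univ _, hvA i hpi⟩)
  · intro Y
    refine h01 _ (hQd _ _ ?_ hQ)
    refine union_subset sdiff_subset ?_
    intro p hp
    rw [mem_biUnion] at hp
    obtain ⟨i, _, hi⟩ := hp
    exact hAU i (hvA i hi)

/-- **Structure theorem.** A polynomial with `s ≥ 2` monomials, `s < 2 ^ D`, whose values on a
down-set `Q` are integers of absolute value at most `m`, has a union `T ∈ Q` of at most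
`K > 8 m D ^ 2` monomials such that there are less than `(1 - 1 / (8 K)) s` different unions
`w ∪ T ∈ Q` of `T` and one more monomial. -/
theorem structure_thmZ (Z : Finset (Finset P)) (a : Finset P → ℝ) (Q : Finset P → Prop)
    (hQd : ∀ u v : Finset P, u ⊆ v → Q v → Q u) (ha : ∀ z ∈ Z, a z ≠ 0) (hZQ : ∀ z ∈ Z, Q z)
    (m : ℕ) (hm : 1 ≤ m) (h01 : ∀ v, Q v → Rng m (ev Z a v)) (D K : ℕ) (hZ : Z.card < 2 ^ D)
    (hK : 8 * m * D ^ 2 < K) (hZ2 : 2 ≤ Z.card) :
    ∃ T ∈ Un Z K, Q T ∧ Z.card < 8 * K * (Z.card - (cls Z Q T).card) := by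
  by_contra hcon
  push Not at hcon
  have hD : 1 ≤ D := by
    by_contra h
    have : D = 0 := by omega
    subst this
    simp at hZ
    simp [hZ] at hZ2
  have hK2 : 2 ≤ K := by
    have : 1 ≤ D ^ 2 := Nat.one_le_pow _ _ (by omega)
    nlinarith
  obtain ⟨w, h1, h2, h3, h4⟩ := exists_tuple Z Q hQd hZQ K hK2 hZ2 hcon
  have := tuple_boundZ Z a Q hQd ha m hm h01 D K hZ w h1 h2 h3 h4
  omega

end Pool.Agent.K4H92.ANDF
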